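import Pool.Agent.P.MP_bdc337_an.SO.Low2

/-! Sharp lower bound. -/

set_option autoImplicit false

open Finset PowerSeries Metric Filter Topology Real
open scoped ComplexOrder

namespace Pool.Agent.P.MP_bdc337_an.SO

open Pool.Agent.P.MP_bdc337_an.UO Pool.Agent.P.MP_bdc337_an.SO.Lw

variable {a : ℝ}

theorem low_core (h0 : 0 < a) (h1 : a < 1) {t β : ℝ} (t0 : 0 < t) (t1 : t < 1) {d : ℕ}
    (hβ : t ^ d ≤ β) (β1 : β ≤ 1 / 4) :
    ∃ q H G : ℂ → ℂ, Dat a q H G ∧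
      a * ((1 - t ^ 2) / 2) ^ (1 - a) / 2 * exp (Lf (1 - a) (1 - t ^ 2 * t ^ 2)) *
        ((1 - 4 * β) / ((1 + 2 * (1 - a)) * (1 + β) ^ 2) * exp (-(4 * (1 - a)))) ≤
      (d + 1 : ℕ) * ‖coeff (d + 1 + 1) (tay fun z => z * Complex.exp (G z))‖ := by
  have hnb : ball (0 : ℂ) 1 ∈ 𝓝 (0 : ℂ) := ball_mem_nhds 0 one_pos
  have e0 : 0 < 1 - a := by linarith
  have r0 : 0 ≤ t ^ 2 := by positivity
  have r1 : t ^ 2 < 1 := pow_lt_one₀ t0.le t1 two_ne_zero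
  have rt : t ^ 2 ≤ t := by nlinarith
  have β0 : 0 ≤ β := (pow_nonneg t0.le _).trans hβ
  have hβ' : (t ^ 2) ^ (d + 1) ≤ β := by
    rw [← pow_mul]
    exact (pow_le_pow_of_le_one t0.le t1.le (by omega)).trans hβ
  set A := 2 * a * ((1 - t ^ 2) / 2) ^ (1 - a) / ((1 + 2 * (1 - a)) * (1 + β) ^ 2) with hA
  have Y0 : 0 < ((1 - t ^ 2) / 2) ^ (1 - a) := rpow_pos_of_pos (by linarith) _
  have A0 : 0 < A := by rw [hA]; positivity
  obtain ⟨k, k0, k1, H, G, h⟩ := qT_dat h0 h1 r0 r1 hβ' hA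
  refine ⟨_, H, G, h, ?_⟩
  obtain ⟨nF, s1⟩ := Lw.series h r0 r1 A0.le k0 k1
  have s2 := tail_ge (fun i => (Complex.nonneg_iff.1 (nF i)).1) t0.le t1.le d
    (h.hasSum nF r0 r1) (h.hasSum nF t0.le t1)
  have s3 := radial h r0 r1 fun y y0 y1 => by
    have c3 : (0 : ℂ) ≤ y := Complex.zero_le_real.2 y0.le
    have c4 : 0 ≤ Ap (t ^ 2) d y := sum_nonneg fun j _ =>
      mul_nonneg (Complex.zero_le_real.2 (by positivity)) (pow_nonneg c3 j)
    have c5 : 0 ≤ Bp (t ^ 2) d y := sum_nonneg fun j _ =>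
      mul_nonneg (Complex.zero_le_real.2 (by positivity)) (pow_nonneg c3 j)
    have c6 : 0 ≤ A * (1 - (t ^ 2) ^ 2) := mul_nonneg A0.le (by nlinarith)
    have c7 := (Complex.nonneg_iff.1 (mul_nonneg (Complex.zero_le_real.2 c6)
      (mul_nonneg c3 (mul_nonneg c4 c5)))).1
    have c8 : (1 - (k : ℂ) * (y : ℂ) ^ (d + 1)) = ((1 - k * y ^ (d + 1) : ℝ) : ℂ) := by
      push_cast; rfl
    have c9 : 0 ≤ 1 - k * y ^ (d + 1) := by
      have := mul_le_of_le_one_right k0 (pow_le_one₀ (n := d + 1) y0.le y1.le)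
      linarith
    rw [qT, Complex.add_re, c8, Complex.div_ofReal_re]
    linarith [div_nonneg c7 c9]
  have b2 := h.growth (x := 1) norm_one r0 rt t1
  have b3 := Lf_ratio e0 (y := 1 - t) (l := 1 + t) (by linarith) (by linarith) (by nlinarith)
  rw [show (1 + t) * (1 - t) = 1 - t ^ 2 by ring] at b3
  rw [mul_one, mul_one] at b2
  have b4 : log (1 + t) ≤ log 2 := log_le_log (by linarith) (by linarith)
  set u := exp (G ((t ^ 2 : ℝ) : ℂ)).re with hu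
  have u0 : 0 < u := exp_pos _
  have b5 : exp (G t).re ≤ 4 * u := by
    refine (exp_le_exp.2 (show _ ≤ log 2 + log 2 + (G ((t ^ 2 : ℝ) : ℂ)).re by linarith)).trans ?_
    rw [exp_add, exp_add, exp_log two_pos]
    linarith
  have b6 : exp (Lf (1 - a) (1 - t ^ 2 * t ^ 2)) * exp (-(4 * (1 - a))) ≤ 4 * u := by
    rw [← exp_add]
    refine (exp_le_exp.2 (show _ ≤ log 2 + log 2 + (G ((t ^ 2 : ℝ) : ℂ)).re by linarith)).trans ?_
    rw [exp_add, exp_add, exp_log two_pos]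
    linarith
  have b7 : t ^ d * exp (G t).re ≤ β * (4 * u) := mul_le_mul hβ b5 (exp_pos _).le β0
  rw [tay_mul (f := fun z => z) analyticAt_id (h.Gdiff.cexp.analyticAt hnb), tay_id,
    coeff_succ_X_mul]
  refine le_trans ?_ ((mul_le_mul_of_nonneg_left (le_trans
    (show (1 - 4 * β) * u ≤ _ by linarith) s2) A0.le).trans s1)
  have b8 := mul_le_mul_of_nonneg_left b6 (mul_nonneg A0.le (show 0 ≤ (1 - 4 * β) / 4 by linarith))
  refine le_trans (le_of_eq ?_) (b8.trans (le_of_eq (by ring)))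
  rw [hA]
  ring

lemma low_loss {e β x : ℝ} (e0 : 0 ≤ e) (β0 : 0 ≤ β) (β1 : β ≤ 1 / 4) (x0 : 0 ≤ x) :
    1 - (6 * β + 6 * e + x) ≤
      exp (-x) * ((1 - 4 * β) / ((1 + 2 * e) * (1 + β) ^ 2) * exp (-(4 * e))) := by
  have h1 : 1 - (6 * β + 2 * e) ≤ (1 - 4 * β) / ((1 + 2 * e) * (1 + β) ^ 2) := by
    rw [le_div_iff₀ (by positivity)]
    have p1 : (1 - 6 * β) * (1 + β) ^ 2 ≤ 1 - 4 * β := by nlinarith [mul_nonneg β0 (sq_nonneg β)]
    have p2 : (1 - (6 * β + 2 * e)) * (1 + 2 * e) ≤ 1 - 6 * β := by nlinarith [mul_nonneg β0 e0]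
    nlinarith [mul_le_mul_of_nonneg_right p2 (sq_nonneg (1 + β))]
  have h2 : 0 ≤ (1 - 4 * β) / ((1 + 2 * e) * (1 + β) ^ 2) := div_nonneg (by linarith) (by positivity)
  have h3 : (1 - 4 * β) / ((1 + 2 * e) * (1 + β) ^ 2) ≤ 1 := by
    rw [div_le_one (by positivity)]
    nlinarith [mul_nonneg e0 (sq_nonneg (1 + β))]
  have h4 := add_one_le_exp (-(x + 4 * e))
  rw [mul_left_comm, ← exp_add, ← neg_add]
  generalize (1 - 4 * β) / ((1 + 2 * e) * (1 + β) ^ 2) = P at *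
  nlinarith [mul_le_mul_of_nonneg_left h4 h2]

lemma low_beta {L x : ℝ} {d : ℕ} (L8 : 8 ≤ L) (x0 : 0 < x) (xL : L * x < 1)
    (xn : 1 ≤ x * (d + 2)) : (1 - L * x) ^ d ≤ 2 / L := by
  have p1 := pow_le_pow_left₀ (by linarith) (one_sub_le_exp_neg (L * x)) d
  have p2 := add_one_le_exp (d * (L * x))
  have p4 : x ≤ 1 / 8 := by nlinarith
  have p3 : L / 2 ≤ d * (L * x) := by nlinarith
  rw [← exp_nat_mul, mul_neg, exp_neg] at p1
  refine p1.trans ((inv_anti₀ (by linarith) (show L / 2 ≤ _ by linarith)).trans (le_of_eq ?_))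
  rw [inv_div]

lemma low_Lf {L x y e : ℝ} (L8 : 8 ≤ L) (x0 : 0 < x) (xL : L * x < 1) (e0 : 0 < e) (e1 : e ≤ 1)
    (xe : x ^ e = y) :
    2 * (1 - y) / e + -(8 * L * y) ≤ Lf e (1 - (1 - L * x) ^ 2 * (1 - L * x) ^ 2) := by
  have xL0 : 0 < L * x := by positivity
  have y0 : 0 < y := xe ▸ rpow_pos_of_pos x0 _
  have p0 : (1 - L * x) ^ 2 ≤ 1 := pow_le_one₀ (by linarith) (by linarith)
  have p1 : 1 - (1 - L * x) ^ 2 * (1 - L * x) ^ 2 ≤ (1 + (4 * L - 1)) * x := by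
    have := one_add_mul_le_pow (a := -(L * x)) (by linarith) 4
    push_cast at this
    linarith
  have p2 := rpow_le_rpow (sub_nonneg.2 (mul_le_one₀ p0 (sq_nonneg _) p0)) p1 e0.le
  rw [mul_rpow (by linarith) x0.le, xe] at p2
  have p3 := mul_le_mul_of_nonneg_right (rpow_one_add_le_one_add_mul_self (s := 4 * L - 1)
    (by linarith) e0.le e1) y0.le
  rw [Lf, div_add' _ _ _ e0.ne', div_le_div_iff_of_pos_right e0]
  linarith [mul_pos e0 y0]

lemma low_eta {L y e η : ℝ} (L0 : 0 < L) (β2 : 2 / L ≤ η / 12) (y1 : y * (12 + 16 * L) < η)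
    (e1 : e * (12 + 16 * L) < η) : 1 - η ≤ 1 - (6 * (2 / L) + 6 * e + 8 * L * y) := by
  have : (6 * e + 8 * L * y) * (12 + 16 * L) ≤ η / 2 * (12 + 16 * L) := by
    linarith [mul_le_mul_of_nonneg_left y1.le L0.le]
  have := le_of_mul_le_mul_right this (by positivity)
  linarith

theorem low_sharp {η : ℝ} (hη : 0 < η) : ∃ ε : ℝ, 0 < ε ∧ ∀ a : ℝ, 0 < a → a < 1 → ∀ n : ℕ, 2 ≤ n →
    1 - a < ε → (n : ℝ) ^ (-(1 - a)) < ε → ∃ q H G : ℂ → ℂ, Dat a q H G ∧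
      (1 - η) * (a * max ((n : ℝ) ^ (-(1 - a))) ((1 - a) / 2) / 2 *
        exp (2 * (1 - max ((n : ℝ) ^ (-(1 - a))) ((1 - a) / 2)) / (1 - a))) ≤
      n * ‖coeff n (tay fun z => z * Complex.exp (G z))‖ := by
  obtain ⟨L, L8, Lη⟩ : ∃ L : ℝ, 8 ≤ L ∧ 24 ≤ L * η := by
    have : 0 < 24 / η := by positivity
    refine ⟨24 / η + 8, by linarith, ?_⟩
    rw [add_mul, div_mul_cancel₀ _ hη.ne']
    linarith
  have L0 : 0 < L := by linarith
  refine ⟨min (η / (12 + 16 * L)) (1 / L), by positivity, fun a h0 h1 n hn he hν => ?_⟩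
  obtain ⟨d, rfl⟩ : ∃ d, n = d + 1 + 1 := ⟨n - 2, by omega⟩
  have nd : ((d + 1 + 1 : ℕ) : ℝ) = d + 2 := by push_cast; ring
  rw [nd] at hν ⊢
  have n0 : (0 : ℝ) < d + 2 := by positivity
  have e0 : 0 < 1 - a := by linarith
  have yν := le_max_left (((d : ℝ) + 2) ^ (-(1 - a))) ((1 - a) / 2)
  have y0 : 0 < max (((d : ℝ) + 2) ^ (-(1 - a))) ((1 - a) / 2) := lt_max_of_lt_right (by linarith)
  have ye : max (((d : ℝ) + 2) ^ (-(1 - a))) ((1 - a) / 2) < min (η / (12 + 16 * L)) (1 / L) :=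
    max_lt hν (by linarith)
  generalize max (((d : ℝ) + 2) ^ (-(1 - a))) ((1 - a) / 2) = y at *
  obtain ⟨y1, y2⟩ := lt_min_iff.1 ye
  have e1 := (lt_min_iff.1 he).1
  rw [lt_div_iff₀ (by positivity)] at y1 e1
  rw [lt_div_iff₀ L0] at y2
  have y3 : y ≤ 1 := by nlinarith only [y0, y2, L8]
  have x0 : 0 < y ^ (1 - a)⁻¹ := rpow_pos_of_pos y0 _
  have xe : (y ^ (1 - a)⁻¹) ^ (1 - a) = y := rpow_inv_rpow y0.le e0.ne'
  have xy : y ^ (1 - a)⁻¹ ≤ y := by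
    simpa using rpow_le_rpow_of_exponent_ge y0 y3 ((one_le_inv₀ e0).2 (by linarith))
  have xn := rpow_le_rpow (by positivity) yν (inv_nonneg.2 e0.le)
  rw [rpow_neg n0.le, ← inv_rpow n0.le, rpow_rpow_inv (by positivity) e0.ne',
    inv_le_iff_one_le_mul₀ n0] at xn
  generalize y ^ (1 - a)⁻¹ = x at *
  have xL : L * x < 1 := by linarith [mul_le_mul_of_nonneg_left xy L0.le]
  have xL0 : 0 < L * x := by positivity
  have β1 : 2 / L ≤ 1 / 4 := by rw [div_le_iff₀ L0]; linarith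
  have β2 : 2 / L ≤ η / 12 := by rw [div_le_iff₀ L0]; linarith
  obtain ⟨q, H, G, h, hl⟩ := low_core h0 h1 (t := 1 - L * x) (by linarith) (by linarith)
    (low_beta L8 x0 xL xn) β1
  refine ⟨q, H, G, h, le_trans ?_ (hl.trans (mul_le_mul_of_nonneg_right ?_ (norm_nonneg _)))⟩
  swap
  · push_cast; linarith
  have m1 : y ≤ ((1 - (1 - L * x) ^ 2) / 2) ^ (1 - a) := by
    rw [← xe]
    exact rpow_le_rpow x0.le (by nlinarith only [xL, xL0, x0, L8]) e0.le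
  have m3 := low_loss e0.le (β := 2 / L) (by positivity) β1 (x := 8 * L * y) (by positivity)
  have m4 := exp_le_exp.2 (low_Lf L8 x0 xL e0 (by linarith) xe)
  rw [exp_add] at m4
  have m5 : 0 ≤ (1 - 4 * (2 / L)) / ((1 + 2 * (1 - a)) * (1 + 2 / L) ^ 2) * exp (-(4 * (1 - a))) :=
    mul_nonneg (div_nonneg (by linarith) (by positivity)) (exp_pos _).le
  have m6 := low_eta L0 β2 y1 e1
  generalize (1 - 4 * (2 / L)) / ((1 + 2 * (1 - a)) * (1 + 2 / L) ^ 2) * exp (-(4 * (1 - a))) = P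
    at *
  calc (1 - η) * (a * y / 2 * exp (2 * (1 - y) / (1 - a)))
      ≤ exp (-(8 * L * y)) * P * (a * y / 2 * exp (2 * (1 - y) / (1 - a))) :=
        mul_le_mul_of_nonneg_right (m6.trans m3) (by positivity)
    _ = a * y / 2 * (exp (2 * (1 - y) / (1 - a)) * exp (-(8 * L * y))) * P := by ring
    _ ≤ _ := by
        have m2 := y0.le.trans m1
        gcongr

end Pool.Agent.P.MP_bdc337_an.SO
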