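import Pool.Agent.P.MP_bdc337_an.SO.Iface

/-! Step U1. -/

set_option autoImplicit false

namespace Pool.Agent.P.MP_bdc337_an.SO

open Finset PowerSeries Metric Filter Topology Real
open UO LN

lemma u1_two (a : ℝ) : (2 : ℝ) ^ a = 2 * exp (-((1 - a) * log 2)) := by
  rw [Real.rpow_def_of_pos two_pos, show log 2 * a = log 2 + -((1 - a) * log 2) by ring, exp_add,
    exp_log two_pos]

lemma u1_pt {a t : ℝ} (h0 : 0 < a) (h1 : a < 1) (t0 : 0 ≤ t) (t1 : t < 1) :
    ((1 + t) / (1 - t)) ^ a ≤ 1 + t * (2 ^ a * (1 - t) ^ (-a) + 3 * (1 - a)) := by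
  have p1 : 0 < 1 - t := by linarith
  have W0 : 0 < (1 - t) ^ (-a) := Real.rpow_pos_of_pos p1 _
  have b2 : (2 : ℝ) ^ a ≤ 2 := by
    simpa using Real.rpow_le_rpow_of_exponent_le (x := 2) (by norm_num) h1.le
  have b0 : 0 < (2 : ℝ) ^ a := by positivity
  rcases le_total t (1 / 2) with h | h
  · have e1 := pow_ineq h0 h1 t0 t1
    have l2 := log_two_lt_d9
    have e2 : 2 - (2 : ℝ) ^ a ≤ 3 / 2 * (1 - a) := by
      have := add_one_le_exp (-((1 - a) * log 2))
      rw [u1_two]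
      nlinarith
    have e3 : (1 - t) ^ (-a) ≤ 2 := by
      have : (1 - t) ^ (-a) ≤ (2⁻¹ : ℝ) ^ (-a) :=
        Real.rpow_le_rpow_of_nonpos (by norm_num) (by linarith) (by linarith)
      rw [Real.inv_rpow two_pos.le, Real.rpow_neg two_pos.le, inv_inv] at this
      linarith
    have e4 : (2 - (2 : ℝ) ^ a) * (1 - t) ^ (-a) ≤ 3 / 2 * (1 - a) * 2 :=
      mul_le_mul e2 e3 W0.le (by linarith)
    nlinarith [mul_le_mul_of_nonneg_left e4 t0]
  · have e1 : (1 + t) ^ a ≤ 2 ^ a * (1 + a * (-((1 - t) / 2))) := by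
      rw [show 1 + t = 2 * (1 + -((1 - t) / 2)) by ring, Real.mul_rpow two_pos.le (by linarith)]
      exact mul_le_mul_of_nonneg_left
        (rpow_one_add_le_one_add_mul_self (by linarith) h0.le h1.le) b0.le
    have e2 : (1 - t) ^ (-a) * (1 - t) ≤ 1 := by
      rw [← Real.rpow_add_one p1.ne']
      exact Real.rpow_le_one p1.le (by linarith) (by linarith)
    have e3 : ((1 + t) / (1 - t)) ^ a = (1 + t) ^ a * (1 - t) ^ (-a) := by
      rw [Real.div_rpow (by linarith) p1.le, Real.rpow_neg p1.le, div_eq_mul_inv]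
    have e4 : 2 ^ a * ((1 - t) ^ (-a) * (1 - t)) ≤ 2 * 1 :=
      mul_le_mul b2 e2 (by positivity) two_pos.le
    have e5 := mul_le_mul_of_nonneg_right e1 W0.le
    have e6 := mul_le_mul_of_nonneg_right e4 (show 0 ≤ 1 - a / 2 by linarith)
    rw [e3]
    nlinarith [mul_nonneg (show 0 ≤ 1 - a by linarith) (show 0 ≤ t - 1 / 2 by linarith)]

theorem p_U1 :
    S_U1 := by
  intro a q H G h x hx t t0 t1
  have h0 := h.a0
  have h1 := h.a1
  have e0 : 0 < 1 - a := by linarith
  have key := mono_of_deriv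
    (f := fun t : ℝ => 2 ^ a / 2 * Lf (1 - a) (1 - 1 * t) + 3 * (1 - a) * t - (G (t * x)).re)
    (f' := fun t => 2 ^ a / 2 * (2 * 1 * (1 - 1 * t) ^ (-a)) + 3 * (1 - a) * 1 -
      ((q (t * x)).re - 1) / t) t0
    (ContinuousOn.sub (fun y hy => (((Lf_deriv h1 (by linarith [hy.2])).const_mul _).add
      ((hasDerivAt_id' y).const_mul _)).continuousAt.continuousWithinAt) (h.ray_cont hx le_rfl t1))
    (fun y hy => (((Lf_deriv h1 (by linarith [hy.2])).const_mul _).add
      ((hasDerivAt_id' y).const_mul _)).sub (h.ray hx hy.1 (hy.2.trans t1))) (fun y hy => ?_)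
  · simp only [one_mul, mul_zero, sub_zero, Lf_one, Complex.ofReal_zero, zero_mul, h.G0,
      Complex.zero_re, add_zero] at key
    have p1 : 0 < 1 - t := by linarith
    have l2 := log_two_lt_d9
    have l0 : 0 < log 2 := log_pos one_lt_two
    set τ := exp (-((1 - a) * log 2)) with hτ
    have τ0 : 0 < τ := exp_pos _
    have e1 : ((1 - t) / 2) ^ (1 - a) = (1 - t) ^ (1 - a) * τ := by
      rw [Real.div_rpow p1.le two_pos.le, div_eq_mul_inv, Real.rpow_def_of_pos two_pos, ← exp_neg,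
        mul_comm (log 2)]
    have x0 : 0 < (1 - a) * log 2 := by positivity
    have e2 : τ * ((1 - a) * log 2 + 1) ≤ 1 := by
      have := mul_le_mul_of_nonneg_left (add_one_le_exp ((1 - a) * log 2)) τ0.le
      rwa [hτ, ← exp_add, neg_add_cancel, exp_zero] at this
    have e3 : τ ≤ 1 - (1 - a) * log 2 + ((1 - a) * log 2) ^ 2 := by
      refine le_of_mul_le_mul_right (e2.trans ?_) (show 0 < (1 - a) * log 2 + 1 by linarith)
      nlinarith [pow_pos x0 3]
    have e4 : ((1 - a) * log 2) ^ 2 ≤ (1 - a) ^ 2 / 2 := by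
      have : log 2 ^ 2 ≤ 1 / 2 := by nlinarith
      rw [mul_pow]
      nlinarith [sq_nonneg (1 - a)]
    have e5 : 2 ^ a / 2 * Lf (1 - a) (1 - t) ≤ Lf (1 - a) ((1 - t) / 2) - 2 * log 2 + (1 - a) := by
      rw [Lf, Lf, e1, u1_two, ← hτ]
      refine le_of_mul_le_mul_right ?_ e0
      have c1 : 2 * τ / 2 * (2 * (1 - (1 - t) ^ (1 - a)) / (1 - a)) * (1 - a) =
          2 * τ - 2 * ((1 - t) ^ (1 - a) * τ) := by
        field_simp
      have c2 : (2 * (1 - (1 - t) ^ (1 - a) * τ) / (1 - a) - 2 * log 2 + (1 - a)) * (1 - a) =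
          2 - 2 * ((1 - t) ^ (1 - a) * τ) - 2 * ((1 - a) * log 2) + (1 - a) ^ 2 := by
        field_simp
      rw [c1, c2]
      linarith
    nlinarith [mul_nonneg e0.le p1.le]
  · have y0 := hy.1
    have y1 := hy.2.trans t1
    have hn : ‖(y * x : ℂ)‖ = y := by
      rw [norm_mul, hx, Complex.norm_real, Real.norm_of_nonneg y0.le, mul_one]
    have e1 := h.norm_le (z := y * x) (by rwa [hn])
    rw [hn] at e1
    have e2 := u1_pt h0 h1 y0.le y1
    have e3 := Complex.re_le_norm (q (y * x))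
    simp only [one_mul, mul_one, sub_nonneg]
    rw [div_le_iff₀ y0]
    nlinarith

end Pool.Agent.P.MP_bdc337_an.SO
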