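import Pool.Agent.P.MP_bdc337_an.SO.Iface

/-! Step U2. -/

set_option autoImplicit false

namespace Pool.Agent.P.MP_bdc337_an.SO

open Finset PowerSeries Metric Filter Topology Real
open UO LN

theorem p_U2 :
    S_U2 := by
  intro a q H G h N hN
  have hnb : ball (0 : ℂ) 1 ∈ 𝓝 (0 : ℂ) := ball_mem_nhds 0 one_pos
  have aF : AnalyticAt ℂ (fun z => Complex.exp (G z)) 0 := h.Gdiff.cexp.analyticAt hnb
  have n0 : (N : ℂ) ≠ 0 := by exact_mod_cast (by omega : N ≠ 0)
  have e := congrArg (coeff N) h.euler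
  rw [coeff_X_mul_deriv, coeff_conv (by rw [map_sub, coeff_zero_tay, h.q0]; simp) _ le_rfl] at e
  have m0' : coeff 0 (tay (m1 N q)) = 0 := by
    rw [m1, coeff_poly, if_pos (by omega)]
    simp
  rw [tay_mul (f := m1 N q) ((poly_diff _ _).analyticAt 0) aF,
    tay_mul (h.qd.analyticAt hnb) ((poly_diff _ _).analyticAt 0), coeff_conv m0' _ le_rfl,
    mul_comm (tay q), coeff_mul, Finset.Nat.sum_antidiagonal_eq_sum_range_succ_mk, sum_range_succ,
    coeff_poly, if_neg (lt_irrefl N), zero_mul, add_zero, mul_sum, ← sum_add_distrib, FF, e]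
  refine sum_congr rfl fun j hj => ?_
  have hj' := mem_range.1 hj
  rw [coeff_poly, if_pos hj', m1, coeff_poly, if_pos (by omega), map_sub, coeff_one,
    if_neg (by omega), show min (N - j) (2 * N - (N - j)) = N - j by omega, Nat.cast_sub hj'.le]
  field_simp
  ring

end Pool.Agent.P.MP_bdc337_an.SO
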