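import Pool.Agent.P.MP_bdc337_an.SO.Iface

/-! Step U3. -/

set_option autoImplicit false

namespace Pool.Agent.P.MP_bdc337_an.SO

open Finset PowerSeries Metric Filter Topology Real
open UO LN

theorem p_U3 :
    S_U3 := by
  intro a q H G h N hN c B s B0 s0 hB hs
  have n2 : (2 : ℝ) ≤ N := by exact_mod_cast hN
  have n0 : (0 : ℝ) < N := by linarith
  have ni : 1 / (N : ℝ) ≤ 1 / 2 := one_div_le_one_div_of_le two_pos n2
  have ni0 : 0 < 1 / (N : ℝ) := by positivity
  set r := 1 - 1 / (N : ℝ) with hr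
  have r0 : 0 < r := by linarith
  have r1 : r < 1 := by linarith
  have dP := poly_diff N c
  have cP := dP.continuous
  have gd : DifferentiableOn ℂ (fun z => q z * poly N c z) (ball 0 1) :=
    h.qd.mul dP.differentiableOn
  have c1 := cauchy_bound r0 (gd.mono (closedBall_subset_ball r1)) N
  set K := (2 * N : ℝ) ^ a with hK
  have hq : ∀ z : ℂ, ‖z‖ = r → ‖q z‖ ≤ K := fun z hz => by
    refine (h.norm_le (hz ▸ r1)).trans (rpow_le_rpow (by rw [hz]; apply div_nonneg <;> linarith) ?_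
      h.a0.le)
    rw [hz, hr, sub_sub_cancel, div_le_iff₀ ni0]
    have : 2 * (N : ℝ) * (1 / N) = 2 := by field_simp
    linarith
  have sp : sphere (0 : ℂ) r ⊆ ball 0 1 := sphere_subset_ball r1
  have cq : ContinuousOn (fun z => (q z).re) (sphere 0 r) :=
    Complex.continuous_re.comp_continuousOn (h.qd.continuousOn.mono sp)
  have cq2 : ContinuousOn (fun z => (q z * q z).re) (sphere 0 r) :=
    Complex.continuous_re.comp_continuousOn ((h.qd.mul h.qd).continuousOn.mono sp)
  set t := B / s with ht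
  have t0 : 0 < t := by positivity
  have c2 : circleAverage (fun z => ‖q z * poly N c z‖) 0 r ≤ circleAverage (fun z =>
      (t * K) • (q z).re - (t / 2) • (q z * q z).re + (1 / t / 2) • ‖poly N c z‖ ^ 2) 0 r := by
    refine circleAverage_mono ((gd.continuousOn.mono sp).norm.circleIntegrable r0.le)
      (ContinuousOn.circleIntegrable r0.le (by fun_prop)) fun z hz => ?_
    rw [abs_of_pos r0, mem_sphere_zero_iff_norm] at hz
    have zb : z ∈ ball (0 : ℂ) 1 := mem_ball_zero_iff.2 (hz ▸ r1)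
    have b1 := h.re z zb
    have b2 := (Complex.re_le_norm (q z)).trans (hq z hz)
    have b3 : ‖q z‖ ^ 2 ≤ 2 * K * (q z).re - (q z * q z).re := by
      rw [Complex.sq_norm, Complex.normSq_apply, Complex.mul_re]
      nlinarith
    have k2 : t / 2 * ‖q z‖ ^ 2 + 1 / t / 2 * ‖poly N c z‖ ^ 2 - ‖q z‖ * ‖poly N c z‖
        = 1 / t / 2 * (t * ‖q z‖ - ‖poly N c z‖) ^ 2 := by
      field_simp
      ring
    have k3 : 0 ≤ 1 / t / 2 * (t * ‖q z‖ - ‖poly N c z‖) ^ 2 := by positivity
    simp only [smul_eq_mul, norm_mul]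
    nlinarith [mul_le_mul_of_nonneg_left b3 t0.le]
  rw [circleAverage_fun_add (ContinuousOn.circleIntegrable r0.le (by fun_prop))
    (ContinuousOn.circleIntegrable r0.le (by fun_prop)), circleAverage_fun_sub
    (ContinuousOn.circleIntegrable r0.le (by fun_prop))
    (ContinuousOn.circleIntegrable r0.le (by fun_prop)),
    circleAverage_fun_smul, circleAverage_fun_smul, circleAverage_fun_smul, mean_re h.qd r0 r1,
    mean_re (h.qd.fun_mul h.qd) r0 r1] at c2
  have rc : (r : ℂ) ≠ 0 := by exact_mod_cast r0.ne'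
  have p1 := parseval (fun j => c j * (r : ℂ) ^ j) N r0
  have p2 : (fun z : ℂ => ‖∑ j ∈ range N, c j * (r : ℂ) ^ j / (r : ℂ) ^ j * z ^ j‖ ^ 2) =
      fun z => ‖poly N c z‖ ^ 2 := by
    funext z
    rw [poly]
    congr 2
    exact sum_congr rfl fun j _ => by rw [mul_div_cancel_right₀ _ (pow_ne_zero j rc)]
  have p3 : ∑ j ∈ range N, ‖c j * (r : ℂ) ^ j‖ ^ 2 ≤ N * B ^ 2 := by
    refine (sum_le_sum (g := fun _ => B ^ 2) fun j hj => ?_).trans (by simp)
    refine pow_le_pow_left₀ (norm_nonneg _) ?_ 2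
    rw [norm_mul, norm_pow, Complex.norm_real, Real.norm_of_nonneg r0.le]
    exact (mul_le_of_le_one_right (norm_nonneg _) (pow_le_one₀ r0.le r1.le)).trans
      (hB j (mem_range.1 hj))
  rw [p2] at p1
  simp only [h.q0, mul_one, Complex.one_re, smul_eq_mul, p1] at c2
  have c5 : K ≤ 2 * (N * (N : ℝ) ^ (-(1 - a))) := by
    rw [hK, mul_rpow two_pos.le n0.le, ← rpow_one_add' n0.le (by linarith [h.a0]),
      show 1 + -(1 - a) = a by ring]
    apply mul_le_mul_of_nonneg_right _ (by positivity)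
    simpa using rpow_le_rpow_of_exponent_le (x := 2) (by norm_num) h.a1.le
  have c6 : 1 / 6 ≤ r ^ N := rad_pow hN
  have d1 : t * K ≤ N * B * s / 2 := by
    have : K ≤ N * s ^ 2 / 2 := by nlinarith [mul_le_mul_of_nonneg_left hs n0.le]
    refine (mul_le_mul_of_nonneg_left this t0.le).trans (le_of_eq ?_)
    rw [ht]
    field_simp
  have d2 : 1 / t / 2 * ∑ j ∈ range N, ‖c j * (r : ℂ) ^ j‖ ^ 2 ≤ N * B * s / 2 := by
    refine (mul_le_mul_of_nonneg_left p3 (by positivity)).trans (le_of_eq ?_)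
    rw [ht]
    field_simp
  nlinarith [mul_le_mul_of_nonneg_left c6
    (norm_nonneg (coeff N (tay fun z => q z * poly N c z)))]

end Pool.Agent.P.MP_bdc337_an.SO
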