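import Pool.Agent.P.MP_bdc337_an.SO.Iface

/-! Step U4. -/

set_option autoImplicit false

namespace Pool.Agent.P.MP_bdc337_an.SO

open Finset PowerSeries Metric Filter Topology Real
open UO LN

lemma u4_phi {a : ℝ} (a0 : 0 < a) (a1 : a < 1) {x : ℂ} (hr : 0 < x.re)
    (hx : |Complex.arg x| < a * π / 2) :
    0 ≤ (Complex.exp (Complex.log x / a)).re ∧
      phi a x ≤ (Complex.exp (Complex.log x / a)).re ^ a := by
  have x0 : 0 < ‖x‖ := norm_pos_iff.2 fun e => by simp [e] at hr
  obtain ⟨l1, l2⟩ := abs_lt.1 hx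
  have c0 : 0 < cos (Complex.arg x / a) := by
    apply cos_pos_of_mem_Ioo
    constructor
    · rw [lt_div_iff₀ a0]
      linarith
    · rw [div_lt_iff₀ a0]
      linarith
  have e : (Complex.exp (Complex.log x / a)).re = exp (log ‖x‖ / a) * cos (Complex.arg x / a) := by
    rw [Complex.exp_re, Complex.div_ofReal_re, Complex.div_ofReal_im, Complex.log_re,
      Complex.log_im]
  rw [e]
  refine ⟨by positivity, ?_⟩
  rw [mul_rpow (exp_pos _).le c0.le, ← exp_mul, div_mul_cancel₀ _ a0.ne', exp_log x0, phi]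
  refine mul_le_mul_of_nonneg_left ?_ x0.le
  simpa using rpow_le_rpow_of_exponent_ge c0 (cos_le_one _) a1.le

theorem p_U4 :
    S_U4 := by
  intro a q H G h N hN r lam r0 r1 l0
  have a0 := h.a0
  have a1 := h.a1
  have e0 : 0 < 1 - a := by linarith
  have gd : DifferentiableOn ℂ (fun z => m1 N q z * Complex.exp (G z)) (ball 0 1) :=
    (poly_diff _ _).differentiableOn.mul h.Gdiff.cexp
  have c1 := cauchy_bound r0 (gd.mono (closedBall_subset_ball r1)) N
  have Pd : DifferentiableOn ℂ (fun z => Complex.exp (Complex.log (m0 N q z) / a)) (ball 0 1) :=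
    (((poly_diff _ _).differentiableOn.clog fun z hz =>
      Or.inl (loc0 h hN (mem_ball_zero_iff.1 hz)).1).div_const _).cexp
  have sp : sphere (0 : ℂ) r ⊆ ball 0 1 := sphere_subset_ball r1
  have cP : ContinuousOn (fun z => (Complex.exp (Complex.log (m0 N q z) / a)).re) (sphere 0 r) :=
    Complex.continuous_re.comp_continuousOn (Pd.continuousOn.mono sp)
  have cG : ContinuousOn (fun z => (G z).re) (sphere 0 r) :=
    Complex.continuous_re.comp_continuousOn (h.Gdiff.continuousOn.mono sp)
  have cV : ContinuousOn (fun z => exp (((G z).re - log lam) / (1 - a))) (sphere 0 r) :=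
    ((cG.sub continuousOn_const).div_const _).rexp
  have i1 : ContinuousOn (fun z => (2 * lam) • (Complex.exp (Complex.log (m0 N q z) / a)).re)
      (sphere 0 r) := cP.const_smul (2 * lam)
  have i2 : ContinuousOn (fun z => (2 * lam * (1 - a)) • exp (((G z).re - log lam) / (1 - a)))
      (sphere 0 r) := cV.const_smul (2 * lam * (1 - a))
  have i3 : ContinuousOn (fun z => (2 * lam) • (Complex.exp (Complex.log (m0 N q z) / a)).re +
      (2 * lam * (1 - a)) • exp (((G z).re - log lam) / (1 - a))) (sphere 0 r) := i1.add i2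
  have c2 : circleAverage (fun z => ‖m1 N q z * Complex.exp (G z)‖) 0 r ≤ circleAverage (fun z =>
      (2 * lam) • (Complex.exp (Complex.log (m0 N q z) / a)).re +
        (2 * lam * (1 - a)) • exp (((G z).re - log lam) / (1 - a))) 0 r := by
    refine circleAverage_mono ((gd.continuousOn.mono sp).norm.circleIntegrable r0.le)
      (i3.circleIntegrable r0.le) fun z hz => ?_
    rw [abs_of_pos r0, mem_sphere_zero_iff_norm] at hz
    have z1 : ‖z‖ < 1 := hz ▸ r1
    obtain ⟨b1, b2⟩ := u4_phi a0 a1 (loc0 h hN z1).1 (loc0 h hN z1).2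
    have b3 := loc1 h hN z1
    have b4 := phi_nonneg a0 (loc0 h hN z1).2
    set u := (Complex.exp (Complex.log (m0 N q z) / a)).re
    set v := exp (((G z).re - log lam) / (1 - a)) with hv
    have b5 := geom_mean_le_arith_mean2_weighted a0.le e0.le b1 (exp_pos _).le
      (show a + (1 - a) = 1 by ring) (p₂ := v)
    have b6 : exp (G z).re = lam * v ^ (1 - a) := by
      rw [hv, ← exp_mul, div_mul_cancel₀ _ e0.ne', exp_sub, exp_log l0]
      field_simp
    have v0 : 0 ≤ v ^ (1 - a) := by positivity
    have b7 : ‖m1 N q z‖ ≤ 2 * u ^ a := by nlinarith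
    simp only [smul_eq_mul, norm_mul, Complex.norm_exp, b6]
    calc ‖m1 N q z‖ * (lam * v ^ (1 - a)) ≤ 2 * u ^ a * (lam * v ^ (1 - a)) := by gcongr
      _ = 2 * lam * (u ^ a * v ^ (1 - a)) := by ring
      _ ≤ 2 * lam * (u + (1 - a) * v) := by
          apply mul_le_mul_of_nonneg_left _ (by positivity)
          nlinarith
      _ = _ := by ring
  rw [circleAverage_fun_add (i1.circleIntegrable r0.le)
    (i2.circleIntegrable r0.le), circleAverage_fun_smul,
    circleAverage_fun_smul, mean_re Pd r0 r1, m0_eq h.q0 hN,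
    poly_zero (by rw [ct, map_sub, coeff_zero_tay, h.q0]; simp)] at c2
  simp only [add_zero, Complex.log_one, zero_div, Complex.exp_zero, Complex.one_re, smul_eq_mul,
    mul_one] at c2
  linarith

end Pool.Agent.P.MP_bdc337_an.SO
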