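import Pool.Agent.P.MP_bdc337_an.SO.Iface

/-! Step U5. -/

set_option autoImplicit false

namespace Pool.Agent.P.MP_bdc337_an.SO

open Finset PowerSeries Metric Filter Topology Real
open UO LN

lemma u5_mono {a : ℝ} {q H G : ℂ → ℂ} (h : Dat a q H G) {x : ℂ} (hx : ‖x‖ = 1) {s t : ℝ}
    (s0 : 0 < s) (hst : s ≤ t) (t1 : t < 1) :
    (G (s * x)).re + log s ≤ (G (t * x)).re + log t := by
  refine mono_of_deriv (f := fun t : ℝ => (G (t * x)).re + log t)
    (f' := fun t => ((q (t * x)).re - 1) / t + t⁻¹) hst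
    ((h.ray_cont hx s0.le t1).add
      fun y hy => (Real.continuousAt_log (s0.trans_le hy.1).ne').continuousWithinAt)
    (fun y hy => (h.ray hx (s0.trans hy.1) (hy.2.trans t1)).add
      (Real.hasDerivAt_log (s0.trans hy.1).ne')) (fun y hy => ?_)
  have y0 := s0.trans hy.1
  have hn : (y * x : ℂ) ∈ ball (0 : ℂ) 1 := by
    rw [mem_ball_zero_iff, norm_mul, hx, Complex.norm_real, Real.norm_of_nonneg y0.le]
    linarith [hy.2]
  have e : ((q (y * x)).re - 1) / y + y⁻¹ = (q (y * x)).re / y := by
    field_simp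
    ring
  rw [e]
  exact (div_pos (h.re _ hn) y0).le

lemma u5_step {P : ℕ → Prop} (h0 : P 0) {I : ℕ} (hI : ¬P I) : ∃ i, i < I ∧ P i ∧ ¬P (i + 1) := by
  induction I with
  | zero => exact absurd h0 hI
  | succ I ih =>
    by_cases hp : P I
    · exact ⟨I, Nat.lt_succ_self I, hp, hI⟩
    · obtain ⟨i, h1, h2⟩ := ih hp
      exact ⟨i, h1.trans (Nat.lt_succ_self I), h2⟩

lemma u5_log {r d : ℝ} (r0 : 0 < r) (r1 : r < 1) (d0 : 0 < d) (d1 : d ≤ 1 / 2) :
    log r - log (1 - d) ≤ 2 * d := by
  have p : 0 < 1 - d := by linarith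
  have e1 : log r ≤ 0 := Real.log_nonpos r0.le r1.le
  have e2 := Real.one_sub_inv_le_log_of_pos p
  have e3 : (1 - d)⁻¹ ≤ 1 + 2 * d := by
    rw [inv_le_iff_one_le_mul₀ p]
    nlinarith
  linarith

theorem p_U5 :
    S_U5 := by
  intro a q H G h r η w l I d Λ r0 r1 η0 w0 hd0 hd hΛ hw hl
  have e0 : 0 < 1 - a := by linarith [h.a1]
  have dpos : ∀ i, i ≤ I → 0 < d i := fun i hi => by linarith [(hd i hi).1]
  set c : ℕ → ℝ := fun i => w / η / d (i + 1) with hc
  set g : ℂ → ℂ := fun z => 1 + ∑ i ∈ range I, (c i : ℂ) * (G z -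
    G ((((1 - d (i + 1)) / r : ℝ) : ℂ) * z) + ((log r - log (1 - d (i + 1)) : ℝ) : ℂ)) with hg
  have gre : ∀ z, (g z).re = 1 + ∑ i ∈ range I, c i * ((G z).re -
      (G ((((1 - d (i + 1)) / r : ℝ) : ℂ) * z)).re + (log r - log (1 - d (i + 1)))) := by
    intro z
    simp only [hg, Complex.add_re, Complex.one_re, Complex.re_sum, Complex.re_ofReal_mul,
      Complex.sub_re, Complex.ofReal_re]
  have gd : DifferentiableOn ℂ g (ball 0 1) := by
    refine DifferentiableOn.const_add _ (DifferentiableOn.fun_sum fun i hi => ?_)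
    have hi' := hd (i + 1) (mem_range.1 hi)
    refine DifferentiableOn.const_mul (DifferentiableOn.add_const _ (h.Gdiff.sub ?_)) _
    refine h.Gdiff.comp (by fun_prop) fun z hz => ?_
    have k0 : 0 ≤ (1 - d (i + 1)) / r := div_nonneg (by linarith [hi'.2]) r0.le
    have k1 : (1 - d (i + 1)) / r ≤ 1 := by
      rw [div_le_one r0]
      linarith [hi'.1]
    rw [mem_ball_zero_iff] at hz ⊢
    rw [norm_mul, Complex.norm_real, Real.norm_of_nonneg k0]
    exact (mul_le_of_le_one_left (norm_nonneg z) k1).trans_lt hz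
  have sub : sphere (0 : ℂ) |r| ⊆ ball 0 1 := (sph r0).trans (closedBall_subset_ball r1)
  have c0 : ∀ i, i < I → 0 ≤ c i := fun i hi =>
    div_nonneg (div_nonneg w0 η0.le) (dpos (i + 1) hi).le
  have key : circleAverage (fun z => exp (((G z).re - l) / (1 - a))) 0 r ≤
      circleAverage (fun z => (g z).re) 0 r := by
    apply circleAverage_mono
    · apply ContinuousOn.circleIntegrable'
      exact (((Complex.continuous_re.comp_continuousOn
        (h.Gdiff.continuousOn.mono sub)).sub continuousOn_const).div_const _).rexp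
    · apply ContinuousOn.circleIntegrable'
      exact Complex.continuous_re.comp_continuousOn (gd.continuousOn.mono sub)
    intro z hz
    have zr : ‖z‖ = r := by simpa [abs_of_pos r0] using hz
    have rc : (r : ℂ) ≠ 0 := by exact_mod_cast r0.ne'
    set x : ℂ := z / r with hx
    have x1 : ‖x‖ = 1 := by
      rw [hx, norm_div, zr, Complex.norm_real, Real.norm_of_nonneg r0.le, div_self r0.ne']
    have ez : (r : ℂ) * x = z := by
      rw [hx]
      field_simp
    have es : ∀ s : ℝ, ((s / r : ℝ) : ℂ) * z = s * x := by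
      intro s
      rw [hx]
      push_cast
      ring
    set X : ℕ → ℝ := fun i => (G z).re -
      (G ((((1 - d (i + 1)) / r : ℝ) : ℂ) * z)).re + (log r - log (1 - d (i + 1))) with hX
    have X0 : ∀ i, i < I → 0 ≤ X i := by
      intro i hi
      have hi' := hd (i + 1) hi
      have := u5_mono h x1 (s := 1 - d (i + 1)) (t := r) (by linarith [hi'.2])
        (by linarith [hi'.1]) r1
      rw [ez] at this
      simp only [hX, es]
      linarith
    have nn : ∀ i ∈ range I, 0 ≤ c i * X i := fun i hi =>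
      mul_nonneg (c0 i (mem_range.1 hi)) (X0 i (mem_range.1 hi))
    rw [gre]
    change _ ≤ 1 + ∑ i ∈ range I, c i * X i
    by_cases hT : (G z).re ≤ Λ I + η
    · have : exp (((G z).re - l) / (1 - a)) ≤ 1 :=
        exp_le_one_iff.2 (div_nonpos_of_nonpos_of_nonneg (by linarith) e0.le)
      linarith [sum_nonneg nn]
    · have T0 : (G z).re ≤ Λ 0 + η := by
        have := hΛ 0 (Nat.zero_le I) x x1
        rw [hd0, sub_sub_cancel, ez] at this
        linarith
      obtain ⟨i, hi, T1, T2⟩ := u5_step (P := fun i => (G z).re ≤ Λ i + η) T0 hT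
      have hi' := hd (i + 1) hi
      have di := dpos (i + 1) hi
      have X1 : η ≤ X i := by
        have k1 := hΛ (i + 1) hi x x1
        have k2 : log (1 - d (i + 1)) ≤ log r :=
          Real.log_le_log (by linarith [hi'.2]) (by linarith [hi'.1])
        simp only [hX, es]
        linarith [not_le.1 T2]
      have v1 : exp (((G z).re - l) / (1 - a)) ≤ w / d (i + 1) :=
        (exp_le_exp.2 (div_le_div_of_nonneg_right (by linarith) e0.le)).trans (hw i hi)
      have v2 : w / d (i + 1) = c i * η := by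
        simp only [hc]
        field_simp
      have v3 := mul_le_mul_of_nonneg_left X1 (c0 i hi)
      have v4 := single_le_sum nn (mem_range.2 hi)
      linarith
  rw [mean_re gd r0 r1, gre] at key
  refine key.trans ?_
  have : ∑ i ∈ range I, c i * ((G 0).re - (G ((((1 - d (i + 1)) / r : ℝ) : ℂ) * 0)).re +
      (log r - log (1 - d (i + 1)))) ≤ ∑ _i ∈ range I, 2 * w / η := by
    refine sum_le_sum fun i hi => ?_
    have hi' := mem_range.1 hi
    have di := dpos (i + 1) hi'
    have k := mul_le_mul_of_nonneg_left (u5_log r0 r1 di (hd (i + 1) hi').2) (c0 i hi')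
    have e : c i * (2 * d (i + 1)) = 2 * w / η := by
      simp only [hc]
      field_simp
    rw [mul_zero, sub_self, zero_add]
    linarith
  rw [sum_const, card_range, nsmul_eq_mul] at this
  have e : (I : ℝ) * (2 * w / η) = 2 * I * w / η := by ring
  linarith

end Pool.Agent.P.MP_bdc337_an.SO
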