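import Pool.Agent.P.MP_bdc337_an.SO.Iface

/-! Step U6. -/

set_option autoImplicit false

namespace Pool.Agent.P.MP_bdc337_an.SO

open Finset PowerSeries Metric Filter Topology Real
open UO LN

theorem u6_y0_le {e η : ℝ} {N : ℕ} (he : 0 < e) (hη : 0 < η) (hη1 : η ≤ 1 / 10) (hN : 1 ≤ N) :
    (η / (2 * N)) ^ e ≤ ((N + 1 : ℕ) : ℝ) ^ (-e) := by
  have hN' : (1 : ℝ) ≤ N := by exact_mod_cast hN
  have h1 : (0 : ℝ) < ((N + 1 : ℕ) : ℝ) := by positivity
  rw [Real.rpow_neg h1.le, ← Real.inv_rpow h1.le]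
  apply Real.rpow_le_rpow (by positivity) _ he.le
  rw [inv_eq_one_div, div_le_div_iff₀ (by positivity) h1]
  push_cast
  nlinarith

theorem u6_y0_ge {e η : ℝ} {N : ℕ} (he : 0 < e) (hη : 0 < η) (hη1 : η ≤ 1 / 10) (hN : 1 ≤ N)
    (hν : ((N + 1 : ℕ) : ℝ) ^ (-e) ≤ η ^ 4) :
    ((N + 1 : ℕ) : ℝ) ^ (-e) - e * η / 2 ≤ (η / (2 * N)) ^ e := by
  have hN' : (1 : ℝ) ≤ N := by exact_mod_cast hN
  have h1 : (0 : ℝ) < ((N + 1 : ℕ) : ℝ) := by positivity
  have hν0 : 0 < ((N + 1 : ℕ) : ℝ) ^ (-e) := Real.rpow_pos_of_pos h1 _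
  have h2 : (η / 2) ^ e * ((N + 1 : ℕ) : ℝ) ^ (-e) ≤ (η / (2 * N)) ^ e := by
    rw [Real.rpow_neg h1.le, ← Real.inv_rpow h1.le, ← Real.mul_rpow (by positivity) (by positivity)]
    apply Real.rpow_le_rpow (by positivity) _ he.le
    rw [← div_eq_mul_inv, div_div]
    apply div_le_div_of_nonneg_left hη.le (by positivity)
    push_cast
    linarith
  have h3 : 1 - e * (2 / η) ≤ (η / 2) ^ e := by
    rw [Real.rpow_def_of_pos (by positivity)]
    have h4 : 1 - (η / 2)⁻¹ ≤ Real.log (η / 2) := Real.one_sub_inv_le_log_of_pos (by positivity)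
    have h5 := Real.add_one_le_exp (Real.log (η / 2) * e)
    rw [inv_div] at h4
    nlinarith
  set ν := ((N + 1 : ℕ) : ℝ) ^ (-e) with hνdef
  have h6 : ν * (2 / η) ≤ η / 2 := by
    rw [mul_div_assoc', div_le_div_iff₀ hη (by norm_num)]
    have : η ^ 4 ≤ η ^ 2 / 4 := by
      have : η ^ 2 ≤ 1 / 4 := by nlinarith
      nlinarith [sq_nonneg η]
    nlinarith
  have h7 : (1 - e * (2 / η)) * ν ≤ (η / 2) ^ e * ν := mul_le_mul_of_nonneg_right h3 hν0.le
  have h8 : e * (ν * (2 / η)) ≤ e * (η / 2) := mul_le_mul_of_nonneg_left h6 he.le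
  nlinarith

theorem u6_log {e y : ℝ} (he : 0 < e) (he1 : e ≤ 1 / 1000) (hy : e / 2 ≤ y) :
    -(1 / (4 * e)) ≤ Real.log y := by
  have h1 : Real.log (e / 2) ≤ Real.log y := Real.log_le_log (by positivity) hy
  have h2 : Real.log (e / 2) = Real.log (8 * e) - Real.log 16 := by
    rw [← Real.log_div (by positivity) (by norm_num)]
    congr 1
    ring
  have h3 : 1 - (8 * e)⁻¹ ≤ Real.log (8 * e) := Real.one_sub_inv_le_log_of_pos (by positivity)
  have h4 : Real.log 16 ≤ 16 - 1 := Real.log_le_sub_one_of_pos (by norm_num)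
  have h5 : (1 : ℝ) / (4 * e) = 2 * (8 * e)⁻¹ := by field_simp; ring
  have h6 : (14 : ℝ) ≤ (8 * e)⁻¹ := by
    rw [le_inv_comm₀ (by norm_num) (by positivity)]
    linarith
  linarith

theorem u6_l {e η y : ℝ} (hy : 0 < y) :
    Real.log (exp (11 * η) * (y / 2 * exp (2 * (1 - y) / e)) / 2) =
      11 * η + Real.log y - 2 * Real.log 2 + 2 * (1 - y) / e := by
  rw [Real.log_div (by positivity) (by norm_num), Real.log_mul (by positivity) (by positivity),
    Real.log_mul (by positivity) (by positivity), Real.log_div (by positivity) (by norm_num),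
    Real.log_exp, Real.log_exp]
  ring

theorem u6_R3 (hR3 : S_R3) {e η ν t : ℝ} (he : 0 < e) (hη : 0 < η) (ht : 0 ≤ t)
    (h : ν - e * η / 2 ≤ t) :
    Real.log (t + e * η) - 2 * t / e ≤
      4 * η + Real.log (max ν (e / 2)) - 2 * max ν (e / 2) / e := by
  have h1 := hR3 e η ν t he hη ht h
  have hy : 0 < max ν (e / 2) := lt_max_of_lt_right (by positivity)
  have h2 := Real.log_le_log (by positivity) h1
  rw [Real.log_mul (by positivity) (by positivity), Real.log_mul (by positivity) (by positivity),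
    Real.log_mul (by positivity) (by positivity), Real.log_mul (by positivity) (by positivity),
    Real.log_exp, Real.log_exp, Real.log_exp] at h2
  have h3 : Real.log (1 + 3 * η) ≤ 1 + 3 * η - 1 := Real.log_le_sub_one_of_pos (by positivity)
  linarith

theorem u6_fin {e η I w : ℝ} (he : 0 < e) (hη : 0 < η) (hη1 : η ≤ 1 / 10) (he1 : e ≤ η ^ 4)
    (hI0 : 0 ≤ I) (hI : I * (e * η) ≤ 1 / 4 + e * η) (hw : w ≤ e / η) :
    e * (1 + 2 * I * w / η) ≤ 2 * η := by
  have h1 : 2 * I * w / η ≤ 2 * I * (e / η) / η := by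
    apply div_le_div_of_nonneg_right _ hη.le
    exact mul_le_mul_of_nonneg_left hw (by positivity)
  have h2 : 2 * I * (e / η) / η = 2 * (I * (e * η)) / η ^ 3 := by field_simp
  have h3 : η ^ 4 ≤ η / 1000 := by
    have : η ^ 3 ≤ (1 / 10) ^ 3 := pow_le_pow_left₀ hη.le hη1 3
    nlinarith
  have h4 : e * η ≤ 1 / 4 := by nlinarith
  have h5 : 2 * (I * (e * η)) / η ^ 3 ≤ 1 / η ^ 3 := by
    apply div_le_div_of_nonneg_right _ (by positivity)
    linarith
  have h6 : e * (1 / η ^ 3) ≤ η := by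
    rw [mul_one_div, div_le_iff₀ (by positivity)]
    nlinarith
  have h7 : e * (2 * I * w / η) ≤ e * (1 / η ^ 3) :=
    mul_le_mul_of_nonneg_left (by linarith) he.le
  nlinarith

theorem p_U6 (hR3 : S_R3) (hU1 : S_U1) (hU5 : S_U5) :
    S_U6 := by
  intro a q H G hD η N hη hη1 hN he1 hν
  have he : 0 < 1 - a := sub_pos.2 hD.a1
  have hN' : (1 : ℝ) ≤ N := by exact_mod_cast hN
  have hη4 : η ^ 4 ≤ η / 1000 := by
    have : η ^ 3 ≤ (1 / 10) ^ 3 := pow_le_pow_left₀ hη.le hη1 3
    nlinarith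
  have hU1' := hU1 a q H G hD
  have hU5' := hU5 a q H G hD
  have hy0le := u6_y0_le he hη hη1 hN
  have hy0ge := u6_y0_ge he hη hη1 hN hν
  unfold Psi yy
  generalize 1 - a = e at *
  set ν := ((N + 1 : ℕ) : ℝ) ^ (-e) with hνdef
  set y0 := (η / (2 * N)) ^ e with hy0def
  have hy0 : 0 < y0 := Real.rpow_pos_of_pos (by positivity) _
  have hy : 0 < max ν (e / 2) := lt_max_of_lt_right (by positivity)
  have hy8 : max ν (e / 2) ≤ 1 / 8 := max_le (by linarith) (by linarith)
  have heη : 0 < e * η := by positivity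
  have heη1 : e * η ≤ 1 / 8 := by nlinarith
  rw [u6_l hy]
  set I := ⌈1 / (4 * (e * η))⌉₊ with hI
  have hI1 : 1 / 4 ≤ (I : ℝ) * (e * η) := by
    have h := Nat.le_ceil (1 / (4 * (e * η)))
    rw [div_le_iff₀ (by positivity)] at h
    linarith
  have hI2 : (I : ℝ) * (e * η) ≤ 1 / 4 + e * η := by
    have h := (Nat.ceil_lt_add_one (a := 1 / (4 * (e * η))) (by positivity)).le
    have h2 := mul_le_mul_of_nonneg_right h heη.le
    have h3 : (1 / (4 * (e * η)) + 1) * (e * η) = 1 / 4 + e * η := by field_simp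
    linarith
  have hyi : ∀ i : ℕ, 0 < y0 + i * (e * η) := fun i => by positivity
  have hw : exp (-(η / e)) ≤ e / η := by
    rw [Real.exp_neg, ← inv_div η e]
    apply inv_anti₀ (by positivity)
    linarith [Real.add_one_le_exp (η / e)]
  have hd0 : 2 * y0 ^ (1 / e) = η / N := by
    rw [hy0def, one_div, Real.rpow_rpow_inv (by positivity) he.ne']
    field_simp
  have hdle : ∀ i : ℕ, i ≤ I → 2 * (y0 + i * (e * η)) ^ (1 / e) ≤ 1 / 2 := by
    intro i hi
    have h1 : (i : ℝ) ≤ I := by exact_mod_cast hi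
    have h2 : y0 + i * (e * η) ≤ 1 / 2 := by nlinarith
    have h3 : (y0 + i * (e * η)) ^ (1 / e) ≤ (1 / 2) ^ (1 / e) :=
      Real.rpow_le_rpow (hyi i).le h2 (by positivity)
    have h4 : ((1 : ℝ) / 2) ^ (1 / e) ≤ (1 / 2) ^ (2 : ℝ) := by
      apply Real.rpow_le_rpow_of_exponent_ge (by norm_num) (by norm_num)
      rw [le_div_iff₀ he]
      linarith
    have h5 : ((1 : ℝ) / 2) ^ (2 : ℝ) = 1 / 4 := by
      rw [Real.rpow_two]; norm_num
    linarith
  have key := hU5' (1 - η / N) η (exp (-(η / e)))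
    (11 * η + Real.log (max ν (e / 2)) - 2 * Real.log 2 + 2 * (1 - max ν (e / 2)) / e) I
    (fun i => 2 * (y0 + i * (e * η)) ^ (1 / e))
    (fun i => 2 * (1 - (y0 + i * (e * η))) / e - 2 * Real.log 2 + 4 * e)
    (by
      have : η / N ≤ η := div_le_self hη.le hN'
      linarith)
    (by
      have : 0 < η / N := by positivity
      linarith)
    hη (Real.exp_pos _).le
    (by
      simp only [Nat.cast_zero, zero_mul, add_zero]
      rw [hd0]; ring)
    (by
      intro i hi
      refine ⟨?_, hdle i hi⟩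
      have h1 : y0 ^ (1 / e) ≤ (y0 + i * (e * η)) ^ (1 / e) :=
        Real.rpow_le_rpow hy0.le (by
          have : 0 ≤ (i : ℝ) * (e * η) := by positivity
          linarith) (by positivity)
      linarith)
    (by
      intro i hi x hx
      have hp : 0 < (y0 + i * (e * η)) ^ (1 / e) := Real.rpow_pos_of_pos (hyi i) _
      have h1 := hU1' x hx (1 - 2 * (y0 + i * (e * η)) ^ (1 / e))
        (by linarith [hdle i hi]) (by linarith)
      have h2 : (1 - (1 - 2 * (y0 + i * (e * η)) ^ (1 / e))) / 2 =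
          (y0 + i * (e * η)) ^ (1 / e) := by ring
      rw [h2] at h1
      unfold Lf at h1
      rw [one_div, Real.rpow_inv_rpow (hyi i).le he.ne'] at h1
      rw [one_div]
      exact h1)
    (by
      intro i hi
      have hp : 0 < (y0 + ((i + 1 : ℕ) : ℝ) * (e * η)) ^ (1 / e) := Real.rpow_pos_of_pos (hyi _) _
      rw [le_div_iff₀ (by positivity), Real.rpow_def_of_pos (hyi _)]
      have h2 : (2 : ℝ) = exp (Real.log 2) := (Real.exp_log (by norm_num)).symm
      have h3 := u6_R3 hR3 (ν := ν) (t := y0 + i * (e * η)) he hη (hyi i).le (by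
        have : 0 ≤ (i : ℝ) * (e * η) := by positivity
        linarith)
      have h4 : y0 + ((i + 1 : ℕ) : ℝ) * (e * η) = y0 + i * (e * η) + e * η := by
        push_cast; ring
      rw [h4]
      have h5 : Real.log 2 ≤ 2 - 1 := Real.log_le_sub_one_of_pos (by norm_num)
      have h6 : e * Real.log 2 ≤ e := by nlinarith
      generalize Real.log (y0 + i * (e * η) + e * η) = L at h3 ⊢
      have h7 : ∀ A B : ℝ, exp A * (2 * exp B) = exp (A + Real.log 2 + B) := by
        intro A B
        rw [Real.exp_add, Real.exp_add, Real.exp_log (by norm_num)]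
        ring
      rw [h7]
      apply Real.exp_le_exp.2
      generalize y0 + i * (e * η) = t at h3 ⊢
      generalize max ν (e / 2) = y at h3 ⊢
      have h8 : ∀ X : ℝ, X / e + Real.log 2 + L * (1 / e) = (X + e * Real.log 2 + L) / e := by
        intro X; field_simp
      rw [h8, ← neg_div]
      apply div_le_div_of_nonneg_right _ he.le
      have h9 : 2 * (1 - t) / e = 2 / e - 2 * t / e := by ring
      have h10 : 2 * (1 - y) / e = 2 / e - 2 * y / e := by ring
      rw [h9, h10]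
      linarith)
    (by
      have h1 := u6_log (e := e) he (by linarith) (le_max_right ν (e / 2))
      generalize max ν (e / 2) = y at h1 hy8 ⊢
      have h2 : 2 * (1 - (y0 + I * (e * η))) / e + 1 / (4 * e) ≤ 2 * (1 - y) / e := by
        have h3 : 1 / (4 * e) = (1 / 4) / e := by field_simp
        rw [h3, ← add_div]
        apply div_le_div_of_nonneg_right _ he.le
        linarith
      linarith)
  refine (mul_le_mul_of_nonneg_left key he.le).trans ?_
  exact u6_fin he hη hη1 he1 (Nat.cast_nonneg I) hI2 hw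

end Pool.Agent.P.MP_bdc337_an.SO
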