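import Pool.Agent.P.MP_bdc337_an.SO.Iface

/-! Step UP. -/

set_option autoImplicit false

namespace Pool.Agent.P.MP_bdc337_an.SO

open Finset PowerSeries Metric Filter Topology Real
open UO LN

lemma up_big {e s : ℝ} {n : ℕ} (e1 : e ≤ 1) (hn : 1 ≤ n) (h : (n : ℝ) ^ (-e) ≤ s) :
    1 ≤ n * s := by
  have n1 : (1 : ℝ) ≤ n := by exact_mod_cast hn
  have k : (n : ℝ) ^ (-1 : ℝ) ≤ (n : ℝ) ^ (-e) := rpow_le_rpow_of_exponent_le n1 (by linarith)
  rw [rpow_neg_one] at k
  have := mul_le_mul_of_nonneg_left (k.trans h) (by linarith : (0 : ℝ) ≤ n)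
  rwa [mul_inv_cancel₀ (by linarith)] at this

lemma Psi_pos {e : ℝ} (e0 : 0 < e) (n : ℕ) : 0 < Psi e n := by
  have : 0 < yy e n := lt_of_lt_of_le (by linarith) (le_max_right _ _)
  unfold Psi
  positivity

lemma up_coeff {a : ℝ} {q H G : ℂ → ℂ} (h : Dat a q H G) (N : ℕ) :
    coeff (N + 1) (tay fun z => z * Complex.exp (G z)) = coeff N (FF G) := by
  rw [tay_mul (f := fun z => z) analyticAt_id
    (h.Gdiff.cexp.analyticAt (ball_mem_nhds 0 one_pos)), tay_id, coeff_succ_X_mul, FF]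

theorem p_UP (hR4 : S_R4) (hU2 : S_U2) (hU3 : S_U3) (hU4 : S_U4) (hU6 : S_U6) :
    S_UP := by
  intro a q H G h η N η0 η1 hN he hν
  have e0 : 0 < 1 - a := by linarith [h.a1]
  have e1 : 1 - a ≤ 1 := by linarith [h.a0]
  have big := up_big e1 (by omega : 1 ≤ N + 1) hν
  have η3 : η ^ 3 ≤ (1 / 10) ^ 3 := pow_le_pow_left₀ η0.le η1 3
  have η4 : η ^ 4 ≤ η / 1000 := by nlinarith
  have N0 : (0 : ℝ) < N := by exact_mod_cast hN
  have N1 : (1 : ℝ) ≤ N := by exact_mod_cast hN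
  have big2 : 1 ≤ N * η := by
    push_cast at big
    nlinarith
  have N2 : 2 ≤ N := by
    have : (2 : ℝ) ≤ N := by nlinarith
    exact_mod_cast this
  have P0 := Psi_pos e0 (N + 1)
  have hB : ∀ j, j < N → ‖(j : ℂ) * coeff j (FF G)‖ ≤ 504 * Psi (1 - a) (N + 1) := by
    intro j hj
    rcases Nat.eq_zero_or_pos j with rfl | j0
    · simp only [Nat.cast_zero, zero_mul, norm_zero]
      positivity
    have u := h.upper (n := j + 1) (by omega)
    have jp : (0 : ℝ) < ((j + 1 : ℕ) : ℝ) := by positivity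
    rw [up_coeff h, Lf_inv _ jp.le, div_mul_eq_mul_div, div_mul_eq_mul_div, le_div_iff₀ jp] at u
    have r := hR4 (1 - a) (((N + 1 : ℕ) : ℝ) ^ (-(1 - a))) (((j + 1 : ℕ) : ℝ) ^ (-(1 - a))) e0
      (by positivity) (rpow_le_rpow_of_nonpos jp (by exact_mod_cast (by omega : j + 1 ≤ N + 1))
        (by linarith))
    rw [norm_mul, Complex.norm_natCast]
    have j1 : (j : ℝ) ≤ ((j + 1 : ℕ) : ℝ) := by exact_mod_cast Nat.le_succ j
    have := mul_le_mul_of_nonneg_right j1 (norm_nonneg (coeff j (FF G)))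
    unfold Psi yy
    linarith
  have hs : 4 * (N : ℝ) ^ (-(1 - a)) ≤ (3 * η ^ 2) ^ 2 := by
    have k1 : (N : ℝ) ^ (-(1 - a)) ≤ (((N + 1 : ℕ) : ℝ) / 2) ^ (-(1 - a)) :=
      rpow_le_rpow_of_nonpos (by positivity) (by push_cast; linarith) (by linarith)
    rw [div_rpow (by positivity) two_pos.le, rpow_neg two_pos.le, div_inv_eq_mul] at k1
    have k2 : (2 : ℝ) ^ (1 - a) ≤ 2 := by
      simpa using rpow_le_rpow_of_exponent_le (x := 2) (by norm_num) e1
    have k3 := mul_le_mul hν k2 (by positivity) (by positivity)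
    nlinarith [pow_pos η0 4]
  have u3 := hU3 a q H G h N N2 _ _ (3 * η ^ 2) (by positivity) (by positivity) hB hs
  have r0 : 0 < 1 - η / N := by
    rw [sub_pos, div_lt_one N0]
    linarith
  have r1 : 1 - η / N < 1 := by linarith [div_pos η0 N0]
  have u4 := hU4 a q H G h N hN (1 - η / N) (exp (11 * η) * Psi (1 - a) (N + 1) / 2) r0 r1
    (by positivity)
  have u6 := hU6 a q H G h η N η0 η1 hN he hν
  have bern : 1 - η ≤ (1 - η / N) ^ N := by
    have := one_add_mul_le_pow (a := -(η / N)) (by linarith) N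
    rw [mul_neg, mul_div_cancel₀ _ N0.ne'] at this
    exact this
  have u2 := congrArg norm (hU2 a q H G h N hN)
  rw [norm_mul, Complex.norm_natCast] at u2
  set M := ‖coeff N (tay fun z => m1 N q z * Complex.exp (G z))‖
  have M0 : 0 ≤ M := norm_nonneg _
  have k1 : M ≤ exp (11 * η) * (1 + 2 * η) / (1 - η) * Psi (1 - a) (N + 1) := by
    rw [div_mul_eq_mul_div, le_div_iff₀ (by linarith)]
    have := mul_le_mul_of_nonneg_left u6
      (by positivity : 0 ≤ exp (11 * η) * Psi (1 - a) (N + 1))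
    nlinarith [mul_le_mul_of_nonneg_left bern M0]
  have k2 : N * ‖coeff N (FF G)‖ ≤ M + 9072 * η ^ 2 * Psi (1 - a) (N + 1) := by
    rw [u2]
    refine (norm_add_le _ _).trans (add_le_add le_rfl ?_)
    rw [norm_mul, norm_div, norm_one, Complex.norm_natCast, one_div, inv_mul_le_iff₀ N0]
    linarith
  have k3 : ((N + 1 : ℕ) : ℝ) ≤ (1 + η) * N := by
    push_cast
    linarith
  calc ((N + 1 : ℕ) : ℝ) * ‖coeff N (FF G)‖ ≤ (1 + η) * N * ‖coeff N (FF G)‖ := by gcongr
    _ = (1 + η) * (N * ‖coeff N (FF G)‖) := by ring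
    _ ≤ (1 + η) * (exp (11 * η) * (1 + 2 * η) / (1 - η) * Psi (1 - a) (N + 1) +
        9072 * η ^ 2 * Psi (1 - a) (N + 1)) := by
        apply mul_le_mul_of_nonneg_left _ (by linarith)
        linarith
    _ = _ := by unfold uf; ring

end Pool.Agent.P.MP_bdc337_an.SO
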