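import Pool.Agent.P.MP_bdc337_an.SO.TR4
import Pool.Agent.P.MP_bdc337_an.SO.TU1
import Pool.Agent.P.MP_bdc337_an.SO.TU2
import Pool.Agent.P.MP_bdc337_an.SO.TU3
import Pool.Agent.P.MP_bdc337_an.SO.TU4
import Pool.Agent.P.MP_bdc337_an.SO.TU5
import Pool.Agent.P.MP_bdc337_an.SO.TU6
import Pool.Agent.P.MP_bdc337_an.SO.TUP
import Pool.Agent.P.MP_bdc337_an.SO.Low

/-! Assembly. -/

set_option autoImplicit false

namespace Pool.Agent.P.MP_bdc337_an.SO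

open Finset PowerSeries Metric Filter Topology Real
open UO LN

theorem all_UP : S_UP := p_UP p_R4 p_U2 p_U3 p_U4 (p_U6 p_R3 p_U1 p_U5)

/-- both bounds with the factor `c` -/
def Both (c a : ℝ) (n : ℕ) : Prop :=
  (∃ q H G : ℂ → ℂ, Dat a q H G ∧
    a * Psi (1 - a) n / n / c ≤ ‖coeff n (tay fun z => z * Complex.exp (G z))‖) ∧
  ∀ f : ℂ → ℂ, DifferentiableOn ℂ f (ball 0 1) → Set.InjOn f (ball 0 1) → f 0 = 0 →
    deriv f 0 = 1 →
    (∀ z ∈ ball (0 : ℂ) 1, z ≠ 0 → |Complex.arg (z * deriv f z / f z)| < a * π / 2) →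
    ‖coeff n (tay f)‖ ≤ c * (a * Psi (1 - a) n / n)

lemma Both.mono {c c' a : ℝ} {n : ℕ} (h : Both c a n) (h0 : 0 < a) (h1 : a < 1) (c0 : 0 < c)
    (hc : c ≤ c') : Both c' a n := by
  have P0 := Psi_pos (show 0 < 1 - a by linarith) n
  obtain ⟨⟨q, H, G, hD, hl⟩, hu⟩ := h
  refine ⟨⟨q, H, G, hD, le_trans ?_ hl⟩, fun f a1 a2 a3 a4 a5 => (hu f a1 a2 a3 a4 a5).trans ?_⟩
  · gcongr
  · gcongr

lemma both_abs : ∃ C : ℝ, 1 ≤ C ∧ ∀ a : ℝ, 0 < a → a < 1 → ∀ n : ℕ, 2 ≤ n → Both C a n := by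
  have K0 := exp_pos (2 * log 2 + 2)
  refine ⟨4000000 * exp (2 * log 2 + 2) + 1512, by linarith, fun a h0 h1 n hn => ⟨?_, ?_⟩⟩
  · have e0 : 0 < 1 - a := by linarith
    obtain ⟨q, H, G, hD, h⟩ := lower_fin h0 h1 hn
    refine ⟨q, H, G, hD, ?_⟩
    rw [Lf_inv _ (Nat.cast_nonneg n)] at h
    have ν0 : 0 ≤ (n : ℝ) ^ (-(1 - a)) := by positivity
    have y1 : (n : ℝ) ^ (-(1 - a)) ≤ yy (1 - a) n := le_max_left _ _
    have y2 : yy (1 - a) n / 2 ≤ (1 - a) + (n : ℝ) ^ (-(1 - a)) := by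
      have : yy (1 - a) n ≤ (1 - a) + (n : ℝ) ^ (-(1 - a)) := max_le (by linarith) (by linarith)
      linarith
    have k : Psi (1 - a) n ≤ ((1 - a) + (n : ℝ) ^ (-(1 - a))) *
        exp (2 * (1 - (n : ℝ) ^ (-(1 - a))) / (1 - a)) := by
      unfold Psi
      gcongr
    rw [div_le_iff₀ (by positivity)]
    have k2 := mul_le_mul_of_nonneg_left k (by positivity : 0 ≤ a / n)
    have k3 := norm_nonneg (coeff n (tay fun z => z * Complex.exp (G z)))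
    calc a * Psi (1 - a) n / n = a / n * Psi (1 - a) n := by ring
      _ ≤ _ := by nlinarith
  · intro f a1 a2 a3 a4 a5
    have e0 : 0 < 1 - a := by linarith
    have h := upper_fin h0 h1 a1 a2 a3 a4 a5 hn
    rw [Lf_inv _ (Nat.cast_nonneg n)] at h
    have k := p_R4 (1 - a) _ ((n : ℝ) ^ (-(1 - a))) e0 (by positivity) le_rfl
    have k2 := mul_le_mul_of_nonneg_left k (by positivity : 0 ≤ a / n)
    have P0 := Psi_pos e0 n
    have k3 : 0 ≤ exp (2 * log 2 + 2) * (a / n * Psi (1 - a) n) := by positivity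
    rw [show a * Psi (1 - a) n / n = a / n * Psi (1 - a) n by ring]
    unfold Psi yy at *
    nlinarith

lemma both_near {δ : ℝ} (hδ : 0 < δ) : ∃ ε : ℝ, 0 < ε ∧ ∀ a : ℝ, 0 < a → a < 1 → ∀ n : ℕ, 2 ≤ n →
    1 - a < ε → (n : ℝ) ^ (-(1 - a)) < ε → Both (1 + δ) a n := by
  obtain ⟨ε, ε0, hl⟩ := low_sharp (η := δ / (1 + δ)) (by positivity)
  have hc : ContinuousAt (fun η => (1 + δ) * (1 - η) - uf η) 0 := by
    unfold uf
    fun_prop (disch := norm_num)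
  have h1 : ∀ᶠ η in 𝓝 (0 : ℝ), 0 < (1 + δ) * (1 - η) - uf η :=
    hc.eventually (lt_mem_nhds (by simpa [uf] using hδ))
  have h2 : ∀ᶠ η in 𝓝[>] (0 : ℝ), 0 < (1 + δ) * (1 - η) - uf η := h1.filter_mono nhdsWithin_le_nhds
  obtain ⟨η, k1, η0, η1⟩ := (h2.and (Ioo_mem_nhdsGT (show (0 : ℝ) < 1 / 10 by norm_num))).exists
  refine ⟨min ε (η ^ 4), by positivity, fun a h0 h1 n hn he hν => ⟨?_, ?_⟩⟩
  · obtain ⟨q, H, G, hD, h⟩ := hl a h0 h1 n hn (he.trans_le (min_le_left _ _))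
      (hν.trans_le (min_le_left _ _))
    refine ⟨q, H, G, hD, ?_⟩
    have n0 : (0 : ℝ) < n := by exact_mod_cast (by omega : 0 < n)
    rw [div_right_comm, div_le_iff₀' n0]
    refine le_trans (le_of_eq ?_) h
    unfold Psi yy
    field_simp
    ring
  · intro f a1 a2 a3 a4 a5
    obtain ⟨N, rfl⟩ : ∃ N, n = N + 1 := ⟨n - 1, by omega⟩
    obtain ⟨q, H, G, hD, hf⟩ := exists_dat h0 h1 a1 a2 a3 a4 a5
    have e : f =ᶠ[𝓝 0] fun z => z * Complex.exp (G z) :=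
      Filter.mem_of_superset (ball_mem_nhds 0 one_pos) hf
    have he' := (he.trans_le (min_le_right _ _)).le
    have u := all_UP a q H G hD η N η0 η1.le (by omega) he' (hν.trans_le (min_le_right _ _)).le
    have n0 : (0 : ℝ) < ((N + 1 : ℕ) : ℝ) := by positivity
    have P0 := Psi_pos (show 0 < 1 - a by linarith) (N + 1)
    have η4 : η ^ 4 ≤ η := by
      simpa using pow_le_pow_of_le_one η0.le (by linarith) (show 1 ≤ 4 by norm_num)
    rw [tay_congr e, up_coeff hD, ← mul_div_assoc, le_div_iff₀' n0, ← mul_assoc]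
    refine u.trans (mul_le_mul_of_nonneg_right ?_ P0.le)
    nlinarith

end Pool.Agent.P.MP_bdc337_an.SO
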