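import Pool.Agent.P.MP_bdc337_an.SO.IfaceB

/-! Step M2. -/

set_option autoImplicit false

namespace Pool.Agent.P.MP_bdc337_an.SO

open Finset PowerSeries Metric Filter Topology Real
open UO LN KR

theorem p_M2 :
    S_M2 := by
  intro e b h
  have an : Antitone b := antitone_nat_of_succ_le h.anti
  refine ⟨fun N => ?_, fun i j hij => ⟨an hij, ?_⟩, fun k => ⟨(an (Nat.zero_le k)).trans h.up, ?_⟩⟩
  · induction N with
    | zero => simp
    | succ N ih =>
      have e1 : ∑ j ∈ range (N + 1), (b j - b (N + 1)) =
          ∑ j ∈ range N, (b j - b N) + (N + 1) * (b N - b (N + 1)) := by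
        rw [sum_range_succ, sum_sub_distrib, sum_sub_distrib]
        simp only [sum_const, card_range, nsmul_eq_mul]
        ring
      have e2 := h.var N
      have e3 := h.anti N
      rw [e1]
      push_cast
      nlinarith
  · induction j, hij using Nat.le_induction with
    | base => simp
    | succ j hij ih =>
      have e2 := h.var j
      have e3 := h.anti j
      have e4 : (i : ℝ) ≤ j := by exact_mod_cast hij
      push_cast
      nlinarith [mul_nonneg (sub_nonneg.2 e4) (sub_nonneg.2 e3)]
  · induction k using Nat.strong_induction_on with
    | _ n ih =>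
      rcases n with _ | n
      · rw [Kc_zero]; exact zero_le_one
      · have := Kc_succ b n
        have p : 0 ≤ ∑ j ∈ range (n + 1), b j * Kc b (n - j) :=
          sum_nonneg fun j _ => mul_nonneg (h.pos j).le (ih _ (by omega))
        rw [← this] at p
        exact nonneg_of_mul_nonneg_right p (by positivity)

end Pool.Agent.P.MP_bdc337_an.SO
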