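import Pool.Agent.P.MP_bdc337_an.SO.IfaceB

/-! Step M3. -/

set_option autoImplicit false

namespace Pool.Agent.P.MP_bdc337_an.SO

open Finset PowerSeries Metric Filter Topology Real
open UO LN KR

lemma m3_two {b : ℕ → ℝ} (h : ∀ k, b k ≤ 2 ∧ 0 ≤ Kc b k) {i N : ℕ} (hi : i ≤ N) :
    (i : ℝ) * Kc b i ≤ 2 * ∑ j ∈ range N, Kc b j := by
  have e1 : ∑ j ∈ range i, b j * Kc b (i - 1 - j) ≤ ∑ j ∈ range i, 2 * Kc b (i - 1 - j) :=
    sum_le_sum fun j _ => mul_le_mul_of_nonneg_right (h j).1 (h _).2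
  have e2 : ∑ j ∈ range i, Kc b j ≤ ∑ j ∈ range N, Kc b j :=
    sum_le_sum_of_subset_of_nonneg (range_mono hi) fun j _ _ => (h j).2
  rw [← mul_sum, sum_range_reflect (fun j => Kc b j)] at e1
  rw [Kc_eq]
  linarith

theorem p_M3 (hM2 : S_M2) :
    S_M3 := by
  intro e b hb N hN
  obtain ⟨h1, h2, h3⟩ := hM2 e b hb
  have e0 : 0 ≤ e := by
    have k1 := hb.var 0
    have k2 := hb.anti 0
    simp only [Nat.cast_zero, zero_add] at k1 k2
    linarith
  have n0 : (0 : ℝ) < N := by exact_mod_cast hN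
  set S := ∑ j ∈ range N, Kc b j with hS
  have S0 : 0 ≤ S := sum_nonneg fun j _ => (h3 j).2
  have eS : ∑ j ∈ range N, Kc b (N - 1 - j) = S := sum_range_reflect (fun j => Kc b j) N
  rw [Kc_eq]
  constructor
  · rw [← eS, mul_sum]
    exact sum_le_sum fun j hj =>
      mul_le_mul_of_nonneg_right (h2 j N (mem_range.1 hj).le).1 (h3 _).2
  · have key : ∑ j ∈ range N, b j * Kc b (N - 1 - j) ≤ ∑ j ∈ range N,
        ((b N + 4 * e) * Kc b (N - 1 - j) + 4 * S / N * (b j - b N)) := by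
      refine sum_le_sum fun j hj => ?_
      have hj' := mem_range.1 hj
      obtain ⟨d0, d1⟩ := h2 j N hj'.le
      have K0 := (h3 (N - 1 - j)).2
      have q0 : 0 ≤ 4 * S / N := by positivity
      have j0 : (0 : ℝ) ≤ j := Nat.cast_nonneg j
      by_cases hc : N ≤ 2 * j + 2
      · have c1 : (N : ℝ) ≤ 2 * j + 2 := by exact_mod_cast hc
        have c2 : b j - b N ≤ 4 * e := by
          apply le_of_mul_le_mul_left _ (show (0 : ℝ) < j + 2 by linarith)
          nlinarith
        nlinarith [mul_le_mul_of_nonneg_right c2 K0, mul_nonneg q0 (sub_nonneg.2 d0)]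
      · have c1 : (N : ℝ) ≤ 2 * ((N - 1 - j : ℕ) : ℝ) := by
          exact_mod_cast (by omega : N ≤ 2 * (N - 1 - j))
        have c2 := m3_two h3 (show N - 1 - j ≤ N by omega)
        have c3 : Kc b (N - 1 - j) ≤ 4 * S / N := by
          rw [le_div_iff₀ n0]
          nlinarith [mul_le_mul_of_nonneg_right c1 K0]
        nlinarith [mul_le_mul_of_nonneg_left c3 (sub_nonneg.2 d0), mul_nonneg e0 K0]
    rw [sum_add_distrib, ← mul_sum, ← mul_sum, eS] at key
    have k := mul_le_mul_of_nonneg_left (h1 N) (show 0 ≤ 4 * S / N by positivity)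
    have e2 : 4 * S / N * (4 * e * N) = 16 * e * S := by
      field_simp
      ring
    linarith

end Pool.Agent.P.MP_bdc337_an.SO
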