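import Pool.Agent.P.MP_bdc337_an.SO.IfaceB

/-! Step M4. -/

set_option autoImplicit false

namespace Pool.Agent.P.MP_bdc337_an.SO

open Finset PowerSeries Metric Filter Topology Real
open UO LN KR

lemma m4_K {D : ℕ → ℝ} (hD : ∀ j, 0 ≤ D j) (n : ℕ) : 0 ≤ Kc D n := by
  induction n using Nat.strong_induction_on with
  | _ n ih =>
    rcases n with _ | n
    · rw [Kc_zero]; exact zero_le_one
    · have p : 0 ≤ ∑ j ∈ range (n + 1), D j * Kc D (n - j) :=
        sum_nonneg fun j _ => mul_nonneg (hD j) (ih _ (by omega))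
      rw [← Kc_succ] at p
      exact nonneg_of_mul_nonneg_right p (by positivity)

lemma m4_pos {θ : ℝ} (h0 : 0 ≤ θ) (n : ℕ) : 0 < cc θ n :=
  prod_pos fun i _ => by positivity

lemma m4_cmp {θ : ℝ} (h0 : 0 ≤ θ) (h2 : θ ≤ 2) (k i : ℕ) : cc θ k ≤ cc θ (k + i) ∧
    cc θ (k + i) * ((k : ℝ) + 1) ^ 2 ≤ cc θ k * ((k : ℝ) + i + 1) ^ 2 := by
  induction i with
  | zero => simp
  | succ i ih =>
    have e : cc θ (k + (i + 1)) = cc θ (k + i) * (1 + θ / ((k : ℝ) + i + 1)) := by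
      rw [← add_assoc, cc, prod_range_succ, Nat.cast_add]
      rfl
    have j0 : (0 : ℝ) < k + i + 1 := by positivity
    have p1 := m4_pos h0 (k + i)
    have p2 := m4_pos h0 k
    have t0 : 0 ≤ θ / ((k : ℝ) + i + 1) := by positivity
    rw [e]
    refine ⟨by nlinarith [ih.1, mul_nonneg p1.le t0], ?_⟩
    have h3 := mul_le_mul_of_nonneg_right ih.2 (show 0 ≤ 1 + θ / ((k : ℝ) + i + 1) by positivity)
    have h4 : ((k : ℝ) + i + 1) ^ 2 * (1 + θ / ((k : ℝ) + i + 1)) ≤ ((k : ℝ) + (i + 1) + 1) ^ 2 := by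
      have : ((k : ℝ) + i + 1) ^ 2 * (1 + θ / ((k : ℝ) + i + 1)) =
          ((k : ℝ) + i + 1) ^ 2 + θ * ((k : ℝ) + i + 1) := by field_simp
      nlinarith
    push_cast
    nlinarith [mul_le_mul_of_nonneg_left h4 p2.le]

theorem p_M4 (hM2 : S_M2) (hM4A : S_M4A) (hM4B : S_M4B) :
    S_M4 := by
  intro e b hb N hN
  obtain ⟨m1, m2, m3⟩ := hM2 e b hb
  obtain ⟨n, rfl⟩ : ∃ n, N = n + 1 := ⟨N - 1, by omega⟩
  set D : ℕ → ℝ := fun j => if j < n + 1 then b j - b (n + 1) else 0 with hD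
  have D0 : ∀ j, 0 ≤ D j := fun j => by
    simp only [hD]
    split_ifs with h
    · exact sub_nonneg.2 (m2 j (n + 1) h.le).1
    · exact le_rfl
  have D1 : ∀ j ∈ range (n + 1), D j = b j - b (n + 1) := fun j hj => if_pos (mem_range.1 hj)
  obtain ⟨s1, s2⟩ := hM4B D (n + 1) fun j hj => if_neg (by omega)
  have D2 : ∑ j ∈ range (n + 1), D j / (j + 1) =
      ∑ j ∈ range (n + 1), (b j - b (n + 1)) / (j + 1) :=
    sum_congr rfl fun j hj => by rw [D1 j hj]
  rw [D2] at s1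
  rw [D2, sum_congr rfl D1] at s2
  rw [hM4A b D (b (n + 1)) n fun j hj => if_pos (by omega), Nat.add_sub_cancel]
  have t0 := (hb.pos (n + 1)).le
  have t2 := (m3 (n + 1)).1
  have K0 := m4_K D0
  have c0 := m4_pos t0 n
  have n0 : (0 : ℝ) < n + 1 := by positivity
  have hc : ∀ i ∈ range (n + 1), cc (b (n + 1)) (n - i) ≤ cc (b (n + 1)) n ∧
      cc (b (n + 1)) n * (1 - 2 / (n + 1) * i) ≤ cc (b (n + 1)) (n - i) := fun i hi => by
    obtain ⟨k, rfl⟩ : ∃ k, n = k + i := ⟨n - i, by have := mem_range.1 hi; omega⟩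
    obtain ⟨h1, h2⟩ := m4_cmp t0 t2 k i
    rw [Nat.add_sub_cancel]
    refine ⟨h1, le_of_mul_le_mul_right (le_trans ?_ h2) (by positivity)⟩
    push_cast at n0 ⊢
    rw [mul_assoc]
    refine mul_le_mul_of_nonneg_left ?_ c0.le
    have : (1 - 2 / ((k : ℝ) + i + 1) * i) * ((k : ℝ) + i + 1) ^ 2 =
        ((k : ℝ) + i + 1) ^ 2 - 2 * i * ((k : ℝ) + i + 1) := by field_simp
    nlinarith [sq_nonneg (i : ℝ)]
  have m4 := m1 (n + 1)
  push_cast at m4
  have E0 := exp_pos (∑ j ∈ range (n + 1), (b j - b (n + 1)) / (j + 1))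
  generalize exp (∑ j ∈ range (n + 1), (b j - b (n + 1)) / (j + 1)) = E at *
  generalize ∑ j ∈ range (n + 1), (b j - b (n + 1)) = m at *
  constructor
  · have h1 := sum_le_hasSum (range (n + 1)) (fun i hi => by
      have i1 : (n : ℝ) + 1 ≤ i := by exact_mod_cast not_lt.1 fun h => hi (mem_range.2 h)
      have i2 : 1 ≤ 2 / ((n : ℝ) + 1) * i := by
        rw [div_mul_eq_mul_div, le_div_iff₀ n0]
        linarith
      nlinarith [mul_le_mul_of_nonneg_right i2 (K0 i)]) ((s2.mul_left (2 / ((n : ℝ) + 1))).sub s1)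
    have h2 : 2 / ((n : ℝ) + 1) * m ≤ 8 * e := by
      rw [div_mul_eq_mul_div, div_le_iff₀ n0]
      linarith
    have h3 : -(cc (b (n + 1)) n * ∑ i ∈ range (n + 1),
        (2 / ((n : ℝ) + 1) * (i * Kc D i) - Kc D i)) ≤
          ∑ i ∈ range (n + 1), Kc D i * cc (b (n + 1)) (n - i) := by
      rw [mul_sum, ← sum_neg_distrib]
      refine sum_le_sum fun i hi => ?_
      nlinarith [mul_le_mul_of_nonneg_left (hc i hi).2 (K0 i)]
    nlinarith [mul_le_mul_of_nonneg_left h1 c0.le,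
      mul_le_mul_of_nonneg_right h2 (mul_pos c0 E0).le]
  · refine le_trans ?_ (mul_le_mul_of_nonneg_left
      (sum_le_hasSum (range (n + 1)) (fun i _ => K0 i) s1) c0.le)
    rw [mul_sum]
    exact sum_le_sum fun i hi => by nlinarith [mul_le_mul_of_nonneg_left (hc i hi).1 (K0 i)]

end Pool.Agent.P.MP_bdc337_an.SO
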