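import Pool.Agent.P.MP_bdc337_an.SO.IfaceB

/-! Step M4A. -/

set_option autoImplicit false

namespace Pool.Agent.P.MP_bdc337_an.SO

open Finset PowerSeries Metric Filter Topology Real
open UO LN KR

theorem m4a_uniq (b f : ℕ → ℝ) (N : ℕ) (h0 : f 0 = 1)
    (h : ∀ n, n < N → ((n : ℝ) + 1) * f (n + 1) = ∑ j ∈ range (n + 1), b j * f (n - j)) :
    ∀ n, n ≤ N → f n = Kc b n := by
  intro n
  induction n using Nat.strong_induction_on with
  | _ n ih =>
    intro hn
    rcases n with _ | n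
    · rw [h0, Kc_zero]
    · have h1 := h n (by omega)
      have h2 := Kc_succ b n
      have h3 : ∑ j ∈ range (n + 1), b j * f (n - j) = ∑ j ∈ range (n + 1), b j * Kc b (n - j) :=
        Finset.sum_congr rfl fun j _ => by rw [ih (n - j) (by omega) (by omega)]
      have h4 : (0 : ℝ) < (n : ℝ) + 1 := by positivity
      apply mul_left_cancel₀ h4.ne'
      rw [h1, h2, h3]

theorem m4a_congr (b b' : ℕ → ℝ) (n : ℕ) (h : ∀ j, j < n → b j = b' j) : Kc b n = Kc b' n := by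
  refine m4a_uniq b' (Kc b) n (Kc_zero b) (fun m hm => ?_) n le_rfl
  rw [Kc_succ]
  exact Finset.sum_congr rfl fun j hj => by
    rw [h j (by have := Finset.mem_range.1 hj; omega)]

theorem m4a_coeff (f g : ℕ → ℝ) (n : ℕ) :
    coeff n (mk f * mk g : ℝ⟦X⟧) = ∑ j ∈ range (n + 1), f j * g (n - j) := by
  rw [coeff_mul, Finset.Nat.sum_antidiagonal_eq_sum_range_succ_mk]
  simp only [coeff_mk]

theorem m4a_deriv (b : ℕ → ℝ) : d⁄dX ℝ (mk (Kc b)) = mk b * mk (Kc b) := by
  ext n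
  rw [coeff_derivative, m4a_coeff, coeff_mk, ← Kc_succ, mul_comm]

theorem m4a_mul (b b' : ℕ → ℝ) (n : ℕ) :
    ∑ j ∈ range (n + 1), Kc b j * Kc b' (n - j) = Kc (fun j => b j + b' j) n := by
  rw [← m4a_coeff]
  refine m4a_uniq (fun j => b j + b' j) (fun n => coeff n (mk (Kc b) * mk (Kc b') : ℝ⟦X⟧)) n
    (by simp only [m4a_coeff]; simp [Kc_zero]) (fun m _ => ?_) n le_rfl
  have h1 : d⁄dX ℝ (mk (Kc b) * mk (Kc b') : ℝ⟦X⟧) =
      mk (fun j => b j + b' j) * (mk (Kc b) * mk (Kc b')) := by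
    have h2 : (mk (fun j => b j + b' j) : ℝ⟦X⟧) = mk b + mk b' := by
      ext j; simp
    rw [Derivation.leibniz, m4a_deriv, m4a_deriv, h2, smul_eq_mul, smul_eq_mul]
    ring
  have h3 := congrArg (coeff m) h1
  rw [coeff_derivative, coeff_mul m (mk fun j => b j + b' j),
    Finset.Nat.sum_antidiagonal_eq_sum_range_succ_mk] at h3
  simp only [coeff_mk] at h3
  rw [mul_comm]
  exact h3

theorem m4a_cc_succ (θ : ℝ) (n : ℕ) :
    ((n : ℝ) + 1) * cc θ (n + 1) = (θ + 1) * ∑ j ∈ range (n + 1), cc θ j := by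
  have hs : ∀ m : ℕ, ((m : ℝ) + 1) * cc θ (m + 1) = ((m : ℝ) + 1 + θ) * cc θ m := by
    intro m
    unfold cc
    rw [Finset.prod_range_succ]
    field_simp
  induction n with
  | zero =>
    have := hs 0
    simp only [Nat.cast_zero, zero_add, Finset.sum_range_one] at this ⊢
    rw [this]; ring
  | succ n ih =>
    rw [hs (n + 1), Finset.sum_range_succ _ (n + 1), mul_add (θ + 1), ← ih]
    push_cast
    ring

theorem m4a_cc (θ : ℝ) (n : ℕ) : cc θ n = Kc (fun _ => θ + 1) n := by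
  refine m4a_uniq (fun _ => θ + 1) (cc θ) n (by simp [cc]) (fun m _ => ?_) n le_rfl
  rw [m4a_cc_succ, ← Finset.mul_sum]
  congr 1
  have := Finset.sum_range_reflect (cc θ) (m + 1)
  simpa using this.symm

theorem p_M4A :
    S_M4A := by
  intro b D θ n h
  have h1 : ∑ j ∈ range (n + 1), Kc b j = ∑ j ∈ range (n + 1), Kc b j * cc 0 (n - j) :=
    Finset.sum_congr rfl fun j _ => by simp [cc]
  rw [h1]
  simp only [m4a_cc]
  rw [m4a_mul, m4a_mul]
  exact m4a_congr _ _ n fun j hj => by rw [h j hj]; ring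

end Pool.Agent.P.MP_bdc337_an.SO
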