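import Pool.Agent.P.MP_bdc337_an.SO.IfaceB

/-! Step M4B. -/

set_option autoImplicit false

namespace Pool.Agent.P.MP_bdc337_an.SO

open Finset PowerSeries Metric Filter Topology Real
open UO LN KR

lemma m4b_sum {f : ℂ → ℂ} (hf : Differentiable ℂ f) {c : ℕ → ℝ} {v : ℝ}
    (hc : ∀ n, coeff n (tay f) = c n) (hv : f 1 = v) : HasSum c v := by
  have s := Complex.hasSum_taylorSeries_of_entire hf 0 1
  have e : (fun n : ℕ => (n.factorial : ℂ)⁻¹ • ((1 : ℂ) - 0) ^ n • iteratedDeriv n f 0) =
      fun n => (c n : ℂ) := by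
    funext n
    rw [← hc, coeff_tay, smul_eq_mul, smul_eq_mul, sub_zero, one_pow]
    ring
  rw [e, hv] at s
  exact Complex.hasSum_ofReal.1 s

theorem p_M4B :
    S_M4B := by
  intro D N hD
  set c : ℕ → ℂ := fun k => if k = 0 then 0 else (D (k - 1) : ℂ) with hc
  have c0 : c 0 = 0 := by simp [hc]
  have c1 : ∀ j, c (j + 1) = D j := fun j => by simp [hc]
  have cp : ∀ j, coeff (j + 1) (tay (poly (N + 1) c)) = D j := by
    intro j
    rw [coeff_poly, c1]
    split_ifs with h
    · rfl
    · rw [hD j (by omega), Complex.ofReal_zero]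
  set M : ℂ → ℂ := fun z => Complex.exp (poly (N + 1) (fun k => c k / k) z) with hM
  have dM : Differentiable ℂ M := (poly_diff _ _).cexp
  have eu : X * d⁄dX ℂ (tay M) = tay (poly (N + 1) c) * tay M := exp_euler c0 (N + 1)
  have co : ∀ n, coeff n (tay M) = Kc D n := by
    intro n
    induction n using Nat.strong_induction_on with
    | _ n ih =>
      rcases n with _ | n
      · rw [coeff_zero_tay, Kc_zero, hM]
        simp [poly, sum_range_succ', c0]
      · have e := congrArg (coeff (n + 1)) eu
        rw [coeff_X_mul_deriv, coeff_mul, Finset.Nat.sum_antidiagonal_eq_sum_range_succ_mk,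
          sum_range_succ', coeff_poly, c0, ite_self, zero_mul, add_zero] at e
        have e2 := congrArg Complex.ofReal (Kc_succ D n)
        push_cast at e e2
        apply mul_left_cancel₀ (Nat.cast_add_one_ne_zero n)
        rw [e, e2]
        refine Finset.sum_congr rfl fun j hj => ?_
        have := mem_range.1 hj
        rw [cp, ih _ (by omega)]
  have M1 : M 1 = (exp (∑ j ∈ range N, D j / (j + 1)) : ℝ) := by
    rw [hM]
    simp [poly, sum_range_succ', c0, c1]
  refine ⟨m4b_sum dM co M1, m4b_sum (f := fun z => poly (N + 1) c z * M z)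
    ((poly_diff _ _).mul dM) (fun n => ?_) ?_⟩
  · rw [tay_mul ((poly_diff _ _).analyticAt 0) (dM.analyticAt 0), ← eu, coeff_X_mul_deriv, co]
    push_cast
    rfl
  · simp only [M1]
    simp [poly, sum_range_succ', c0, c1]

end Pool.Agent.P.MP_bdc337_an.SO
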