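import Pool.Agent.P.MP_bdc337_an.SO.IfaceB

/-! Step M5. -/

set_option autoImplicit false

namespace Pool.Agent.P.MP_bdc337_an.SO

open Finset PowerSeries Metric Filter Topology Real
open UO LN KR

lemma m5_sum {f : ℂ → ℂ} (hf : DifferentiableOn ℂ f (ball 0 1)) {c : ℕ → ℝ}
    (hc : ∀ j, coeff (j + 1) (tay f) = (c j : ℂ)) {r : ℝ} (r0 : 0 ≤ r) (r1 : r < 1) :
    HasSum (fun j : ℕ => c j * r ^ (j + 1)) ((f r).re - (f 0).re) := by
  have hz : (r : ℂ) ∈ ball (0 : ℂ) 1 := by
    rwa [mem_ball_zero_iff, Complex.norm_real, Real.norm_of_nonneg r0]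
  have s := Complex.hasSum_taylorSeries_on_ball hf hz
  have e : (fun n : ℕ => (n.factorial : ℂ)⁻¹ • ((r : ℂ) - 0) ^ n • iteratedDeriv n f 0) =
      fun n => ((r ^ n : ℝ) : ℂ) * coeff n (tay f) := by
    funext n
    rw [coeff_tay, smul_eq_mul, smul_eq_mul, sub_zero]
    push_cast
    ring
  rw [e] at s
  have s1 := (hasSum_nat_add_iff' 1).2 (Complex.hasSum_re s)
  simp only [Complex.re_ofReal_mul, hc, Complex.ofReal_re, Finset.sum_range_one, pow_zero,
    one_mul, coeff_zero_tay] at s1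
  simpa only [mul_comm] using s1

lemma m5_q {a : ℝ} {H G : ℂ → ℂ} (h : Dat a (qK a) H G) (j : ℕ) :
    coeff (j + 1) (tay (qK a)) = (bs a j : ℂ) := by
  have e := expand (w := X) (by simp) (by rw [coeff_zero_tay, h.q0]) (qK_ode h) 1 (j + 1)
  rw [mul_one, map_sub, coeff_one, if_neg (Nat.succ_ne_zero j), sub_zero] at e
  rw [e, Finset.sum_eq_single j]
  · rw [mul_one, coeff_X_pow, if_pos rfl, mul_one]
  · intro i _ hi
    rw [mul_one, coeff_X_pow, if_neg (by omega), mul_zero]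
  · intro hj
    exact absurd (mem_range.2 (Nat.lt_succ_self j)) hj

lemma m5_G {a : ℝ} {H G : ℂ → ℂ} (h : Dat a (qK a) H G) (j : ℕ) :
    coeff (j + 1) (tay G) = ((bs a j / (j + 1) : ℝ) : ℂ) := by
  have hnb : ball (0 : ℂ) 1 ∈ 𝓝 (0 : ℂ) := ball_mem_nhds 0 one_pos
  have aP : AnalyticAt ℂ (qK a) 0 := h.qd.analyticAt hnb
  have aF : AnalyticAt ℂ G 0 := h.Gdiff.analyticAt hnb
  have e : (fun z => z * deriv G z) =ᶠ[𝓝 0] fun z => qK a z - 1 := by
    filter_upwards [hnb] with z hz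
    rw [(h.Gd z hz).deriv]
    exact h.hH z hz
  have t := tay_congr e
  rw [tay_mul (f := fun z => z) analyticAt_id aF.deriv, tay_id, tay_deriv,
    tay_sub aP analyticAt_const, tay_const, map_one] at t
  have u := congrArg (coeff (j + 1)) t
  rw [coeff_succ_X_mul, coeff_derivative, map_sub, coeff_one, if_neg (Nat.succ_ne_zero j),
    sub_zero, m5_q h] at u
  have h4 : ((j : ℂ) + 1) ≠ 0 := by exact_mod_cast Nat.succ_ne_zero j
  push_cast
  rw [eq_div_iff h4, u]

theorem p_M5 :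
    S_M5 := by
  intro a H G h r r0 r1
  constructor
  · have s := m5_sum h.Gdiff (m5_G h) r0 r1
    rw [h.G0, Complex.zero_re, sub_zero] at s
    have e : (fun j : ℕ => bs a j * r ^ (j + 1) / (j + 1)) =
        fun j : ℕ => bs a j / (j + 1) * r ^ (j + 1) := by
      funext j
      ring
    rwa [e]
  · have s := m5_sum h.qd (m5_q h) r0 r1
    rw [h.q0, Complex.one_re] at s
    have p1 : 0 < 1 - r := by linarith
    have p2 : 0 < 1 + r := by linarith
    have e : (qK a r).re = ((1 + r) / (1 - r)) ^ a := by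
      have : (1 + (r : ℂ)) / (1 - r) = (((1 + r) / (1 - r) : ℝ) : ℂ) := by simp
      rw [qK, this, ← Complex.ofReal_log (by positivity), ← Complex.ofReal_mul,
        Complex.exp_ofReal_re, mul_comm, ← Real.rpow_def_of_pos (by positivity)]
    rwa [e] at s

end Pool.Agent.P.MP_bdc337_an.SO
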