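import Pool.Agent.P.MP_bdc337_an.SO.IfaceB

/-! Step M6. -/

set_option autoImplicit false

namespace Pool.Agent.P.MP_bdc337_an.SO

open Finset PowerSeries Metric Filter Topology Real
open UO LN KR

lemma m6_fin (N : ℕ) (f : ℕ → ℝ) :
    HasSum (fun j : ℕ => if j < N then f j else 0) (∑ j ∈ range N, f j) := by
  have h : ∑ j ∈ range N, f j = ∑ j ∈ range N, (if j < N then f j else 0) :=
    sum_congr rfl fun j hj => (if_pos (mem_range.1 hj)).symm
  rw [h]
  exact hasSum_sum_of_ne_finset_zero fun j hj => if_neg fun h' => hj (mem_range.2 h')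

theorem p_M6 (hM2 : S_M2) :
    S_M6 := by
  intro e b hb N L hN hL
  obtain ⟨h1, h2, -⟩ := hM2 e b hb
  have he : 0 ≤ e := by
    have := hb.var 0
    have := hb.anti 0
    push_cast at *
    nlinarith
  have hN' : (1 : ℝ) ≤ N := by exact_mod_cast hN
  set n : ℝ := (N : ℝ) + 1 with hn
  have n0 : 0 < n := by linarith
  have i0 : 0 < 1 / n := by positivity
  have i1 : 1 / n ≤ 1 := by rw [div_le_one n0]; linarith
  set r : ℝ := 1 - 1 / n with hr
  have r0 : 0 ≤ r := by linarith
  have r1 : r < 1 := by linarith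
  have hlog : HasSum (fun j : ℕ => r ^ (j + 1) / (j + 1)) (log n) := by
    have := hasSum_pow_div_log_of_abs_lt_one (x := r) (by rwa [abs_of_nonneg r0])
    rwa [hr, sub_sub_cancel, one_div n, log_inv, neg_neg, ← one_div n] at this
  have hA : HasSum (fun j : ℕ => (b j - b N) * (r ^ (j + 1) / (j + 1))) (L - b N * log n) := by
    have h := hL.sub (hlog.mul_left (b N))
    have e1 : (fun j : ℕ => (b j - b N) * (r ^ (j + 1) / (j + 1))) =
        fun j : ℕ => b j * r ^ (j + 1) / (j + 1) - b N * (r ^ (j + 1) / (j + 1)) :=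
      funext fun j => by ring
    rwa [e1]
  have hF := m6_fin N fun j => (b j - b N) / (j + 1)
  have hp : ∀ j : ℕ, 0 ≤ r ^ j := fun j => pow_nonneg r0 j
  have hp1 : ∀ j : ℕ, r ^ j ≤ 1 := fun j => pow_le_one₀ r0 r1.le
  have hj0 : ∀ j : ℕ, (0 : ℝ) < j + 1 := fun j => by positivity
  refine ⟨hasSum_le (fun j => ?_) hA hF, ?_⟩
  · split_ifs with h
    · rw [div_eq_mul_one_div (b j - b N)]
      exact mul_le_mul_of_nonneg_left (div_le_div_of_nonneg_right (hp1 _) (hj0 j).le)
        (sub_nonneg.2 (h2 j N h.le).1)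
    · exact mul_nonpos_of_nonpos_of_nonneg (sub_nonpos.2 (h2 N j (not_lt.1 h)).1)
        (div_nonneg (hp _) (hj0 j).le)
  · have c0 : 0 ≤ 4 * e / n := by positivity
    have hG := (hA.add (m6_fin N fun j => (b j - b N) / n)).add
      ((hasSum_geometric_of_lt_one r0 r1).mul_left (4 * e / n))
    refine (hasSum_le (fun j => ?_) hF hG).trans ?_
    · split_ifs with h
      · have d0 : 0 ≤ b j - b N := sub_nonneg.2 (h2 j N h.le).1
        have hB := one_add_mul_le_pow (a := -(1 / n)) (by linarith) (j + 1)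
        rw [← sub_eq_add_neg, ← hr] at hB
        push_cast at hB
        have h3 : 1 / ((j : ℝ) + 1) ≤ r ^ (j + 1) / (j + 1) + 1 / n := by
          rw [← sub_le_iff_le_add', ← sub_div, div_le_iff₀ (hj0 j)]
          linarith
        have h4 := mul_le_mul_of_nonneg_left h3 d0
        rw [mul_add, mul_one_div, mul_one_div] at h4
        have := mul_nonneg c0 (hp j)
        linarith
      · obtain ⟨d0, d1⟩ := h2 N j (not_lt.1 h)
        have h3 : (b N - b j) / (j + 1) ≤ 4 * e / n := by
          rw [div_le_div_iff₀ (hj0 j) n0]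
          nlinarith
        have h4 : r ^ (j + 1) ≤ r ^ j := pow_le_pow_of_le_one r0 r1.le (Nat.le_succ j)
        have h5 := mul_le_mul h3 h4 (hp _) c0
        have e2 : (b j - b N) * (r ^ (j + 1) / (j + 1)) =
            -((b N - b j) / (j + 1) * r ^ (j + 1)) := by ring
        linarith
    · have e3 : 4 * e / n * (1 - r)⁻¹ = 4 * e := by
        rw [hr, sub_sub_cancel]
        field_simp
      have h3 : ∑ j ∈ range N, (b j - b N) / n ≤ 4 * e := by
        rw [← sum_div, div_le_iff₀ n0]
        nlinarith [h1 N]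
      linarith

end Pool.Agent.P.MP_bdc337_an.SO
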