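import Pool.Agent.P.MP_bdc337_an.SO.IfaceB

/-! Step M7. -/

set_option autoImplicit false

namespace Pool.Agent.P.MP_bdc337_an.SO

open Finset PowerSeries Metric Filter Topology Real
open UO LN KR

lemma m7_real (e : ℝ) (N : ℕ) (he0 : 0 < e) (he1 : e ≤ 1 / 2) (hN : 1 ≤ N) :
    2 * ((N : ℝ) + 1) ^ (-e) * N - 4 * e * N ≤ (2 * (N : ℝ) + 1) ^ (1 - e) - 1 := by
  have hN' : (1 : ℝ) ≤ N := by exact_mod_cast hN
  set ν : ℝ := ((N : ℝ) + 1) ^ (-e) with hν
  have hν1 : ν ≤ 1 := Real.rpow_le_one_of_one_le_of_nonpos (by linarith) (by linarith)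
  have hν0 : 0 < ν := Real.rpow_pos_of_pos (by linarith) _
  have hν2 : 1 - e * N ≤ ν := by
    rw [hν, Real.rpow_def_of_pos (by linarith)]
    have h1 : log ((N : ℝ) + 1) ≤ N := by
      have := Real.log_le_sub_one_of_pos (show (0 : ℝ) < N + 1 by linarith)
      linarith
    have h2 := Real.add_one_le_exp (log ((N : ℝ) + 1) * -e)
    nlinarith
  have h2e : 1 - e ≤ (2 : ℝ) ^ (-e) := by
    rw [Real.rpow_def_of_pos (by norm_num)]
    have h1 : log (2 : ℝ) ≤ 1 := by
      have := Real.log_le_sub_one_of_pos (show (0 : ℝ) < 2 by norm_num)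
      linarith
    have h2 := Real.add_one_le_exp (log (2 : ℝ) * -e)
    nlinarith
  have h3 : (2 : ℝ) ^ (-e) * ν ≤ (2 * (N : ℝ) + 1) ^ (-e) := by
    rw [hν, ← Real.mul_rpow (by norm_num) (by linarith)]
    exact Real.rpow_le_rpow_of_nonpos (by linarith) (by linarith) (by linarith)
  have h4 : (2 * (N : ℝ) + 1) ^ (1 - e) = (2 * (N : ℝ) + 1) * (2 * (N : ℝ) + 1) ^ (-e) := by
    rw [sub_eq_add_neg, Real.rpow_add (by linarith), Real.rpow_one]
  have h5 : (1 - e) * ν ≤ (2 * (N : ℝ) + 1) ^ (-e) :=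
    le_trans (mul_le_mul_of_nonneg_right h2e hν0.le) h3
  have h6 : (2 * (N : ℝ) + 1) * ((1 - e) * ν) ≤ (2 * (N : ℝ) + 1) ^ (1 - e) := by
    rw [h4]; exact mul_le_mul_of_nonneg_left h5 (by linarith)
  have h7 : e * N * ν ≤ e * N := by
    have : 0 ≤ e * N := by positivity
    nlinarith
  have h8 : e * ν ≤ e * N := by nlinarith
  nlinarith

theorem p_M7 (hM2 : S_M2) (hM5 : S_M5) :
    S_M7 := by
  intro a N h0 h1 hN
  have hN' : (1 : ℝ) ≤ N := by exact_mod_cast hN
  obtain ⟨H, G, hD⟩ := datK (a := a) (by linarith) h1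
  obtain ⟨hm, hmon, -⟩ := hM2 (1 - a) (bs a) (slow_bs h0 h1.le)
  set r : ℝ := 1 - 1 / ((N : ℝ) + 1) with hr
  have hr' : r = N / ((N : ℝ) + 1) := by rw [hr]; field_simp; ring
  have hr0 : 0 ≤ r := by rw [hr']; positivity
  have hr1 : r < 1 := by
    rw [hr]
    have : 0 < 1 / ((N : ℝ) + 1) := by positivity
    linarith
  obtain ⟨-, hs⟩ := hM5 a H G hD r hr0 hr1
  have hq : (1 + r) / (1 - r) = 2 * (N : ℝ) + 1 := by
    rw [hr]; field_simp; ring
  rw [hq] at hs
  have hg : HasSum (fun j : ℕ => bs a N * r ^ (j + 1)) (bs a N * N) := by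
    have h := (hasSum_geometric_of_lt_one hr0 hr1).mul_left (bs a N * r)
    have e1 : bs a N * r * (1 - r)⁻¹ = bs a N * N := by
      rw [hr]; field_simp; ring
    rw [e1] at h
    refine h.congr_fun ?_
    intro j; ring
  have hf : HasSum (fun j : ℕ => if j < N then bs a j - bs a N else 0)
      (∑ j ∈ range N, (bs a j - bs a N)) := by
    have h : HasSum (fun j : ℕ => if j < N then bs a j - bs a N else 0)
        (∑ j ∈ range N, (if j < N then bs a j - bs a N else 0)) :=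
      hasSum_sum_of_ne_finset_zero fun j hj => if_neg (by simpa using hj)
    rwa [Finset.sum_congr rfl (fun j hj => if_pos (mem_range.1 hj))] at h
  have hle := hasSum_le (fun j => ?_) hs (hg.add hf)
  · have h2 := m7_real (1 - a) N (by linarith) (by linarith) hN
    have h3 := hm N
    rw [sub_sub_cancel] at h2
    have h4 : (2 * ((N : ℝ) + 1) ^ (-(1 - a)) - 8 * (1 - a)) * N ≤ bs a N * N := by
      nlinarith
    exact le_of_mul_le_mul_right h4 (by linarith)
  · have hp0 : 0 ≤ r ^ (j + 1) := pow_nonneg hr0 _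
    have hp1 : r ^ (j + 1) ≤ 1 := pow_le_one₀ hr0 hr1.le
    split_ifs with hj
    · have := (hmon j N hj.le).1
      nlinarith
    · have := (hmon N j (not_lt.1 hj)).1
      nlinarith

end Pool.Agent.P.MP_bdc337_an.SO
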