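import Pool.Agent.P.MP_bdc337_an.UO.E

/-! Sharp lower bound for the radial growth. -/

set_option autoImplicit false

namespace Pool.Agent.P.MP_bdc337_an.SO

open Finset PowerSeries Metric Filter Topology Real
open UO

lemma lg_two (a : ℝ) : (2 : ℝ) ^ a = 2 * exp (-((1 - a) * log 2)) := by
  rw [Real.rpow_def_of_pos two_pos, show log 2 * a = log 2 + -((1 - a) * log 2) by ring, exp_add,
    exp_log two_pos]

lemma lg_Q0 (a : ℝ) {r t : ℝ} (s0 : 0 ≤ r * t) (s1 : r * t < 1) :
    (Q0 a r t).re = (1 + r * t) ^ a * (1 - r * t) ^ (-a) := by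
  have p1 : 0 < 1 - r * t := by linarith
  have p2 : 0 < 1 + r * t := by linarith
  have : pp r t = (((1 + r * t) / (1 - r * t) : ℝ) : ℂ) := by simp [pp]
  rw [Q0, this, ← Complex.ofReal_log (by positivity), ← Complex.ofReal_mul, Complex.exp_ofReal_re,
    mul_comm, ← Real.rpow_def_of_pos (by positivity), Real.div_rpow p2.le p1.le,
    Real.rpow_neg p1.le, div_eq_mul_inv]

lemma lg_pt {a s : ℝ} (h0 : 0 < a) (h1 : a < 1) (s0 : 0 ≤ s) (s1 : s < 1) :
    1 + s * (2 ^ a * (1 - s) ^ (-a) - (1 - a) * (1 - log (1 - s))) ≤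
      (1 + s) ^ a * (1 - s) ^ (-a) := by
  have p1 : 0 < 1 - s := by linarith
  have W0 : 0 < (1 - s) ^ (-a) := Real.rpow_pos_of_pos p1 _
  have e1 : (1 - s) + s * 2 ^ a ≤ (1 + s) ^ a := by
    have := (Real.concaveOn_rpow h0.le h1.le).2 (x := 1) (y := 2) (by simp) (by simp) p1.le s0
      (by ring)
    simp only [smul_eq_mul, Real.one_rpow, mul_one] at this
    rwa [show 1 - s + s * 2 = 1 + s by ring] at this
  have e2 : (1 - s) * (1 - s) ^ (-a) = exp ((1 - a) * log (1 - s)) := by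
    rw [mul_comm, ← Real.rpow_add_one p1.ne', Real.rpow_def_of_pos p1]
    congr 1
    ring
  have e3 := add_one_le_exp ((1 - a) * log (1 - s))
  have e4 : -s ≤ (1 - s) * log (1 - s) := by
    have l := Real.log_le_sub_one_of_pos (inv_pos.2 p1)
    rw [Real.log_inv] at l
    have l2 := mul_le_mul_of_nonneg_left l p1.le
    rw [mul_sub, mul_inv_cancel₀ p1.ne'] at l2
    linarith
  have e5 := mul_le_mul_of_nonneg_right e1 W0.le
  have e6 := mul_le_mul_of_nonneg_left e4 (show 0 ≤ 1 - a by linarith)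
  nlinarith

theorem low_growth {a rho : ℝ} {H G : ℂ → ℂ} (r0 : 0 < rho) (r1 : rho < 1) {q : ℂ → ℂ}
    (h : UO.Dat a q H G)
    (hq : ∀ t : ℝ, 0 < t → t < 1 → (UO.Q0 a rho t).re ≤ (q t).re) {t : ℝ} (t0 : 0 ≤ t)
    (t1 : t < 1) :
    UO.Lf (1 - a) ((1 - rho * t) / 2) - 2 * log 2 - 2 * (1 - a) ≤ (G t).re := by
  have h0 := h.a0
  have h1 := h.a1
  have e0 : 0 < 1 - a := by linarith
  have lt1 : ∀ y : ℝ, 0 ≤ y → y ≤ t → rho * y < 1 := fun y y0 yt => by nlinarith
  have dP : ∀ y : ℝ, rho * y < 1 →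
      HasDerivAt (fun y : ℝ => (1 - rho * y) * log (1 - rho * y) + 2 * (rho * y))
        (rho * (1 - log (1 - rho * y))) y := by
    intro y hy
    have p1 : 1 - rho * y ≠ 0 := by linarith
    have l0 : HasDerivAt (fun y : ℝ => rho * y) rho y := by
      simpa using (hasDerivAt_id y).const_mul rho
    have l1 : HasDerivAt (fun y : ℝ => 1 - rho * y) (-rho) y := l0.const_sub 1
    refine ((l1.fun_mul (l1.log p1)).fun_add (l0.const_mul 2)).congr_deriv ?_
    field_simp
    ring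
  have key := mono_of_deriv
    (f := fun y : ℝ => (G (y * 1)).re - 2 ^ a / 2 * Lf (1 - a) (1 - rho * y) +
      (1 - a) * ((1 - rho * y) * log (1 - rho * y) + 2 * (rho * y)))
    (f' := fun y => ((q (y * 1)).re - 1) / y - 2 ^ a / 2 * (2 * rho * (1 - rho * y) ^ (-a)) +
      (1 - a) * (rho * (1 - log (1 - rho * y)))) t0
    (((h.ray_cont norm_one le_rfl t1).sub fun y hy =>
      ((Lf_deriv h1 (lt1 y hy.1 hy.2)).const_mul _).continuousAt.continuousWithinAt).add
      fun y hy => ((dP y (lt1 y hy.1 hy.2)).const_mul _).continuousAt.continuousWithinAt)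
    (fun y hy => ((h.ray norm_one hy.1 (hy.2.trans t1)).sub
      ((Lf_deriv h1 (lt1 y hy.1.le hy.2.le)).const_mul _)).add
      ((dP y (lt1 y hy.1.le hy.2.le)).const_mul _)) (fun y hy => ?_)
  · simp only [mul_one, mul_zero, sub_zero, Lf_one, Complex.ofReal_zero, h.G0,
      Complex.zero_re, add_zero, Real.log_one] at key
    have s0 : 0 ≤ rho * t := by positivity
    have s1 := lt1 t t0 le_rfl
    set s := rho * t with hs
    have p1 : 0 < 1 - s := by linarith
    set τ := exp (-((1 - a) * log 2)) with hτ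
    have e1 : ((1 - s) / 2) ^ (1 - a) = (1 - s) ^ (1 - a) * τ := by
      rw [Real.div_rpow p1.le two_pos.le, div_eq_mul_inv, Real.rpow_def_of_pos two_pos, ← exp_neg,
        mul_comm (log 2)]
    have e3 : -((1 - a) * log 2) + 1 ≤ τ := add_one_le_exp _
    have e5 : Lf (1 - a) ((1 - s) / 2) - 2 * log 2 ≤ 2 ^ a / 2 * Lf (1 - a) (1 - s) := by
      rw [Lf, Lf, e1, lg_two, ← hτ]
      refine le_of_mul_le_mul_right ?_ e0
      have c1 : 2 * τ / 2 * (2 * (1 - (1 - s) ^ (1 - a)) / (1 - a)) * (1 - a) =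
          2 * τ - 2 * ((1 - s) ^ (1 - a) * τ) := by
        field_simp
      have c2 : (2 * (1 - (1 - s) ^ (1 - a) * τ) / (1 - a) - 2 * log 2) * (1 - a) =
          2 - 2 * ((1 - s) ^ (1 - a) * τ) - 2 * ((1 - a) * log 2) := by
        field_simp
      rw [c1, c2]
      linarith
    have e6 : (1 - s) * log (1 - s) ≤ 0 :=
      mul_nonpos_of_nonneg_of_nonpos p1.le (Real.log_nonpos p1.le (by linarith))
    have e7 : (1 - a) * ((1 - s) * log (1 - s) + 2 * s) ≤ (1 - a) * 2 :=
      mul_le_mul_of_nonneg_left (by linarith) e0.le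
    linarith
  · have y0 := hy.1
    have y1 := hy.2.trans t1
    have s0 : 0 ≤ rho * y := by positivity
    have s1 := lt1 y y0.le hy.2.le
    have e1 := hq y y0 y1
    rw [lg_Q0 a s0 s1] at e1
    have e2 := lg_pt h0 h1 s0 s1
    have e3 : rho * (2 ^ a * (1 - rho * y) ^ (-a) - (1 - a) * (1 - log (1 - rho * y))) ≤
        ((q (y * 1)).re - 1) / y := by
      rw [le_div_iff₀ y0, mul_one]
      nlinarith
    nlinarith

end Pool.Agent.P.MP_bdc337_an.SO
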