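import Pool.Agent.P.MP_bdc337_an.SO.IfaceB
import Pool.Agent.P.MP_bdc337_an.SO.LowG

/-! Step M8. -/

set_option autoImplicit false

namespace Pool.Agent.P.MP_bdc337_an.SO

open Finset PowerSeries Metric Filter Topology Real
open UO LN KR

theorem m8_growth {a rho : ℝ} {H G : ℂ → ℂ} (r0 : 0 < rho) (r1 : rho ≤ 1) {q : ℂ → ℂ}
    (h : UO.Dat a q H G)
    (hq : ∀ t : ℝ, 0 < t → t < 1 → (UO.Q0 a rho t).re ≤ (q t).re) {t : ℝ} (t0 : 0 ≤ t)
    (t1 : t < 1) :
    UO.Lf (1 - a) ((1 - rho * t) / 2) - 2 * log 2 - 2 * (1 - a) ≤ (G t).re := by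
  have h0 := h.a0
  have h1 := h.a1
  have e0 : 0 < 1 - a := by linarith
  have lt1 : ∀ y : ℝ, 0 ≤ y → y ≤ t → rho * y < 1 := fun y y0 yt => by nlinarith
  have dP : ∀ y : ℝ, rho * y < 1 →
      HasDerivAt (fun y : ℝ => (1 - rho * y) * log (1 - rho * y) + 2 * (rho * y))
        (rho * (1 - log (1 - rho * y))) y := by
    intro y hy
    have p1 : 1 - rho * y ≠ 0 := by linarith
    have l0 : HasDerivAt (fun y : ℝ => rho * y) rho y := by
      simpa using (hasDerivAt_id y).const_mul rho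
    have l1 : HasDerivAt (fun y : ℝ => 1 - rho * y) (-rho) y := l0.const_sub 1
    refine ((l1.fun_mul (l1.log p1)).fun_add (l0.const_mul 2)).congr_deriv ?_
    field_simp
    ring
  have key := mono_of_deriv
    (f := fun y : ℝ => (G (y * 1)).re - 2 ^ a / 2 * Lf (1 - a) (1 - rho * y) +
      (1 - a) * ((1 - rho * y) * log (1 - rho * y) + 2 * (rho * y)))
    (f' := fun y => ((q (y * 1)).re - 1) / y - 2 ^ a / 2 * (2 * rho * (1 - rho * y) ^ (-a)) +
      (1 - a) * (rho * (1 - log (1 - rho * y)))) t0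
    (((h.ray_cont norm_one le_rfl t1).sub fun y hy =>
      ((Lf_deriv h1 (lt1 y hy.1 hy.2)).const_mul _).continuousAt.continuousWithinAt).add
      fun y hy => ((dP y (lt1 y hy.1 hy.2)).const_mul _).continuousAt.continuousWithinAt)
    (fun y hy => ((h.ray norm_one hy.1 (hy.2.trans t1)).sub
      ((Lf_deriv h1 (lt1 y hy.1.le hy.2.le)).const_mul _)).add
      ((dP y (lt1 y hy.1.le hy.2.le)).const_mul _)) (fun y hy => ?_)
  · simp only [mul_one, mul_zero, sub_zero, Lf_one, Complex.ofReal_zero, h.G0,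
      Complex.zero_re, add_zero, Real.log_one] at key
    have s0 : 0 ≤ rho * t := by positivity
    have s1 := lt1 t t0 le_rfl
    set s := rho * t with hs
    have p1 : 0 < 1 - s := by linarith
    set τ := exp (-((1 - a) * log 2)) with hτ
    have e1 : ((1 - s) / 2) ^ (1 - a) = (1 - s) ^ (1 - a) * τ := by
      rw [Real.div_rpow p1.le two_pos.le, div_eq_mul_inv, Real.rpow_def_of_pos two_pos, ← exp_neg,
        mul_comm (log 2)]
    have e3 : -((1 - a) * log 2) + 1 ≤ τ := add_one_le_exp _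
    have e5 : Lf (1 - a) ((1 - s) / 2) - 2 * log 2 ≤ 2 ^ a / 2 * Lf (1 - a) (1 - s) := by
      rw [Lf, Lf, e1, lg_two, ← hτ]
      refine le_of_mul_le_mul_right ?_ e0
      have c1 : 2 * τ / 2 * (2 * (1 - (1 - s) ^ (1 - a)) / (1 - a)) * (1 - a) =
          2 * τ - 2 * ((1 - s) ^ (1 - a) * τ) := by
        field_simp
      have c2 : (2 * (1 - (1 - s) ^ (1 - a) * τ) / (1 - a) - 2 * log 2) * (1 - a) =
          2 - 2 * ((1 - s) ^ (1 - a) * τ) - 2 * ((1 - a) * log 2) := by
        field_simp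
      rw [c1, c2]
      linarith
    have e6 : (1 - s) * log (1 - s) ≤ 0 :=
      mul_nonpos_of_nonneg_of_nonpos p1.le (Real.log_nonpos p1.le (by linarith))
    have e7 : (1 - a) * ((1 - s) * log (1 - s) + 2 * s) ≤ (1 - a) * 2 :=
      mul_le_mul_of_nonneg_left (by linarith) e0.le
    linarith
  · have y0 := hy.1
    have y1 := hy.2.trans t1
    have s0 : 0 ≤ rho * y := by positivity
    have s1 := lt1 y y0.le hy.2.le
    have e1 := hq y y0 y1
    rw [lg_Q0 a s0 s1] at e1
    have e2 := lg_pt h0 h1 s0 s1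
    have e3 : rho * (2 ^ a * (1 - rho * y) ^ (-a) - (1 - a) * (1 - log (1 - rho * y))) ≤
        ((q (y * 1)).re - 1) / y := by
      rw [le_div_iff₀ y0, mul_one]
      nlinarith
    nlinarith

theorem p_M8 :
    S_M8 := by
  intro a H G h t t0 t1
  have key := m8_growth (rho := 1) one_pos le_rfl h (fun s _ _ => by
    have : UO.Q0 a 1 s = qK a s := by simp [UO.Q0, qK, pp]
    rw [this]) t0 t1
  simpa using key

end Pool.Agent.P.MP_bdc337_an.SO
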