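import Pool.Agent.P.MP_bdc337_an.SO.IfaceB

/-! Step M9. -/

set_option autoImplicit false

namespace Pool.Agent.P.MP_bdc337_an.SO

open Finset PowerSeries Metric Filter Topology Real
open UO LN KR

lemma m9_cc {θ : ℝ} (h : 0 < θ) (n : ℕ) :
    cc θ n * Gamma (θ + 1) * Gamma ((n : ℝ) + 1) = Gamma ((n : ℝ) + 1 + θ) := by
  induction n with
  | zero => simp [cc, add_comm]
  | succ n ih =>
    have h1 : (n : ℝ) + 1 ≠ 0 := by positivity
    have h2 : (n : ℝ) + 1 + θ ≠ 0 := by positivity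
    have e1 : ((n + 1 : ℕ) : ℝ) + 1 + θ = ((n : ℝ) + 1 + θ) + 1 := by push_cast; ring
    have e2 : ((n + 1 : ℕ) : ℝ) + 1 = ((n : ℝ) + 1) + 1 := by push_cast; ring
    rw [e1, e2, Gamma_add_one h1, Gamma_add_one h2, ← ih, cc, cc, prod_range_succ]
    field_simp

lemma m9_log {x y : ℝ} (hx : 0 < x) (hy : 0 < y) : log y - log x ≤ (y - x) / x := by
  rw [← log_div hy.ne' hx.ne']
  refine (log_le_sub_one_of_pos (div_pos hy hx)).trans_eq ?_
  field_simp

theorem p_M9 (hW : S_W) :
    S_M9 := by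
  intro θ N h0 h2 hN
  obtain ⟨M, rfl⟩ : ∃ M, N = M + 1 := ⟨N - 1, by omega⟩
  have key := m9_cc h0 M
  rw [Nat.add_sub_cancel]
  have eN : ((M + 1 : ℕ) : ℝ) = (M : ℝ) + 1 := by push_cast; ring
  rw [eN]
  have hM : (1 : ℝ) ≤ (M : ℝ) + 1 := by linarith [(Nat.cast_nonneg M : (0 : ℝ) ≤ M)]
  generalize (M : ℝ) + 1 = x at key hM
  have hx : 0 < x := by linarith
  have hx1 : 0 < x + 1 := by linarith
  have hxθ : 0 < x + θ := by linarith
  have hG : 0 < Gamma x := Gamma_pos_of_pos hx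
  have e : (x + 1) / x * cc θ M * (x + 1) ^ (-θ) * Gamma (θ + 1) =
      exp (log (x + 1) - log x + log (x + 1) * (-θ)) * (cc θ M * Gamma (θ + 1)) := by
    rw [exp_add, exp_sub, exp_log hx1, exp_log hx, rpow_def_of_pos hx1]
    ring
  rw [e]
  generalize cc θ M * Gamma (θ + 1) = A at key
  have hE := exp_pos (log (x + 1) - log x + log (x + 1) * (-θ))
  have hab : log x ≤ log (x + 1) := log_le_log hx (by linarith)
  have hq : 0 ≤ 2 * (2 - θ) / (x + 1) := div_nonneg (by linarith) hx1.le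
  have hq' : 2 * (2 - θ) / (x + 1) = (2 - θ) * (2 / (x + 1)) := by ring
  rcases le_total θ 1 with h1 | h1
  · obtain ⟨w1, w2⟩ := hW x θ hx h0.le h1
    rw [← key] at w1 w2
    have u1 : A ≤ exp (log x * θ) := by
      rw [← rpow_def_of_pos hx]
      exact le_of_mul_le_mul_right w1 hG
    have u2 : exp (log x + log (x + θ) * (θ - 1)) ≤ A := by
      rw [exp_add, exp_log hx, ← rpow_def_of_pos hxθ]
      exact le_of_mul_le_mul_right w2 hG
    have hcb : log (x + θ) ≤ log (x + 1) := log_le_log hxθ (by linarith)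
    have hd : log (x + 1) - log x ≤ 2 / (x + 1) := by
      refine (m9_log hx hx1).trans ?_
      rw [div_le_div_iff₀ hx hx1]
      linarith
    constructor
    · refine le_trans ?_ (mul_le_mul_of_nonneg_left u2 hE.le)
      rw [← exp_add, exp_le_exp]
      nlinarith [mul_nonneg (sub_nonneg.2 h1) (sub_nonneg.2 hcb)]
    · refine (mul_le_mul_of_nonneg_left u1 hE.le).trans ?_
      rw [← exp_add, exp_le_exp, hq']
      nlinarith [mul_le_mul_of_nonneg_left hd (show 0 ≤ 2 - θ by linarith)]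
  · obtain ⟨w1, w2⟩ := hW (x + 1) (θ - 1) hx1 (by linarith) (by linarith)
    have e3 : x + 1 + (θ - 1) = x + θ := by ring
    rw [e3, ← key, Gamma_add_one hx.ne', ← mul_assoc] at w1 w2
    have u1 : A ≤ exp (log (x + 1) * (θ - 1) + log x) := by
      rw [exp_add, exp_log hx, ← rpow_def_of_pos hx1]
      exact le_of_mul_le_mul_right w1 hG
    have u2 : exp (log (x + 1) + log (x + θ) * (θ - 1 - 1) + log x) ≤ A := by
      rw [exp_add, exp_add, exp_log hx, exp_log hx1, ← rpow_def_of_pos hxθ]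
      exact le_of_mul_le_mul_right w2 hG
    have hd : log (x + θ) - log (x + 1) ≤ 2 / (x + 1) := by
      refine (m9_log hx1 hxθ).trans ?_
      exact div_le_div_of_nonneg_right (by linarith) hx1.le
    constructor
    · refine le_trans ?_ (mul_le_mul_of_nonneg_left u2 hE.le)
      rw [← exp_add, exp_le_exp, hq']
      nlinarith [mul_le_mul_of_nonneg_left hd (show 0 ≤ 2 - θ by linarith)]
    · refine (mul_le_mul_of_nonneg_left u1 hE.le).trans ?_
      rw [← exp_add, exp_le_exp]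
      nlinarith

end Pool.Agent.P.MP_bdc337_an.SO
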