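import Pool.Agent.P.MP_bdc337_an.SO.IfaceB

/-! Step W. -/

set_option autoImplicit false

namespace Pool.Agent.P.MP_bdc337_an.SO

open Finset PowerSeries Metric Filter Topology Real
open UO LN KR

theorem w_up (x s : ℝ) (hx : 0 < x) (h0 : 0 ≤ s) (h1 : s ≤ 1) :
    Gamma (x + s) ≤ x ^ s * Gamma x := by
  have hG : 0 < Gamma x := Real.Gamma_pos_of_pos hx
  rcases h0.eq_or_lt with h0 | h0
  · subst h0
    simp
  rcases h1.eq_or_lt with h1 | h1
  · subst h1
    rw [Real.Gamma_add_one hx.ne', Real.rpow_one]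
  have h := Real.Gamma_mul_add_mul_le_rpow_Gamma_mul_rpow_Gamma (s := x) (t := x + 1)
    (a := 1 - s) (b := s) hx (by linarith) (by linarith) h0 (by ring)
  have e1 : (1 - s) * x + s * (x + 1) = x + s := by ring
  rw [e1, Real.Gamma_add_one hx.ne', Real.mul_rpow hx.le hG.le] at h
  have e2 : Gamma x ^ (1 - s) * Gamma x ^ s = Gamma x := by
    rw [← Real.rpow_add hG]
    simp
  calc Gamma (x + s) ≤ Gamma x ^ (1 - s) * (x ^ s * Gamma x ^ s) := h
    _ = x ^ s * (Gamma x ^ (1 - s) * Gamma x ^ s) := by ring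
    _ = x ^ s * Gamma x := by rw [e2]

theorem p_W :
    S_W := by
  intro x s hx h0 h1
  refine ⟨w_up x s hx h0 h1, ?_⟩
  have hxs : 0 < x + s := by linarith
  have h := w_up (x + s) (1 - s) hxs (by linarith) (by linarith)
  have e1 : x + s + (1 - s) = x + 1 := by ring
  rw [e1, Real.Gamma_add_one hx.ne'] at h
  have hp : 0 < (x + s) ^ (s - 1) := Real.rpow_pos_of_pos hxs _
  have e2 : (x + s) ^ (s - 1) * (x + s) ^ (1 - s) = 1 := by
    rw [← Real.rpow_add hxs]
    simp
  calc x * (x + s) ^ (s - 1) * Gamma x = (x + s) ^ (s - 1) * (x * Gamma x) := by ring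
    _ ≤ (x + s) ^ (s - 1) * ((x + s) ^ (1 - s) * Gamma (x + s)) :=
        mul_le_mul_of_nonneg_left h hp.le
    _ = ((x + s) ^ (s - 1) * (x + s) ^ (1 - s)) * Gamma (x + s) := by ring
    _ = Gamma (x + s) := by rw [e2, one_mul]

end Pool.Agent.P.MP_bdc337_an.SO
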