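import Pool.Agent.P.MP_bdc337_an.SO.Fin
import Pool.Agent.P.MP_bdc337_an.SO.TM2
import Pool.Agent.P.MP_bdc337_an.SO.TM3
import Pool.Agent.P.MP_bdc337_an.SO.TM4
import Pool.Agent.P.MP_bdc337_an.SO.TM4A
import Pool.Agent.P.MP_bdc337_an.SO.TM4B
import Pool.Agent.P.MP_bdc337_an.SO.TM5
import Pool.Agent.P.MP_bdc337_an.SO.TM6
import Pool.Agent.P.MP_bdc337_an.SO.TM7
import Pool.Agent.P.MP_bdc337_an.SO.TM8
import Pool.Agent.P.MP_bdc337_an.SO.TM9
import Pool.Agent.P.MP_bdc337_an.SO.TMK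
import Pool.Agent.P.MP_bdc337_an.SO.TW
import Pool.Agent.P.MP_bdc337_an.KR.W

/-! Assembly, uniformly in `n`. -/

set_option autoImplicit false

namespace Pool.Agent.P.MP_bdc337_an.SO

open Finset PowerSeries Metric Filter Topology Real
open UO LN KR

theorem all_MK : S_MK := p_MK p_U1 (p_M3 p_M2) (p_M4 p_M2 p_M4A p_M4B) p_M5 (p_M6 p_M2)
  (p_M7 p_M2 p_M5) p_M8 (p_M9 p_W) p_W

/-- the size of the coefficient bound -/
noncomputable def Ph (a : ℝ) (n : ℕ) : ℝ := a / n * (2 * yy (1 - a) n * Tf (1 - a) (yy (1 - a) n))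

/-- both bounds with the factor `c` -/
def Two (c a : ℝ) (n : ℕ) : Prop :=
  (∃ q H G : ℂ → ℂ, Dat a q H G ∧ Ph a n / c ≤ ‖coeff n (tay fun z => z * Complex.exp (G z))‖) ∧
  ∀ f : ℂ → ℂ, DifferentiableOn ℂ f (ball 0 1) → Set.InjOn f (ball 0 1) → f 0 = 0 →
    deriv f 0 = 1 →
    (∀ z ∈ ball (0 : ℂ) 1, z ≠ 0 → |Complex.arg (z * deriv f z / f z)| < a * π / 2) →
    ‖coeff n (tay f)‖ ≤ c * Ph a n

lemma yy_pos {e : ℝ} (e0 : 0 < e) (n : ℕ) : 0 < yy e n :=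
  lt_of_lt_of_le (by linarith) (le_max_right _ _)

lemma Ph_eq (a : ℝ) (n : ℕ) : Ph a n =
    4 ^ yy (1 - a) n / Gamma (2 * yy (1 - a) n + 1) * (a * Psi (1 - a) n / n) := by
  rw [Ph, Tf, Psi, rpow_sub_one (by norm_num)]
  ring

lemma Ph_nonneg {a : ℝ} (h0 : 0 < a) (h1 : a < 1) (n : ℕ) : 0 ≤ Ph a n := by
  have e0 : 0 < 1 - a := by linarith
  have y0 := yy_pos e0 n
  have := Psi_pos e0 n
  have := Gamma_pos_of_pos (show 0 < 2 * yy (1 - a) n + 1 by linarith)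
  rw [Ph_eq]
  positivity

lemma Two.mono {c c' a : ℝ} {n : ℕ} (h : Two c a n) (h0 : 0 < a) (h1 : a < 1) (c0 : 0 < c)
    (hc : c ≤ c') : Two c' a n := by
  have P0 := Ph_nonneg h0 h1 n
  obtain ⟨⟨q, H, G, hD, hl⟩, hu⟩ := h
  refine ⟨⟨q, H, G, hD, le_trans ?_ hl⟩, fun f a1 a2 a3 a4 a5 => (hu f a1 a2 a3 a4 a5).trans ?_⟩
  · gcongr
  · gcongr

lemma Both.two {c κ a : ℝ} {n : ℕ} (h : Both c a n) (h0 : 0 < a) (h1 : a < 1) (c0 : 0 < c)
    (κ0 : 0 < κ) (k1 : 1 ≤ κ * (4 ^ yy (1 - a) n / Gamma (2 * yy (1 - a) n + 1)))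
    (k2 : 4 ^ yy (1 - a) n / Gamma (2 * yy (1 - a) n + 1) ≤ κ) : Two (c * κ) a n := by
  have P0 := Psi_pos (show 0 < 1 - a by linarith) n
  have X0 : 0 ≤ a * Psi (1 - a) n / n := by positivity
  obtain ⟨⟨q, H, G, hD, hl⟩, hu⟩ := h
  refine ⟨⟨q, H, G, hD, le_trans ?_ hl⟩, fun f a1 a2 a3 a4 a5 => (hu f a1 a2 a3 a4 a5).trans ?_⟩
  · rw [Ph_eq, mul_comm c, ← div_div]
    refine div_le_div_of_nonneg_right ?_ c0.le
    rw [div_le_iff₀' κ0]
    exact mul_le_mul_of_nonneg_right k2 X0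
  · rw [Ph_eq, mul_assoc, ← mul_assoc κ]
    exact mul_le_mul_of_nonneg_left (le_mul_of_one_le_left X0 k1) c0.le

lemma gam_one {s : ℝ} (s0 : 0 ≤ s) (s1 : s ≤ 1) :
    Gamma (s + 1) ≤ 1 ∧ 1 ≤ (1 + s) * Gamma (s + 1) := by
  obtain ⟨w1, w2⟩ := p_W 1 s one_pos s0 s1
  rw [Gamma_one, one_rpow, mul_one, add_comm] at w1
  rw [Gamma_one, mul_one, one_mul, rpow_sub_one (by linarith), div_le_iff₀' (by linarith)] at w2
  rw [add_comm s]
  exact ⟨by rwa [add_comm], (one_le_rpow (by linarith) s0).trans w2⟩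

lemma two_abs : ∃ C : ℝ, 1 ≤ C ∧ ∀ a : ℝ, 0 < a → a < 1 → ∀ n : ℕ, 2 ≤ n → Two C a n := by
  obtain ⟨C, C1, hC⟩ := both_abs
  refine ⟨C * 8, by linarith, fun a h0 h1 n hn => ?_⟩
  have y0 := yy_pos (show 0 < 1 - a by linarith) n
  have y1 : yy (1 - a) n ≤ 1 := max_le (rpow_le_one_of_one_le_of_nonpos
    (by exact_mod_cast (by omega : 1 ≤ n)) (by linarith)) (by linarith)
  have p1 : 1 ≤ (4 : ℝ) ^ yy (1 - a) n := one_le_rpow (by norm_num) y0.le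
  have p2 : (4 : ℝ) ^ yy (1 - a) n ≤ 4 := by
    simpa using rpow_le_rpow_of_exponent_le (x := 4) (by norm_num) y1
  have g : 1 / 2 ≤ Gamma (2 * yy (1 - a) n + 1) ∧ Gamma (2 * yy (1 - a) n + 1) ≤ 2 := by
    generalize yy (1 - a) n = y at *
    rcases le_total (2 * y) 1 with h | h
    · obtain ⟨g1, g2⟩ := gam_one (s := 2 * y) (by linarith) h
      have := Gamma_pos_of_pos (show 0 < 2 * y + 1 by linarith)
      constructor <;> nlinarith
    · obtain ⟨g1, g2⟩ := gam_one (s := 2 * y - 1) (by linarith) (by linarith)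
      have := Gamma_pos_of_pos (show 0 < 2 * y by linarith)
      rw [sub_add_cancel] at g1 g2
      rw [Gamma_add_one (by linarith)]
      constructor <;> nlinarith
  refine (hC a h0 h1 n hn).two h0 h1 (by linarith) (by norm_num) ?_ ?_
  · rw [← mul_div_assoc, le_div_iff₀ (by linarith [g.1])]
    linarith [g.2]
  · rw [div_le_iff₀ (by linarith [g.1])]
    linarith [g.1]

lemma ev_pos {φ : ℝ → ℝ} (hc : ContinuousAt φ 0) (h : 0 < φ 0) :
    ∃ ε : ℝ, 0 < ε ∧ ∀ x, 0 < x → x < ε → 0 < φ x := by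
  obtain ⟨ε, ε0, k⟩ := Metric.eventually_nhds_iff.1 (hc.eventually (lt_mem_nhds h))
  exact ⟨ε, ε0, fun x x0 x1 => k (by rwa [Real.dist_eq, sub_zero, abs_of_pos x0])⟩

lemma two_near {δ : ℝ} (hδ : 0 < δ) : ∃ ε : ℝ, 0 < ε ∧ ∀ a : ℝ, 0 < a → a < 1 → ∀ n : ℕ, 2 ≤ n →
    1 - a < ε → Two ((1 + δ) * (1 + δ)) a n := by
  obtain ⟨ε1, p1, k1⟩ := both_near hδ
  obtain ⟨ε2, p2, k2⟩ := ev_pos (φ := fun y => 1 + δ - 4 ^ y * (1 + 2 * y))
    (continuousAt_const.sub ((continuousAt_const_rpow (by norm_num)).mul (by fun_prop)))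
    (by simpa using hδ)
  obtain ⟨ε, p, l1, l2, l3⟩ : ∃ ε : ℝ, 0 < ε ∧ ε ≤ ε1 ∧ ε ≤ ε2 ∧ ε ≤ 1 / 2 :=
    ⟨min ε1 (min ε2 (1 / 2)), by positivity, min_le_left _ _,
      (min_le_right _ _).trans (min_le_left _ _), (min_le_right _ _).trans (min_le_right _ _)⟩
  obtain ⟨ε3, p3, k3⟩ := ev_pos (φ := fun e => (1 + δ) * (1 - e) - (1 + 10 * e / ε) * exp (60 * e))
    (by fun_prop) (by simpa using hδ)
  obtain ⟨ε4, p4, k4⟩ := ev_pos (φ := fun e => (1 + δ) * ((1 - 4 * e / ε) * exp (-(60 * e))) - 1)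
    (by fun_prop) (by simpa using hδ)
  obtain ⟨c, c0, hc⟩ : ∃ c : ℝ, 0 < c ∧ c = 1 / (8 * (10 ^ 15) ^ 30) / (2 * 10 ^ 30) ^ 61 :=
    ⟨_, by positivity, rfl⟩
  refine ⟨min (min ε (1 / 100)) (min (min ε3 ε4) (c * ε)), by positivity,
    fun a h0 h1 n hn he => ?_⟩
  simp only [lt_min_iff] at he
  obtain ⟨⟨e1, e2⟩, ⟨e3, e4⟩, e5⟩ := he
  have e0 : 0 < 1 - a := by linarith
  have y0 := yy_pos e0 n
  rcases lt_or_ge ((n : ℝ) ^ (-(1 - a))) ε with hν | hν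
  · have y1 : yy (1 - a) n < ε := max_lt hν (by linarith)
    obtain ⟨g1, g2⟩ := gam_one (s := 2 * yy (1 - a) n) (by linarith) (by linarith)
    have g0 := Gamma_pos_of_pos (show 0 < 2 * yy (1 - a) n + 1 by linarith)
    have q1 : 1 ≤ (4 : ℝ) ^ yy (1 - a) n := one_le_rpow (by norm_num) y0.le
    have q2 := k2 _ y0 (y1.trans_le l2)
    refine (k1 a h0 h1 n hn (e1.trans_le l1) (hν.trans_le l1)).two h0 h1 (by linarith)
      (by linarith) ?_ ?_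
    · rw [← mul_div_assoc, le_div_iff₀ g0]
      nlinarith
    · rw [div_le_iff₀ g0]
      nlinarith
  · obtain ⟨N, rfl⟩ : ∃ N, n = N + 1 := ⟨n - 1, by omega⟩
    have ey : yy (1 - a) (N + 1) = ((N : ℝ) + 1) ^ (-(1 - a)) := by
      rw [yy, max_eq_left (by linarith), Nat.cast_succ]
    rw [Nat.cast_succ] at hν
    have n0 : (0 : ℝ) < N + 1 := by positivity
    obtain ⟨m1, m2⟩ := all_MK a _ N e2.le h1 (by omega) rfl
    have hT : (1 - a) * ((N : ℝ) + 1) ^ (1 - a) ≤ c := by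
      have u0 : 0 < ((N : ℝ) + 1) ^ (1 - a) := by positivity
      rw [rpow_neg n0.le, le_inv_comm₀ p u0] at hν
      refine (mul_le_mul e5.le hν u0.le (by positivity)).trans (le_of_eq ?_)
      field_simp
    have eP : Ph a (N + 1) = a * (2 * ((N : ℝ) + 1) ^ (-(1 - a)) *
        Tf (1 - a) (((N : ℝ) + 1) ^ (-(1 - a)))) / (N + 1) := by
      rw [Ph, ey, Nat.cast_succ]
      ring
    have T0 : 0 < Tf (1 - a) (((N : ℝ) + 1) ^ (-(1 - a))) := by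
      have := Gamma_pos_of_pos (show 0 < 2 * ((N : ℝ) + 1) ^ (-(1 - a)) + 1 by positivity)
      unfold Tf
      positivity
    have q3 := k3 _ e0 e3
    have q4 := k4 _ e0 e4
    generalize Tf (1 - a) (((N : ℝ) + 1) ^ (-(1 - a))) = T at *
    generalize ((N : ℝ) + 1) ^ (-(1 - a)) = ν at *
    have ν0 : 0 < ν := by linarith
    have r1 : (1 - a) ≤ (1 - a) / ε * ν := by
      rw [div_mul_eq_mul_div, le_div_iff₀ p]
      exact mul_le_mul_of_nonneg_left hν e0.le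
    obtain ⟨H, G, hD⟩ := datK h0 h1
    refine Two.mono (c := 1 + δ) ⟨⟨_, H, G, hD, ?_⟩, fun f a1 a2 a3 a4 a5 => ?_⟩ h0 h1
      (by linarith) (by nlinarith)
    · rw [coeff_f hD, coeffK hD, Complex.norm_real, Real.norm_of_nonneg (Kc_nonneg h0 N), eP,
        div_right_comm, div_le_iff₀' n0, div_le_iff₀' (by linarith)]
      refine le_trans ?_ (mul_le_mul_of_nonneg_left m1 (by linarith))
      have s1 : 2 * ν * (1 - 4 * (1 - a) / ε) ≤ 2 * ν - 8 * (1 - a) := by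
        rw [mul_div_assoc]
        linarith
      have s2 := mul_le_mul_of_nonneg_right s1 (exp_pos (-(60 * (1 - a)))).le
      have s3 : a * (2 * ν) ≤ (1 + δ) * ((2 * ν - 8 * (1 - a)) * exp (-(60 * (1 - a)))) := by
        nlinarith [mul_le_mul_of_nonneg_left s2 (show 0 ≤ 1 + δ by linarith)]
      nlinarith [mul_le_mul_of_nonneg_right s3 T0.le]
    · obtain ⟨q, H', G', hD', hf⟩ := exists_dat h0 h1 a1 a2 a3 a4 a5
      have e : f =ᶠ[𝓝 0] fun z => z * Complex.exp (G' z) :=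
        Filter.mem_of_superset (ball_mem_nhds 0 one_pos) hf
      rw [tay_congr e]
      refine (upperT hD' h0 h1 (by omega) (hc ▸ hT)).trans ?_
      rw [eP, ← mul_div_assoc, le_div_iff₀' n0]
      refine m2.trans ?_
      have s1 : 2 * ν + 20 * (1 - a) ≤ 2 * ν * (1 + 10 * (1 - a) / ε) := by
        rw [mul_div_assoc]
        linarith
      have s2 := mul_le_mul_of_nonneg_right s1 (exp_pos (60 * (1 - a))).le
      have s3 : (2 * ν + 20 * (1 - a)) * exp (60 * (1 - a)) ≤ (1 + δ) * (a * (2 * ν)) := by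
        nlinarith
      nlinarith [mul_le_mul_of_nonneg_right s3 T0.le]

theorem two_all : ∃ g : ℝ → ℝ, (∀ e, 1 ≤ g e) ∧ (∃ C : ℝ, ∀ e, g e ≤ C) ∧
    Tendsto g (𝓝[>] 0) (𝓝 1) ∧ ∀ a : ℝ, 0 < a → a < 1 → ∀ n : ℕ, 2 ≤ n → Two (g (1 - a)) a n := by
  obtain ⟨C, C1, hC⟩ := two_abs
  set S : ℝ → Set ℝ := fun s => {c | 1 ≤ c ∧ ∀ a : ℝ, 0 < a → a < 1 → ∀ n : ℕ, 2 ≤ n →
    1 - a = s → Two c a n} with hS
  have mem : ∀ s, C ∈ S s := fun s => ⟨C1, fun a h0 h1 n hn _ => hC a h0 h1 n hn⟩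
  have bdd : ∀ s, BddBelow (S s) := fun s => ⟨1, fun c hc => hc.1⟩
  have one : ∀ s, 1 ≤ sInf (S s) := fun s => le_csInf ⟨C, mem s⟩ fun c hc => hc.1
  have m0 : ∀ s : ℝ, 0 ≤ min |s| 1 := fun s => le_min (abs_nonneg s) zero_le_one
  refine ⟨fun s => sInf (S s) + min |s| 1, fun s => by linarith [one s, m0 s],
    ⟨C + 1, fun s => add_le_add (csInf_le (bdd s) (mem s)) (min_le_right _ _)⟩, ?_,
    fun a h0 h1 n hn => ?_⟩
  · refine tendsto_order.2 ⟨fun b hb => Eventually.of_forall fun s => ?_, fun b hb => ?_⟩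
    · linarith [one s, m0 s]
    · obtain ⟨δ, δ0, δ1, δ2⟩ : ∃ δ : ℝ, 0 < δ ∧ δ ≤ 1 ∧ 4 * δ ≤ b - 1 :=
        ⟨min 1 ((b - 1) / 4), lt_min one_pos (by linarith), min_le_left _ _,
          by linarith [min_le_right 1 ((b - 1) / 4)]⟩
      obtain ⟨ε, ε0, h⟩ := two_near δ0
      filter_upwards [Ioo_mem_nhdsGT (lt_min ε0 δ0)] with s hs
      have k : (1 + δ) * (1 + δ) ∈ S s := ⟨by nlinarith, fun a h0 h1 n hn e =>
        h a h0 h1 n hn (e ▸ hs.2.trans_le (min_le_left _ _))⟩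
      have k1 := csInf_le (bdd s) k
      have k2 := min_le_left |s| 1
      rw [abs_of_pos hs.1] at k2 ⊢
      nlinarith [hs.2.trans_le (min_le_right _ _)]
  · have s0 : 0 < min |1 - a| 1 := lt_min (abs_pos.2 (by linarith)) one_pos
    obtain ⟨c, hc, k⟩ := exists_lt_of_csInf_lt ⟨C, mem (1 - a)⟩
      (show sInf (S (1 - a)) < sInf (S (1 - a)) + min |1 - a| 1 by linarith)
    exact (hc.2 a h0 h1 n hn rfl).mono h0 h1 (by linarith [hc.1]) k.le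

end Pool.Agent.P.MP_bdc337_an.SO
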