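import Pool.Agent.P.MP_bdc337_an.LN.Bridge
import Pool.Agent.P.MP_bdc337_an.UO.E

/-! Definitions and the steps of the sharp estimate near order one. -/

set_option autoImplicit false

namespace Pool.Agent.P.MP_bdc337_an.SO

open Finset PowerSeries Metric Filter Topology Real
open UO LN

/-- `max (n ^ (-e)) (e / 2)` -/
noncomputable def yy (e : ℝ) (n : ℕ) : ℝ := max ((n : ℝ) ^ (-e)) (e / 2)

/-- the sharp size of `n |a_n|` -/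
noncomputable def Psi (e : ℝ) (n : ℕ) : ℝ := yy e n / 2 * exp (2 * (1 - yy e n) / e)

/-- the series of `f / z` -/
noncomputable def FF (G : ℂ → ℂ) : ℂ⟦X⟧ := tay fun z => Complex.exp (G z)

/-- upper factor -/
noncomputable def uf (η : ℝ) : ℝ :=
  (1 + η) * (exp (11 * η) * (1 + 2 * η) / (1 - η) + 9072 * η ^ 2)

def S_R3 : Prop := ∀ e η ν t : ℝ, 0 < e → 0 < η → 0 ≤ t → ν - e * η / 2 ≤ t →
  (t + e * η) * exp (-(2 * t / e)) ≤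
    exp η * (1 + 3 * η) * (max ν (e / 2) * exp (-(2 * max ν (e / 2) / e)))

def S_R4 : Prop := ∀ e ν t : ℝ, 0 < e → 0 ≤ t → ν ≤ t →
  (e + t) * exp (2 * (1 - t) / e) ≤ 14 * (max ν (e / 2) / 2 * exp (2 * (1 - max ν (e / 2)) / e))

def S_U1 : Prop := ∀ (a : ℝ) (q H G : ℂ → ℂ), Dat a q H G → ∀ x : ℂ, ‖x‖ = 1 → ∀ t : ℝ, 0 ≤ t →
  t < 1 → (G (t * x)).re ≤ Lf (1 - a) ((1 - t) / 2) - 2 * log 2 + 4 * (1 - a)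

def S_U2 : Prop := ∀ (a : ℝ) (q H G : ℂ → ℂ), Dat a q H G → ∀ N : ℕ, 1 ≤ N →
  (N : ℂ) * coeff N (FF G) = coeff N (tay fun z => m1 N q z * Complex.exp (G z)) +
    1 / (N : ℂ) * coeff N (tay fun z => q z * poly N (fun j => j * coeff j (FF G)) z)

def S_U3 : Prop := ∀ (a : ℝ) (q H G : ℂ → ℂ), Dat a q H G → ∀ N : ℕ, 2 ≤ N → ∀ (c : ℕ → ℂ)
  (B s : ℝ), 0 < B → 0 < s → (∀ j, j < N → ‖c j‖ ≤ B) → 4 * (N : ℝ) ^ (-(1 - a)) ≤ s ^ 2 →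
  ‖coeff N (tay fun z => q z * poly N c z)‖ ≤ 6 * N * B * s

def S_U4 : Prop := ∀ (a : ℝ) (q H G : ℂ → ℂ), Dat a q H G → ∀ N : ℕ, 1 ≤ N → ∀ r lam : ℝ, 0 < r →
  r < 1 → 0 < lam → ‖coeff N (tay fun z => m1 N q z * Complex.exp (G z))‖ * r ^ N ≤
    2 * lam * (1 + (1 - a) * circleAverage (fun z => exp (((G z).re - log lam) / (1 - a))) 0 r)

def S_U5 : Prop := ∀ (a : ℝ) (q H G : ℂ → ℂ), Dat a q H G → ∀ (r η w l : ℝ) (I : ℕ) (d Λ : ℕ → ℝ),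
  0 < r → r < 1 → 0 < η → 0 ≤ w → d 0 = 1 - r → (∀ i, i ≤ I → 1 - r ≤ d i ∧ d i ≤ 1 / 2) →
  (∀ i, i ≤ I → ∀ x : ℂ, ‖x‖ = 1 → (G ((1 - d i : ℝ) * x)).re ≤ Λ i) →
  (∀ i, i < I → exp ((Λ i + η - l) / (1 - a)) ≤ w / d (i + 1)) → Λ I + η ≤ l →
  circleAverage (fun z => exp (((G z).re - l) / (1 - a))) 0 r ≤ 1 + 2 * I * w / η

-- deps: R3 U1 U5
def S_U6 : Prop := ∀ (a : ℝ) (q H G : ℂ → ℂ), Dat a q H G → ∀ (η : ℝ) (N : ℕ), 0 < η →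
  η ≤ 1 / 10 → 1 ≤ N → 1 - a ≤ η ^ 4 → ((N + 1 : ℕ) : ℝ) ^ (-(1 - a)) ≤ η ^ 4 →
  (1 - a) * circleAverage (fun z => exp (((G z).re -
    log (exp (11 * η) * Psi (1 - a) (N + 1) / 2)) / (1 - a))) 0 (1 - η / N) ≤ 2 * η

-- deps: R4 U2 U3 U4 U6
def S_UP : Prop := ∀ (a : ℝ) (q H G : ℂ → ℂ), Dat a q H G → ∀ (η : ℝ) (N : ℕ), 0 < η →
  η ≤ 1 / 10 → 1 ≤ N → 1 - a ≤ η ^ 4 → ((N + 1 : ℕ) : ℝ) ^ (-(1 - a)) ≤ η ^ 4 →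
  ((N + 1 : ℕ) : ℝ) * ‖coeff N (FF G)‖ ≤ uf η * Psi (1 - a) (N + 1)

end Pool.Agent.P.MP_bdc337_an.SO
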