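import Pool.Agent.P.MP_bdc337_an.SO.Iface
import Pool.Agent.P.MP_bdc337_an.KR.E

/-! The steps for the coefficients of the Koebe type function. -/

set_option autoImplicit false

namespace Pool.Agent.P.MP_bdc337_an.SO

open Finset PowerSeries Metric Filter Topology Real
open UO LN KR

/-- slowly decreasing sequence -/
structure Slow (e : ℝ) (b : ℕ → ℝ) : Prop where
  pos : ∀ k, 0 < b k
  anti : ∀ k, b (k + 1) ≤ b k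
  up : b 0 ≤ 2
  var : ∀ k : ℕ, ((k : ℝ) + 2) * (b k - b (k + 1)) ≤ 4 * e

lemma slow_bs {a : ℝ} (h0 : 1 / 2 ≤ a) (h1 : a ≤ 1) : Slow (1 - a) (bs a) :=
  ⟨fun k => (bs_step h0 h1 k).1, fun k => by linarith [(bs_step h0 h1 k).2.1],
    by rw [bs_zero]; linarith, fun k => by
      nlinarith [(bs_step h0 h1 k).2.2, bs_le h0 h1 k, (bs_step h0 h1 k).1]⟩

/-- coefficients of `(1 - z) ^ (-θ - 1)` -/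
noncomputable def cc (θ : ℝ) (n : ℕ) : ℝ := ∏ i ∈ range n, (1 + θ / (i + 1))

def S_M2 : Prop := ∀ (e : ℝ) (b : ℕ → ℝ), Slow e b →
  (∀ N : ℕ, ∑ j ∈ range N, (b j - b N) ≤ 4 * e * N) ∧
  (∀ i j : ℕ, i ≤ j → b j ≤ b i ∧ ((i : ℝ) + 2) * (b i - b j) ≤ 4 * e * (j - i)) ∧
  ∀ k, b k ≤ 2 ∧ 0 ≤ Kc b k

-- deps: M2
def S_M3 : Prop := ∀ (e : ℝ) (b : ℕ → ℝ), Slow e b → ∀ N : ℕ, 1 ≤ N →
  b N * ∑ j ∈ range N, Kc b j ≤ N * Kc b N ∧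
    N * Kc b N ≤ (b N + 20 * e) * ∑ j ∈ range N, Kc b j

def S_M4A : Prop := ∀ (b D : ℕ → ℝ) (θ : ℝ) (n : ℕ), (∀ j, j < n → D j = b j - θ) →
  ∑ j ∈ range (n + 1), Kc b j = ∑ i ∈ range (n + 1), Kc D i * cc θ (n - i)

def S_M4B : Prop := ∀ (D : ℕ → ℝ) (N : ℕ), (∀ j, N ≤ j → D j = 0) →
  HasSum (fun i => Kc D i) (exp (∑ j ∈ range N, D j / (j + 1))) ∧
  HasSum (fun i : ℕ => i * Kc D i) ((∑ j ∈ range N, D j) * exp (∑ j ∈ range N, D j / (j + 1)))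

-- deps: M2 M4A M4B
def S_M4 : Prop := ∀ (e : ℝ) (b : ℕ → ℝ), Slow e b → ∀ N : ℕ, 1 ≤ N →
  (1 - 8 * e) * (cc (b N) (N - 1) * exp (∑ j ∈ range N, (b j - b N) / (j + 1))) ≤
      ∑ j ∈ range N, Kc b j ∧
    ∑ j ∈ range N, Kc b j ≤ cc (b N) (N - 1) * exp (∑ j ∈ range N, (b j - b N) / (j + 1))

def S_M5 : Prop := ∀ (a : ℝ) (H G : ℂ → ℂ), Dat a (qK a) H G → ∀ r : ℝ, 0 ≤ r → r < 1 →
  HasSum (fun j : ℕ => bs a j * r ^ (j + 1) / (j + 1)) (G r).re ∧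
  HasSum (fun j : ℕ => bs a j * r ^ (j + 1)) (((1 + r) / (1 - r)) ^ a - 1)

-- deps: M2
def S_M6 : Prop := ∀ (e : ℝ) (b : ℕ → ℝ), Slow e b → ∀ (N : ℕ) (L : ℝ), 1 ≤ N →
  HasSum (fun j : ℕ => b j * (1 - 1 / ((N : ℝ) + 1)) ^ (j + 1) / (j + 1)) L →
  L - b N * log (N + 1) ≤ ∑ j ∈ range N, (b j - b N) / (j + 1) ∧
    ∑ j ∈ range N, (b j - b N) / (j + 1) ≤ L - b N * log (N + 1) + 8 * e

-- deps: M2 M5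
def S_M7 : Prop := ∀ (a : ℝ) (N : ℕ), 1 / 2 ≤ a → a < 1 → 1 ≤ N →
  2 * ((N : ℝ) + 1) ^ (-(1 - a)) - 8 * (1 - a) ≤ bs a N

def S_M8 : Prop := ∀ (a : ℝ) (H G : ℂ → ℂ), Dat a (qK a) H G → ∀ t : ℝ, 0 ≤ t → t < 1 →
  Lf (1 - a) ((1 - t) / 2) - 2 * log 2 - 2 * (1 - a) ≤ (G t).re

def S_W : Prop := ∀ x s : ℝ, 0 < x → 0 ≤ s → s ≤ 1 →
  Gamma (x + s) ≤ x ^ s * Gamma x ∧ x * (x + s) ^ (s - 1) * Gamma x ≤ Gamma (x + s)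

-- deps: W
def S_M9 : Prop := ∀ (θ : ℝ) (N : ℕ), 0 < θ → θ ≤ 2 → 1 ≤ N →
  exp (-(2 * (2 - θ) / (N + 1))) ≤
      ((N : ℝ) + 1) / N * cc θ (N - 1) * ((N : ℝ) + 1) ^ (-θ) * Gamma (θ + 1) ∧
    ((N : ℝ) + 1) / N * cc θ (N - 1) * ((N : ℝ) + 1) ^ (-θ) * Gamma (θ + 1) ≤
      exp (2 * (2 - θ) / (N + 1))

/-- the main factor -/
noncomputable def Tf (e ν : ℝ) : ℝ := 4 ^ (ν - 1) * exp (2 * (1 - ν) / e) / Gamma (2 * ν + 1)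

-- deps: U1 M3 M4 M5 M6 M7 M8 M9 W
def S_MK : Prop := ∀ (a ν : ℝ) (N : ℕ), 1 - a ≤ 1 / 100 → a < 1 → 1 ≤ N →
  ν = ((N : ℝ) + 1) ^ (-(1 - a)) →
  (2 * ν - 8 * (1 - a)) * exp (-(60 * (1 - a))) * Tf (1 - a) ν ≤ ((N : ℝ) + 1) * Kc (bs a) N ∧
    ((N : ℝ) + 1) * Kc (bs a) N ≤ (2 * ν + 20 * (1 - a)) * exp (60 * (1 - a)) * Tf (1 - a) ν

end Pool.Agent.P.MP_bdc337_an.SO
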