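import Pool.Agent.P.MP_bdc337_an.SO.FinB

/-! The Koebe type function is not extremal beyond the constant two. -/

set_option autoImplicit false

namespace Pool.Agent.P.MP_bdc337_an.SO

open Finset PowerSeries Metric Filter Topology Real
open UO LN KR

lemma kb_rel {a ν : ℝ} {N : ℕ} (h0 : 1 / 2 ≤ a) (h1 : a < 1) (hN : 1 ≤ N)
    (hν : ν = ((N : ℝ) + 1) ^ (-(1 - a))) :
    N * Kc (bs a) N ≤ 2 * ν * (1 + 20 * (1 - a)) * ∑ j ∈ range N, Kc (bs a) j := by
  have a0 : 0 < a := by linarith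
  have e0 : 0 < 1 - a := by linarith
  obtain ⟨-, h2, h3⟩ := p_M2 _ _ (slow_bs h0 h1.le)
  have N1 : (1 : ℝ) ≤ N := by exact_mod_cast hN
  have n0 : (0 : ℝ) < N := by linarith
  have ν0 : 0 < ν := by rw [hν]; positivity
  have θ1 : bs a N ≤ 2 * ν := by
    have := bs_pow a0 h1 N
    rw [← hν] at this
    nlinarith
  have t1 : ∀ j l : ℕ, j ≤ l → ((j : ℝ) + 2) * (bs a j - bs a l) ≤ 2 * (1 - a) * bs a j * (l - j) := by
    intro j l hl
    induction l, hl using Nat.le_induction with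
    | base => simp
    | succ l hl ih =>
      obtain ⟨-, i2, i3⟩ := bs_step h0 h1.le l
      have i4 : (j : ℝ) ≤ l := by exact_mod_cast hl
      have i5 := mul_le_mul_of_nonneg_left (h2 j l hl).1 e0.le
      push_cast
      nlinarith
  have t2 : ∀ M : ℕ, ∑ j ∈ range M, (bs a j - bs a M) ≤ 2 * (1 - a) * ∑ j ∈ range M, bs a j := by
    intro M
    induction M with
    | zero => simp
    | succ M ih =>
      obtain ⟨-, i2, i3⟩ := bs_step h0 h1.le M
      rw [sum_sub_distrib, sum_const, card_range, nsmul_eq_mul] at ih ⊢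
      rw [sum_range_succ]
      push_cast
      nlinarith
  have t3 : ∑ j ∈ range N, (bs a j - bs a N) ≤ 8 * (1 - a) * N * ν := by
    have k1 := bs_sum a0 h1 N
    have k2 : ((N : ℝ) + 1) ^ a = (N + 1) * ν := by
      rw [hν, ← rpow_one_add' (by positivity) (by linarith), show 1 + -(1 - a) = a by ring]
    have k3 : ∑ j ∈ range N, bs a j ≤ 4 * N * ν := by nlinarith
    nlinarith [t2 N, mul_le_mul_of_nonneg_left k3 e0.le]
  set S := ∑ j ∈ range N, Kc (bs a) j with hS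
  have S0 : 0 ≤ S := sum_nonneg fun j _ => (h3 j).2
  have eS : ∑ j ∈ range N, Kc (bs a) (N - 1 - j) = S := sum_range_reflect (fun j => Kc (bs a) j) N
  rw [Kc_eq]
  have key : ∑ j ∈ range N, bs a j * Kc (bs a) (N - 1 - j) ≤ ∑ j ∈ range N,
      ((2 * ν + 8 * (1 - a) * ν) * Kc (bs a) (N - 1 - j) + 4 * S / N * (bs a j - bs a N)) := by
    refine sum_le_sum fun j hj => ?_
    have hj' := mem_range.1 hj
    have d0 := (h2 j N hj'.le).1
    have K0 := (h3 (N - 1 - j)).2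
    have q0 : 0 ≤ 4 * S / N := by positivity
    have j0 : (0 : ℝ) ≤ j := Nat.cast_nonneg j
    by_cases hc : N ≤ 2 * j + 2
    · have c1 : (N : ℝ) ≤ 2 * j + 2 := by exact_mod_cast hc
      have b0 := (bs_step h0 h1.le j).1
      have c0 : bs a j ≤ 4 * ν := by
        have k1 := bs_pow a0 h1 j
        have k2 : ((j : ℝ) + 1) ^ (-(1 - a)) ≤ (((N : ℝ) + 1) / 4) ^ (-(1 - a)) :=
          rpow_le_rpow_of_nonpos (by positivity) (by linarith) (by linarith)
        rw [div_rpow (by positivity) (by norm_num), ← hν,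
          rpow_neg (show (0 : ℝ) ≤ 4 by norm_num), div_inv_eq_mul] at k2
        have k3 : (4 : ℝ) ^ (1 - a) ≤ 4 ^ (1 / 2 : ℝ) :=
          rpow_le_rpow_of_exponent_le (by norm_num) (by linarith)
        rw [← sqrt_eq_rpow, show (4 : ℝ) = 2 ^ 2 by norm_num, sqrt_sq (by norm_num)] at k3
        have k4 : 0 < ((j : ℝ) + 1) ^ (-(1 - a)) := by positivity
        rw [show (4 : ℝ) = 2 ^ 2 by norm_num] at k2
        nlinarith [mul_le_mul_of_nonneg_left k3 ν0.le]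
      have c2 : bs a j - bs a N ≤ 2 * (1 - a) * bs a j := by
        apply le_of_mul_le_mul_left _ (show (0 : ℝ) < j + 2 by linarith)
        have := mul_le_mul_of_nonneg_left (show (N : ℝ) - j ≤ j + 2 by linarith)
          (show 0 ≤ 2 * (1 - a) * bs a j by positivity)
        linarith [t1 j N hj'.le]
      have c3 : bs a j ≤ 2 * ν + 8 * (1 - a) * ν := by
        nlinarith [mul_le_mul_of_nonneg_left c0 e0.le]
      nlinarith [mul_le_mul_of_nonneg_right c3 K0, mul_nonneg q0 (sub_nonneg.2 d0)]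
    · have c1 : (N : ℝ) ≤ 2 * ((N - 1 - j : ℕ) : ℝ) := by
        exact_mod_cast (by omega : N ≤ 2 * (N - 1 - j))
      have c2 := m3_two h3 (show N - 1 - j ≤ N by omega)
      have c3 : Kc (bs a) (N - 1 - j) ≤ 4 * S / N := by
        rw [le_div_iff₀ n0]
        nlinarith [mul_le_mul_of_nonneg_right c1 K0]
      have c4 : 0 ≤ (1 - a) * ν * Kc (bs a) (N - 1 - j) := by positivity
      nlinarith [mul_le_mul_of_nonneg_left c3 (sub_nonneg.2 d0), mul_le_mul_of_nonneg_right θ1 K0]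
  rw [sum_add_distrib, ← mul_sum, ← mul_sum, eS] at key
  have k := mul_le_mul_of_nonneg_left t3 (show 0 ≤ 4 * S / N by positivity)
  have e2 : 4 * S / N * (8 * (1 - a) * N * ν) = 32 * (1 - a) * ν * S := by
    field_simp
    ring
  linarith

lemma kb_sum {a ν : ℝ} {N : ℕ} (he : 1 - a ≤ 1 / 100) (h1 : a < 1) (hN : 1 ≤ N)
    (hν : ν = ((N : ℝ) + 1) ^ (-(1 - a))) :
    ((N : ℝ) + 1) / N * ∑ j ∈ range N, Kc (bs a) j ≤ exp (40 * (1 - a)) * Tf (1 - a) ν := by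
  have h0 : 0 < a := by linarith
  have e0 : 0 < 1 - a := by linarith
  have hs := slow_bs (a := a) (by linarith) h1.le
  have N1 : (1 : ℝ) ≤ N := by exact_mod_cast hN
  have N0 : (0 : ℝ) < N := by linarith
  have n0 : (0 : ℝ) < N + 1 := by linarith
  have ν0 : 0 < ν := by rw [hν]; positivity
  have ν1 : ν ≤ 1 := hν ▸ rpow_le_one_of_one_le_of_nonpos (by linarith) (by linarith)
  have θ0 := hs.pos N
  have θ1 : bs a N ≤ 2 * ν := by
    have := bs_pow h0 h1 N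
    rw [← hν] at this
    nlinarith
  have θ2 := p_M7 p_M2 p_M5 a N (by linarith) h1 hN
  rw [← hν] at θ2
  have b2 := (p_M4 p_M2 p_M4A p_M4B _ _ hs N hN).2
  obtain ⟨H, G, hD⟩ := datK h0 h1
  have i1 : 1 / ((N : ℝ) + 1) ≤ 1 := (div_le_one n0).2 (by linarith)
  have r0 : 0 ≤ 1 - 1 / ((N : ℝ) + 1) := by linarith
  have r1 : 1 - 1 / ((N : ℝ) + 1) < 1 := by linarith [one_div_pos.2 n0]
  have c2 := (p_M6 p_M2 _ _ hs N _ hN (p_M5 a H G hD _ r0 r1).1).2
  have d2 := p_U1 a _ H G hD 1 norm_one _ r0 r1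
  rw [mul_one] at d2
  have f2 := (mk_Lf e0 n0 hν ν1).2
  have g2 := (p_M9 p_W _ N θ0 (by linarith) hN).2
  have g3 : 2 * (2 - bs a N) / (N + 1) ≤ 12 * (1 - a) := by
    have k1 := add_one_le_exp (log ((N : ℝ) + 1) * -(1 - a))
    rw [← rpow_def_of_pos n0, ← hν] at k1
    have k2 := log_le_sub_one_of_pos n0
    rw [div_le_iff₀ n0]
    nlinarith
  have w3 := (mk_gamma p_W (s := 2 * ν - bs a N) (e := 1 - a) θ0 (by linarith) (by linarith)
    (by linarith) he).2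
  rw [show bs a N + 1 + (2 * ν - bs a N) = 2 * ν + 1 by ring] at w3
  have Γ0 : 0 < Gamma (bs a N + 1) := Gamma_pos_of_pos (by linarith)
  have Γ1 : 0 < Gamma (2 * ν + 1) := Gamma_pos_of_pos (by linarith)
  have eT : Tf (1 - a) ν = exp ((ν - 1) * log 4 + 2 * (1 - ν) / (1 - a)) / Gamma (2 * ν + 1) := by
    rw [Tf, rpow_def_of_pos (by norm_num), exp_add, mul_comm (log 4)]
  rw [rpow_def_of_pos n0] at g2
  rw [eT]
  refine (mul_le_mul_of_nonneg_left b2 (by positivity)).trans ?_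
  have k2 := g2.trans (exp_le_exp.2 g3)
  have k3 : ∑ j ∈ range N, (bs a j - bs a N) / (j + 1) ≤ log ((N : ℝ) + 1) * -bs a N +
      ((ν - 1) * log 4 + 2 * (1 - ν) / (1 - a) + 12 * (1 - a)) := by linarith
  have c0 : 0 ≤ cc (bs a N) (N - 1) := prod_nonneg fun i _ => by positivity
  generalize (ν - 1) * log 4 + 2 * (1 - ν) / (1 - a) = Λ at *
  generalize ∑ j ∈ range N, (bs a j - bs a N) / (j + 1) = Z at *
  generalize cc (bs a N) (N - 1) = c at *
  generalize Gamma (bs a N + 1) = γ0 at *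
  generalize Gamma (2 * ν + 1) = γ1 at *
  have k4 := exp_le_exp.2 k3
  rw [exp_add] at k4
  rw [← mul_div_assoc, le_div_iff₀ Γ1]
  calc ((N : ℝ) + 1) / N * (c * exp Z) * γ1
      ≤ ((N : ℝ) + 1) / N * (c * (exp (log ((N : ℝ) + 1) * -bs a N) * exp (Λ + 12 * (1 - a)))) *
        (exp (16 * (1 - a)) * γ0) := by gcongr
    _ = ((N : ℝ) + 1) / N * c * exp (log ((N : ℝ) + 1) * -bs a N) * γ0 *
        (exp (Λ + 12 * (1 - a)) * exp (16 * (1 - a))) := by ring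
    _ ≤ exp (12 * (1 - a)) * (exp (Λ + 12 * (1 - a)) * exp (16 * (1 - a))) := by gcongr
    _ = _ := by
        simp only [← exp_add]
        congr 1
        ring

/-- some function of the class beats the Koebe type function -/
def Beat (a : ℝ) (N : ℕ) : Prop := ∃ q H G : ℂ → ℂ, Dat a q H G ∧
  Kc (bs a) N < ‖coeff (N + 1) (tay fun z => z * Complex.exp (G z))‖

lemma kb_near {C : ℝ} (hC : 2 < C) : ∃ ε : ℝ, 0 < ε ∧ ∀ a : ℝ, 0 < a → a < 1 → ∀ N : ℕ, 1 ≤ N →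
    1 - a < ε → C ≤ (1 - a) * ((N + 1 : ℕ) : ℝ) ^ (1 - a) → Beat a N := by
  obtain ⟨l, l0, l1, hl⟩ : ∃ l : ℝ, 0 < l ∧ l < 1 ∧ l * C = 2 :=
    ⟨2 / C, by positivity, (div_lt_one (by linarith)).2 hC, by field_simp⟩
  have ρ1 : l * exp (1 - l) < 1 := by
    have := add_one_lt_exp (show l - 1 ≠ 0 by linarith)
    rw [← neg_sub l 1, exp_neg, ← div_eq_mul_inv, div_lt_one (exp_pos _)]
    linarith
  obtain ⟨ε2, p2, k2⟩ := ev_pos (φ := fun e => 1 - e - l * exp (1 - l) *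
    ((1 + 20 * e) * exp (40 * e) * (4 ^ e * (1 + 2 * e)) * (1 + e)))
    ((continuousAt_const.sub continuousAt_id).sub (continuousAt_const.mul
      ((ContinuousAt.mul (by fun_prop) ((continuousAt_const_rpow (by norm_num)).mul
        (by fun_prop))).mul (by fun_prop)))) (by simpa using ρ1)
  obtain ⟨δ, δ0, δ1, δ2⟩ : ∃ δ : ℝ, 0 < δ ∧ δ < ε2 ∧ δ ≤ 1 / 100 :=
    ⟨min (ε2 / 2) (1 / 100), by positivity, (min_le_left _ _).trans_lt (by linarith),
      min_le_right _ _⟩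
  obtain ⟨ε1, p1, k1⟩ := both_near δ0
  refine ⟨min ε1 δ, by positivity, fun a h0 h1 N hN he hc => ?_⟩
  obtain ⟨e1, e2⟩ := lt_min_iff.1 he
  have e0 : 0 < 1 - a := by linarith
  have n0 : (0 : ℝ) < N + 1 := by positivity
  have N0 : (0 : ℝ) < N := by exact_mod_cast hN
  rw [Nat.cast_succ] at hc
  obtain ⟨ν, hν⟩ : ∃ ν, ν = ((N : ℝ) + 1) ^ (-(1 - a)) := ⟨_, rfl⟩
  have ν0 : 0 < ν := by rw [hν]; positivity
  have ν1 : 2 * ν ≤ l * (1 - a) := by
    have : ν * ((N : ℝ) + 1) ^ (1 - a) = 1 := by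
      rw [hν, ← rpow_add n0, neg_add_cancel, rpow_zero]
    nlinarith [mul_le_mul_of_nonneg_left hc (mul_pos l0 ν0).le]
  have ν2 : 2 * ν ≤ 1 - a := by nlinarith
  obtain ⟨q, H, G, hD, h⟩ := (k1 a h0 h1 (N + 1) (by omega) e1
    (by rw [Nat.cast_succ, ← hν]; linarith)).1
  refine ⟨q, H, G, hD, lt_of_lt_of_le ?_ h⟩
  have m1 := kb_rel (by linarith) h1 hN hν
  have m2 := kb_sum (by linarith) h1 hN hν
  have m3 : ((N : ℝ) + 1) * Kc (bs a) N ≤
      2 * ν * (1 + 20 * (1 - a)) * (exp (40 * (1 - a)) * Tf (1 - a) ν) := by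
    calc ((N : ℝ) + 1) * Kc (bs a) N = ((N : ℝ) + 1) / N * (N * Kc (bs a) N) := by field_simp
      _ ≤ ((N : ℝ) + 1) / N * (2 * ν * (1 + 20 * (1 - a)) * ∑ j ∈ range N, Kc (bs a) j) := by
          gcongr
      _ = 2 * ν * (1 + 20 * (1 - a)) * (((N : ℝ) + 1) / N * ∑ j ∈ range N, Kc (bs a) j) := by ring
      _ ≤ _ := by gcongr
  have ey : yy (1 - a) (N + 1) = (1 - a) / 2 := by
    rw [yy, Nat.cast_succ, ← hν, max_eq_right (by linarith)]
  have g2 := (gam_one (s := 2 * ν) (by linarith) (by linarith)).2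
  have g0 := Gamma_pos_of_pos (show 0 < 2 * ν + 1 by linarith)
  have u1 : 4 ^ ν / Gamma (2 * ν + 1) ≤ 4 ^ δ * (1 + 2 * δ) := by
    have v1 : (4 : ℝ) ^ ν ≤ 4 ^ δ := rpow_le_rpow_of_exponent_le (by norm_num) (by linarith)
    have v2 : 1 ≤ (1 + 2 * δ) * Gamma (2 * ν + 1) := by nlinarith
    have v3 : 0 < (4 : ℝ) ^ δ := by positivity
    rw [div_le_iff₀ g0]
    nlinarith
  have u2 : 2 * ν * exp (2 * (1 - ν) / (1 - a)) ≤
      l * exp (1 - l) * ((1 - a) * exp (2 * (1 - (1 - a) / 2) / (1 - a))) := by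
    obtain ⟨x, hx⟩ : ∃ x, x = 2 * ν / (1 - a) := ⟨_, rfl⟩
    have x0 : 0 < x := by rw [hx]; positivity
    have x1 : x ≤ l := by rw [hx, div_le_iff₀ e0]; exact ν1
    have v1 : x * exp (l - x) ≤ l := by
      have v2 := mul_le_mul_of_nonneg_left (add_one_le_exp (x - l)) (exp_pos (l - x)).le
      rw [← exp_add, sub_add_sub_cancel, sub_self, exp_zero] at v2
      nlinarith [exp_pos (l - x), mul_nonneg (sub_nonneg.2 x1) (sub_nonneg.2 l1.le)]
    have v3 : exp (2 * (1 - ν) / (1 - a)) =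
        exp (l - x) * (exp (1 - l) * exp (2 * (1 - (1 - a) / 2) / (1 - a))) := by
      simp only [← exp_add]
      congr 1
      rw [hx]
      field_simp
      ring
    have v4 : 2 * ν = x * (1 - a) := by rw [hx]; field_simp
    rw [v3, v4]
    nlinarith [mul_le_mul_of_nonneg_right v1 (show 0 ≤ (1 - a) *
      (exp (1 - l) * exp (2 * (1 - (1 - a) / 2) / (1 - a))) by positivity)]
  have q2 := k2 δ δ0 δ1
  rw [Psi, ey, Nat.cast_succ, div_right_comm, lt_div_iff₀' n0, lt_div_iff₀ (by linarith)]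
  have E0 := exp_pos (2 * (1 - (1 - a) / 2) / (1 - a))
  calc ((N : ℝ) + 1) * Kc (bs a) N * (1 + δ)
      ≤ 2 * ν * (1 + 20 * (1 - a)) * (exp (40 * (1 - a)) * Tf (1 - a) ν) * (1 + δ) := by gcongr
    _ = 2 * ν * exp (2 * (1 - ν) / (1 - a)) / 4 * ((1 + 20 * (1 - a)) * exp (40 * (1 - a)) *
        (4 ^ ν / Gamma (2 * ν + 1)) * (1 + δ)) := by
        rw [Tf, rpow_sub_one (by norm_num)]
        ring
    _ ≤ l * exp (1 - l) * ((1 - a) * exp (2 * (1 - (1 - a) / 2) / (1 - a))) / 4 *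
        ((1 + 20 * δ) * exp (40 * δ) * (4 ^ δ * (1 + 2 * δ)) * (1 + δ)) := by gcongr
    _ = l * exp (1 - l) * ((1 + 20 * δ) * exp (40 * δ) * (4 ^ δ * (1 + 2 * δ)) * (1 + δ)) *
        ((1 - a) / 2 / 2 * exp (2 * (1 - (1 - a) / 2) / (1 - a))) := by ring
    _ < _ := mul_lt_mul_of_pos_right (by linarith) (by positivity)

theorem kb_all : ∃ C : ℝ → ℝ, (∃ B : ℝ, ∀ e, C e ≤ B) ∧ Tendsto C (𝓝[>] 0) (𝓝 2) ∧
    ∀ a : ℝ, 0 < a → a < 1 → ∀ N : ℕ, 1 ≤ N →
      C (1 - a) ≤ (1 - a) * ((N + 1 : ℕ) : ℝ) ^ (1 - a) → Beat a N := by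
  obtain ⟨B, B2, hB⟩ : ∃ B : ℝ, 2 ≤ B ∧ ∀ a : ℝ, 0 < a → a < 1 → ∀ N : ℕ,
      B ≤ (1 - a) * ((N + 1 : ℕ) : ℝ) ^ (1 - a) → Beat a N :=
    ⟨960000000 * exp (2 * log 2 + 2), by linarith [one_le_exp (show 0 ≤ 2 * log 2 + 2 by positivity)],
      fun a h0 h1 N h => by
        obtain ⟨H, G, hD⟩ := datK h0 h1
        exact notK hD h⟩
  set S : ℝ → Set ℝ := fun s => {c | 2 ≤ c ∧ ∀ a : ℝ, 0 < a → a < 1 → ∀ N : ℕ, 1 ≤ N → 1 - a = s →
    c ≤ (1 - a) * ((N + 1 : ℕ) : ℝ) ^ (1 - a) → Beat a N} with hS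
  have mem : ∀ s, B ∈ S s := fun s => ⟨B2, fun a h0 h1 N _ _ => hB a h0 h1 N⟩
  have bdd : ∀ s, BddBelow (S s) := fun s => ⟨2, fun c hc => hc.1⟩
  have two : ∀ s, 2 ≤ sInf (S s) := fun s => le_csInf ⟨B, mem s⟩ fun c hc => hc.1
  have m0 : ∀ s : ℝ, 0 ≤ min |s| 1 := fun s => le_min (abs_nonneg s) zero_le_one
  refine ⟨fun s => sInf (S s) + min |s| 1,
    ⟨B + 1, fun s => add_le_add (csInf_le (bdd s) (mem s)) (min_le_right _ _)⟩, ?_,
    fun a h0 h1 N hN h => ?_⟩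
  · refine tendsto_order.2 ⟨fun b hb => Eventually.of_forall fun s => ?_, fun b hb => ?_⟩
    · linarith [two s, m0 s]
    · obtain ⟨ε, ε0, h⟩ := kb_near (C := 2 + (b - 2) / 2) (by linarith)
      filter_upwards [Ioo_mem_nhdsGT (lt_min ε0 (show 0 < (b - 2) / 2 by linarith))] with s hs
      have k : 2 + (b - 2) / 2 ∈ S s := ⟨by linarith, fun a h0 h1 N hN e =>
        h a h0 h1 N hN (e ▸ hs.2.trans_le (min_le_left _ _))⟩
      have k1 := csInf_le (bdd s) k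
      have k2 := min_le_left |s| 1
      rw [abs_of_pos hs.1] at k2 ⊢
      linarith [hs.2.trans_le (min_le_right _ _)]
  · have s0 : 0 < min |1 - a| 1 := lt_min (abs_pos.2 (by linarith)) one_pos
    obtain ⟨c, hc, k⟩ := exists_lt_of_csInf_lt ⟨B, mem (1 - a)⟩
      (show sInf (S (1 - a)) < sInf (S (1 - a)) + min |1 - a| 1 by linarith)
    exact hc.2 a h0 h1 N hN rfl (k.le.trans h)

end Pool.Agent.P.MP_bdc337_an.SO
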