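import Pool.Agent.P.MP_bdc337_an.UO.E

/-! Sharp lower bound: the test function has its values in the sector. -/

set_option autoImplicit false

open Finset PowerSeries Metric Filter Topology Real
open scoped ComplexOrder

namespace Pool.Agent.P.MP_bdc337_an.SO.Lw

open Pool.Agent.P.MP_bdc337_an.UO

variable {a r : ℝ} {z : ℂ}

lemma cden_ge (r0 : 0 ≤ r) (hz : ‖z‖ ≤ 1) : 1 - r ≤ ‖1 - (r : ℂ) * z‖ := by
  have := norm_sub_norm_le (1 : ℂ) (r * z)
  rw [norm_one, norm_mul, Complex.norm_real, Real.norm_of_nonneg r0] at this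
  linarith [mul_le_of_le_one_right r0 hz]

lemma cden_ne (r0 : 0 ≤ r) (r1 : r < 1) (hz : ‖z‖ ≤ 1) : 1 - (r : ℂ) * z ≠ 0 :=
  norm_pos_iff.1 (by linarith [cden_ge r0 hz])

lemma cpp_re (r : ℝ) (z : ℂ) :
    (pp r z).re = (1 - r ^ 2 * ‖z‖ ^ 2) / ‖1 - (r : ℂ) * z‖ ^ 2 := by
  rw [pp, Complex.div_re, ← add_div, Complex.sq_norm, Complex.sq_norm, Complex.normSq_apply z]
  congr 1
  simp
  ring

lemma cpp_pos (r0 : 0 ≤ r) (r1 : r < 1) (hz : ‖z‖ ≤ 1) : 0 < (pp r z).re := by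
  rw [cpp_re]
  refine div_pos ?_ (pow_pos (norm_pos_iff.2 (cden_ne r0 r1 hz)) 2)
  have h1 : ‖z‖ ^ 2 ≤ 1 := pow_le_one₀ (norm_nonneg _) hz
  have h2 : r ^ 2 < 1 := pow_lt_one₀ r0 r1 two_ne_zero
  nlinarith [sq_nonneg r]

lemma cpp_norm (r0 : 0 ≤ r) (r1 : r < 1) (hz : ‖z‖ ≤ 1) : ‖pp r z‖ ≤ 2 / (1 - r) := by
  have := norm_add_le (1 : ℂ) (r * z)
  rw [norm_one, norm_mul, Complex.norm_real, Real.norm_of_nonneg r0] at this
  rw [pp, norm_div]
  exact div_le_div₀ two_pos.le (by linarith [mul_le_of_le_one_right r0 hz]) (by linarith)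
    (cden_ge r0 hz)

lemma cQ0_diff (r0 : 0 ≤ r) (r1 : r < 1) : DifferentiableOn ℂ (Q0 a r) (closedBall 0 1) := by
  have l : DifferentiableOn ℂ (pp r) (closedBall 0 1) :=
    DifferentiableOn.div (by fun_prop) (by fun_prop)
      fun z hz => cden_ne r0 r1 (mem_closedBall_zero_iff.1 hz)
  exact ((l.clog fun z hz => Or.inl (cpp_pos r0 r1 (mem_closedBall_zero_iff.1 hz))).const_mul
    (a : ℂ)).cexp

lemma side (h0 : 0 < a) (h1 : a < 1) {p : ℂ} (hp : 0 < p.re) :
    a * ‖p‖ ^ (a - 1) * p.re ≤ (Complex.exp (a * Complex.log p)).re * sin (a * π / 2) +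
      (Complex.exp (a * Complex.log p)).im * cos (a * π / 2) ∧
    a * ‖p‖ ^ (a - 1) * p.re ≤ (Complex.exp (a * Complex.log p)).re * sin (a * π / 2) +
      (Complex.exp (a * Complex.log p)).im * -cos (a * π / 2) := by
  have hpi := pi_pos
  have hv : p ≠ 0 := fun e => by simp [e] at hp
  have nv := norm_pos_iff.2 hv
  have b := abs_lt.1 (Complex.abs_arg_lt_pi_div_two_iff.2 (Or.inl hp))
  have e0 : a * ‖p‖ ^ (a - 1) * p.re = ‖p‖ ^ a * (a * cos p.arg) := by
    rw [Complex.cos_arg hv, rpow_sub_one nv.ne']; field_simp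
  have e1 : exp (a * log ‖p‖) = ‖p‖ ^ a := by rw [rpow_def_of_pos nv, mul_comm]
  have R0 : 0 < ‖p‖ ^ a := rpow_pos_of_pos nv _
  have m1 := sin_mul_ge h0 h1 (x := π / 2 + p.arg) (by linarith) (by linarith)
  have m2 := sin_mul_ge h0 h1 (x := π / 2 - p.arg) (by linarith) (by linarith)
  rw [sin_pi_div_two_sub, mul_sub, sin_sub, ← mul_div_assoc] at m2
  rw [add_comm, sin_add_pi_div_two, mul_add, sin_add, ← mul_div_assoc] at m1
  rw [e0]
  simp only [Complex.exp_re, Complex.exp_im, Complex.re_ofReal_mul, Complex.im_ofReal_mul,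
    Complex.log_re, Complex.log_im, e1]
  constructor
  · nlinarith [mul_le_mul_of_nonneg_left m1 R0.le]
  · nlinarith [mul_le_mul_of_nonneg_left m2 R0.le]

lemma circ_side {s c c' k : ℝ} {w : ℂ} (hw : ‖w‖ = 1) (c0 : 0 < c) (hs : s ^ 2 + c ^ 2 = 1)
    (hk : k * (1 + c) = s) (hc : |c'| = c) (hn : 1 - (k : ℂ) * w ≠ 0) :
    -((1 + c) / 2) ≤ (w / (1 - k * w)).re * s + (w / (1 - k * w)).im * c' := by
  have D0 := Complex.normSq_pos.2 hn
  have n1 : w.re * w.re + w.im * w.im = 1 := by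
    rw [← Complex.normSq_apply, ← Complex.sq_norm, hw, one_pow]
  have ks : k * s = 1 - c := by
    apply mul_left_cancel₀ (show 1 + c ≠ 0 by linarith)
    linear_combination s * hk + hs
  have y1 : |w.im| ≤ 1 := hw ▸ Complex.abs_im_le_norm w
  have y2 : -c ≤ w.im * c' := by
    have : |w.im * c'| ≤ c := by
      rw [abs_mul, hc]
      exact mul_le_of_le_one_left c0.le y1
    exact (abs_le.1 this).1
  have eD : Complex.normSq (1 - k * w) = 1 - 2 * k * w.re + k ^ 2 := by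
    rw [Complex.normSq_apply]
    simp
    linear_combination k ^ 2 * n1
  have e1 : (w / (1 - k * w)).re = (w.re - k) / Complex.normSq (1 - k * w) := by
    rw [Complex.div_re, ← add_div]
    congr 1
    simp
    linear_combination (-k) * n1
  have e2 : (w / (1 - k * w)).im = w.im / Complex.normSq (1 - k * w) := by
    rw [Complex.div_im, ← sub_div]
    congr 1
    simp
    ring
  rw [e1, e2, div_mul_eq_mul_div, div_mul_eq_mul_div, ← add_div, le_div_iff₀ D0, eD]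
  have : (w.re - k) * s + w.im * c' + (1 + c) / 2 * (1 - 2 * k * w.re + k ^ 2) =
      c + w.im * c' := by
    linear_combination (-w.re + k / 2) * hk - ks / 2
  linarith

lemma re_pos_in {f : ℂ → ℂ} (hf : DifferentiableOn ℂ f (closedBall 0 1)) {s c : ℝ}
    (h : ∀ u : ℂ, ‖u‖ = 1 → 0 < (f u).re * s + (f u).im * c) (hz : z ∈ ball (0 : ℂ) 1) :
    0 < (f z).re * s + (f z).im * c := by
  set g : ℂ → ℂ := fun z => Complex.exp (-(f z * (s - c * Complex.I))) with hg
  have gd : DifferentiableOn ℂ g (closedBall 0 1) := (hf.mul_const _).neg.cexp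
  have gn : ∀ u, ‖g u‖ = exp (-((f u).re * s + (f u).im * c)) := fun u => by
    rw [hg, Complex.norm_exp]
    simp
  obtain ⟨u, hu, hm⟩ := Complex.exists_mem_frontier_isMaxOn_norm (f := g) isBounded_ball
    (nonempty_ball.2 one_pos) (DifferentiableOn.diffContOnCl (by rwa [closure_ball _ one_ne_zero]))
  rw [frontier_ball _ one_ne_zero] at hu
  have h1 : ‖g z‖ ≤ ‖g u‖ := hm (subset_closure hz)
  rw [gn, gn, exp_le_exp] at h1
  linarith [h u (by simpa using hu)]

/-- the truncated kernel -/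
noncomputable def Ap (r : ℝ) (d : ℕ) (z : ℂ) : ℂ := ∑ j ∈ range (d + 1), ((r ^ j : ℝ) : ℂ) * z ^ j

/-- its reflection -/
noncomputable def Bp (r : ℝ) (d : ℕ) (z : ℂ) : ℂ :=
  ∑ j ∈ range (d + 1), ((r ^ (d - j) : ℝ) : ℂ) * z ^ j

lemma Ap_diff (r : ℝ) (d : ℕ) : Differentiable ℂ (Ap r d) := by unfold Ap; fun_prop

lemma Bp_diff (r : ℝ) (d : ℕ) : Differentiable ℂ (Bp r d) := by unfold Bp; fun_prop

lemma Bp_circ (r : ℝ) (d : ℕ) (hz : ‖z‖ = 1) :
    Bp r d z = z ^ d * (starRingEnd ℂ) (Ap r d z) := by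
  have h1 : z * (starRingEnd ℂ) z = 1 := by
    rw [Complex.mul_conj, ← Complex.sq_norm, hz]; simp
  rw [Bp, Ap, ← sum_range_reflect, map_sum, mul_sum]
  refine sum_congr rfl fun j hj => ?_
  have hj' : j ≤ d := Nat.lt_succ_iff.1 (mem_range.1 hj)
  rw [show d + 1 - 1 - j = d - j by omega, show d - (d - j) = j by omega, map_mul, map_pow,
    Complex.conj_ofReal]
  conv_rhs => rw [← Nat.sub_add_cancel hj', pow_add]
  have : z ^ j * (starRingEnd ℂ) z ^ j = 1 := by rw [← mul_pow, h1, one_pow]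
  linear_combination (-((r ^ j : ℝ) : ℂ) * z ^ (d - j)) * this

lemma Ap_le (r0 : 0 ≤ r) (d : ℕ) (hz : ‖z‖ = 1) :
    ‖Ap r d z‖ * ‖1 - (r : ℂ) * z‖ ≤ 1 + r ^ (d + 1) := by
  have e : Ap r d z * (1 - (r : ℂ) * z) = 1 - ((r : ℂ) * z) ^ (d + 1) := by
    rw [← geom_sum_mul_neg, Ap]
    congr 1
    exact sum_congr rfl fun j _ => by rw [mul_pow]; push_cast; rfl
  rw [← norm_mul, e]
  refine (norm_sub_le _ _).trans (le_of_eq ?_)
  rw [norm_one, norm_pow, norm_mul, hz, Complex.norm_real, Real.norm_of_nonneg r0, mul_one]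

/-- the test function -/
noncomputable def qT (a r A k : ℝ) (d : ℕ) (z : ℂ) : ℂ :=
  Q0 a r z + ((A * (1 - r ^ 2) : ℝ) : ℂ) * (z * (Ap r d z * Bp r d z)) / (1 - k * z ^ (d + 1))

lemma qT_dat (h0 : 0 < a) (h1 : a < 1) (r0 : 0 ≤ r) (r1 : r < 1) {d : ℕ} {β A : ℝ}
    (hβ : r ^ (d + 1) ≤ β)
    (hA : A = 2 * a * ((1 - r) / 2) ^ (1 - a) / ((1 + 2 * (1 - a)) * (1 + β) ^ 2)) :
    ∃ k : ℝ, 0 ≤ k ∧ k < 1 ∧ ∃ H G, Dat a (qT a r A k d) H G := by
  have hpi := pi_pos
  have e0 : 0 < 1 - a := by linarith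
  have β0 : 0 ≤ β := (pow_nonneg r0 _).trans hβ
  set s := sin (a * π / 2) with hs
  set c := cos (a * π / 2) with hc
  have g0 : 0 < a * π / 2 := by positivity
  have g1 : a * π / 2 < π / 2 := by nlinarith
  have s0 : 0 < s := sin_pos_of_pos_of_lt_pi g0 (by linarith)
  have c0 : 0 < c := cos_pos_of_mem_Ioo ⟨by linarith, g1⟩
  have sc : s ^ 2 + c ^ 2 = 1 := sin_sq_add_cos_sq _
  have c1 : c < 2 * (1 - a) := by
    have h2 : c = sin ((1 - a) * π / 2) := by
      rw [hc, ← sin_pi_div_two_sub]; congr 1; ring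
    have h3 := sin_le (x := (1 - a) * π / 2) (by positivity)
    nlinarith [pi_lt_four]
  set k := s / (1 + c) with hk
  have hk' : k * (1 + c) = s := by rw [hk]; field_simp
  have k0 : 0 ≤ k := by positivity
  have k1 : k < 1 := by
    rw [hk, div_lt_one (by linarith)]
    linarith [sin_le_one (a * π / 2)]
  have kn : ∀ z : ℂ, ‖z‖ ≤ 1 → 1 - (k : ℂ) * z ^ (d + 1) ≠ 0 := fun z hz =>
    cden_ne k0 k1 (by rw [norm_pow]; exact pow_le_one₀ (norm_nonneg _) hz)
  have Y0 : 0 < ((1 - r) / 2) ^ (1 - a) := rpow_pos_of_pos (by linarith) _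
  have A0 : 0 < A := by rw [hA]; positivity
  have qd : DifferentiableOn ℂ (qT a r A k d) (closedBall 0 1) := by
    have := Ap_diff r d
    have := Bp_diff r d
    exact (cQ0_diff r0 r1).add (DifferentiableOn.div (Differentiable.differentiableOn (by fun_prop))
      (by fun_prop) fun z hz => kn z (mem_closedBall_zero_iff.1 hz))
  have key : ∀ c' : ℝ, |c'| = c → ∀ u : ℂ, ‖u‖ = 1 →
      a * ‖pp r u‖ ^ (a - 1) * (pp r u).re ≤ (Q0 a r u).re * s + (Q0 a r u).im * c' →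
      0 < (qT a r A k d u).re * s + (qT a r A k d u).im * c' := fun c' hc' u hu hQ => by
    have v0 := norm_pos_iff.2 (cden_ne r0 r1 hu.le)
    have p0 := cpp_pos r0 r1 hu.le
    have b1 := cpp_re r u
    rw [hu, one_pow, mul_one] at b1
    have b2 := cpp_norm r0 r1 hu.le
    have b3 := (Ap_le r0 d hu).trans (add_le_add_right hβ 1)
    have b4 : ((1 - r) / 2) ^ (1 - a) ≤ ‖pp r u‖ ^ (a - 1) := by
      refine le_trans (le_of_eq ?_) (rpow_le_rpow_of_nonpos (norm_pos_iff.2 fun e => by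
        simp [e] at p0) b2 (by linarith))
      rw [← neg_sub 1 a, rpow_neg (by apply div_nonneg <;> linarith),
        ← inv_rpow (by apply div_nonneg <;> linarith), inv_div]
    have r2 : 0 < 1 - r ^ 2 := by nlinarith
    set R := A * (1 - r ^ 2) * ‖Ap r d u‖ ^ 2 with hR
    have R0 : 0 ≤ R := by positivity
    have R1 : R ≤ A * (1 + β) ^ 2 * (pp r u).re := by
      have := pow_le_pow_left₀ (by positivity) b3 2
      rw [b1, hR, mul_div_assoc', le_div_iff₀ (by positivity)]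
      nlinarith [mul_le_mul_of_nonneg_left this (mul_pos A0 r2).le]
    have e : qT a r A k d u = Q0 a r u + R * (u ^ (d + 1) / (1 - k * u ^ (d + 1))) := by
      rw [qT, Bp_circ r d hu, hR, Complex.sq_norm, Complex.ofReal_mul (A * (1 - r ^ 2)),
        ← Complex.mul_conj]
      ring
    have b5 := circ_side (w := u ^ (d + 1)) (by rw [norm_pow, hu, one_pow]) c0 sc hk' hc'
      (kn u hu.le)
    have b6 := mul_le_mul_of_nonneg_left b5 R0
    have b7 : A * (1 + β) ^ 2 * ((1 + c) / 2) < a * ((1 - r) / 2) ^ (1 - a) := by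
      have : A * (1 + β) ^ 2 * (1 + 2 * (1 - a)) = 2 * a * ((1 - r) / 2) ^ (1 - a) := by
        rw [hA]; field_simp
      have h5 : 0 < A * (1 + β) ^ 2 := by positivity
      nlinarith
    have b8 := mul_lt_mul_of_pos_right b7 p0
    have b9 := mul_le_mul_of_nonneg_right (mul_le_mul_of_nonneg_left b4 h0.le) p0.le
    have b10 := mul_le_mul_of_nonneg_right R1 (show 0 ≤ (1 + c) / 2 by positivity)
    rw [e, Complex.add_re, Complex.add_im, Complex.re_ofReal_mul, Complex.im_ofReal_mul]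
    nlinarith
  refine ⟨k, k0, k1, mk_dat h0 h1 (qd.mono ball_subset_closedBall) (by simp [qT, Q0_zero])
    fun z hz => arg_lt g0 g1 ?_ ?_⟩
  · exact re_pos_in qd (fun u hu => key c (abs_of_pos c0) u hu
      (side h0 h1 (cpp_pos r0 r1 hu.le)).1) hz
  · have := re_pos_in qd (fun u hu => key (-c) (by rw [abs_neg, abs_of_pos c0]) u hu
      (side h0 h1 (cpp_pos r0 r1 hu.le)).2) hz
    linarith

end Pool.Agent.P.MP_bdc337_an.SO.Lw
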