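import Pool.Agent.P.MP_bdc337_an.SO.Low1

/-! Sharp lower bound: the series of the test function and the radial bound. -/

set_option autoImplicit false

open Finset PowerSeries Metric Filter Topology Real
open scoped ComplexOrder

namespace Pool.Agent.P.MP_bdc337_an.SO.Lw

open Pool.Agent.P.MP_bdc337_an.UO

variable {a r : ℝ} {z : ℂ}

lemma NN_lin {D A K : ℂ⟦X⟧} (hA : NN A) (hK : NN K) (k0 : coeff 0 K = 0) (h : D = A + K * D) :
    NN D := by
  intro k
  induction k using Nat.strong_induction_on with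
  | _ k ih =>
    rw [h, map_add, coeff_conv k0 _ le_rfl]
    exact add_nonneg (hA _) (sum_nonneg fun j hj => mul_nonneg (hK _) (ih j (mem_range.1 hj)))

lemma tay_Ap (r : ℝ) (d : ℕ) :
    tay (Ap r d) = PowerSeries.mk fun j => if j < d + 1 then ((r ^ j : ℝ) : ℂ) else 0 :=
  tay_poly (fun j => ((r ^ j : ℝ) : ℂ)) (d + 1)

lemma tay_Bp (r : ℝ) (d : ℕ) :
    tay (Bp r d) = PowerSeries.mk fun j => if j < d + 1 then ((r ^ (d - j) : ℝ) : ℂ) else 0 :=
  tay_poly (fun j => ((r ^ (d - j) : ℝ) : ℂ)) (d + 1)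

lemma NN_Ap (r0 : 0 ≤ r) (d : ℕ) : NN (tay (Ap r d)) := fun k => by
  rw [tay_Ap, coeff_mk]; split_ifs
  · exact Complex.zero_le_real.2 (by positivity)
  · exact le_rfl

lemma NN_Bp (r0 : 0 ≤ r) (d : ℕ) : NN (tay (Bp r d)) := fun k => by
  rw [tay_Bp, coeff_mk]; split_ifs
  · exact Complex.zero_le_real.2 (by positivity)
  · exact le_rfl

lemma coeff_AB (r : ℝ) {d j : ℕ} (hj : j ≤ d) :
    ((1 - r ^ 2 : ℝ) : ℂ) * coeff j (tay (Ap r d) * tay (Bp r d)) =
      ((r ^ (d - j) * (1 - (r ^ 2) ^ (j + 1)) : ℝ) : ℂ) := by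
  rw [coeff_mul, Finset.Nat.sum_antidiagonal_eq_sum_range_succ_mk,
    ← geom_sum_mul_neg (r ^ 2), ← mul_assoc, mul_sum (a := r ^ (d - j)), Complex.ofReal_mul (∑ _ ∈ _, _), Complex.ofReal_sum, mul_comm]
  congr 1
  refine sum_congr rfl fun i hi => ?_
  have hi' : i ≤ j := Nat.lt_succ_iff.1 (mem_range.1 hi)
  rw [tay_Ap, tay_Bp, coeff_mk, coeff_mk, if_pos (by omega), if_pos (by omega),
    show d - (j - i) = d - j + i by omega]
  push_cast
  ring

lemma series {A k : ℝ} {d : ℕ} {H G : ℂ → ℂ} (h : Dat a (qT a r A k d) H G) (r0 : 0 ≤ r)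
    (r1 : r < 1) (A0 : 0 ≤ A) (k0 : 0 ≤ k) (k1 : k < 1) :
    NN (tay fun z => Complex.exp (G z)) ∧
    A * ∑ i ∈ range (d + 1), r ^ i * (1 - (r ^ 2) ^ (d - i + 1)) *
        (coeff i (tay fun z => Complex.exp (G z))).re ≤
      (d + 1 : ℕ) * ‖coeff (d + 1) (tay fun z => Complex.exp (G z))‖ := by
  have hnb : ball (0 : ℂ) 1 ∈ 𝓝 (0 : ℂ) := ball_mem_nhds 0 one_pos
  have r2 : 0 ≤ 1 - r ^ 2 := by nlinarith
  have aQ : AnalyticAt ℂ (Q0 a r) 0 := (Q0_diff r0 r1).analyticAt hnb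
  have aq : AnalyticAt ℂ (qT a r A k d) 0 := h.qd.analyticAt hnb
  have aA : AnalyticAt ℂ (Ap r d) 0 := (Ap_diff r d).analyticAt 0
  have aB : AnalyticAt ℂ (Bp r d) 0 := (Bp_diff r d).analyticAt 0
  have fe : (fun z => qT a r A k d z - Q0 a r z) =ᶠ[𝓝 0] fun z =>
      ((A * (1 - r ^ 2) : ℝ) : ℂ) * (z * (Ap r d z * Bp r d z)) +
        ((k : ℂ) * z ^ (d + 1)) * (qT a r A k d z - Q0 a r z) := by
    filter_upwards [hnb] with z hz
    have := cden_ne k0 k1 (z := z ^ (d + 1))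
      (by rw [norm_pow]; exact pow_le_one₀ (norm_nonneg _) (mem_ball_zero_iff.1 hz).le)
    rw [qT, add_sub_cancel_left]
    field_simp
    ring
  have t1 := tay_congr fe
  rw [tay_add (by fun_prop) (by fun_prop), tay_mul (f := fun z => _ * z ^ (d + 1)) (by fun_prop)
    (by fun_prop), tay_sub aq aQ, tay_const_mul _ (by fun_prop), tay_const_mul _ (by fun_prop),
    tay_pow, tay_mul (f := fun z => z) analyticAt_id (by fun_prop), tay_id, tay_mul aA aB] at t1
  set U := tay (Ap r d) * tay (Bp r d) with hU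
  have nU : NN U := (NN_Ap r0 d).mul (NN_Bp r0 d)
  have nX : NN X := by simpa using NN_X_pow 1
  have nK : NN (C (k : ℂ) * X ^ (d + 1)) := (NN_C k0).mul (NN_X_pow _)
  have nD := NN_lin ((NN_C (mul_nonneg A0 r2)).mul (nX.mul nU)) nK (by simp) t1
  set D := tay (qT a r A k d) - tay (Q0 a r) with hD
  have tq : tay (qT a r A k d) - 1 = (tay (Q0 a r) - 1) + D := by rw [hD]; ring
  have nq : NN (tay (qT a r A k d) - 1) := by
    rw [tq]
    exact (NN_Q0 h.a0 r0 r1).add nD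
  have eu := h.euler
  have F0 : coeff 0 (tay fun z => Complex.exp (G z)) = 1 := by
    rw [coeff_zero_tay, h.G0, Complex.exp_zero]
  have nF : NN (tay fun z => Complex.exp (G z)) :=
    NN_fix (K := 0) nq (fun k => by simp) (by rw [map_sub, coeff_zero_tay, h.q0]; simp) (by simp)
      (by rw [F0]; exact zero_le_one) (by rw [eu]; ring)
  refine ⟨nF, ?_⟩
  set F := tay fun z => Complex.exp (G z) with hF
  have e := congrArg (coeff (d + 1)) eu
  have e1 : (tay (Q0 a r) - 1 + D) * F = (tay (Q0 a r) - 1) * F + C (k : ℂ) * X ^ (d + 1) * D * F +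
      C ((A * (1 - r ^ 2) : ℝ) : ℂ) * (X * (F * U)) := by
    linear_combination F * t1
  rw [coeff_X_mul_deriv, tq, e1, map_add, map_add, coeff_C_mul, coeff_succ_X_mul, coeff_mul d,
    Finset.Nat.sum_antidiagonal_eq_sum_range_succ_mk, mul_sum] at e
  have e2 : ∑ i ∈ range (d + 1), ((A * (1 - r ^ 2) : ℝ) : ℂ) * (coeff i F * coeff (d - i) U) =
      ∑ i ∈ range (d + 1), ((A * (r ^ i * (1 - (r ^ 2) ^ (d - i + 1))) : ℝ) : ℂ) * coeff i F := by
    refine sum_congr rfl fun i hi => ?_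
    have hi' : i ≤ d := Nat.lt_succ_iff.1 (mem_range.1 hi)
    have := coeff_AB r (Nat.sub_le d i)
    rw [show d - (d - i) = i by omega, ← hU] at this
    rw [Complex.ofReal_mul, Complex.ofReal_mul A, ← this]
    ring
  have e3 := congrArg Complex.re e
  rw [e2, Complex.add_re, Complex.add_re, Complex.re_sum, ← Complex.ofReal_natCast,
    Complex.re_ofReal_mul] at e3
  simp only [Complex.re_ofReal_mul] at e3
  have e4 := (Complex.nonneg_iff.1 (((NN_Q0 h.a0 r0 r1).mul nF) (d + 1))).1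
  have e5 := (Complex.nonneg_iff.1 (((nK.mul nD).mul nF) (d + 1))).1
  have := mul_le_mul_of_nonneg_left (Complex.re_le_norm (coeff (d + 1) F))
    (Nat.cast_nonneg (α := ℝ) (d + 1))
  have e6 : A * ∑ i ∈ range (d + 1), r ^ i * (1 - (r ^ 2) ^ (d - i + 1)) * (coeff i F).re =
      ∑ i ∈ range (d + 1), A * (r ^ i * (1 - (r ^ 2) ^ (d - i + 1))) * (coeff i F).re := by
    rw [mul_sum]
    exact sum_congr rfl fun i _ => by ring
  linarith

lemma tail_ge {c : ℕ → ℝ} (hc : ∀ i, 0 ≤ c i) {t u v : ℝ} (t0 : 0 ≤ t) (t1 : t ≤ 1) (d : ℕ)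
    (hu : HasSum (fun i => (t ^ 2) ^ i * c i) u) (hv : HasSum (fun i => t ^ i * c i) v) :
    u - t ^ d * v ≤ ∑ i ∈ range (d + 1), (t ^ 2) ^ i * (1 - ((t ^ 2) ^ 2) ^ (d - i + 1)) * c i := by
  refine hasSum_le (fun i => ?_) (hu.sub (hv.mul_left (t ^ d)))
    (hasSum_sum_of_ne_finset_zero (f := fun i => if i < d + 1 then
      (t ^ 2) ^ i * (1 - ((t ^ 2) ^ 2) ^ (d - i + 1)) * c i else 0)
      (s := range (d + 1)) fun i hi => if_neg (mt mem_range.2 hi)) |>.trans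
    (le_of_eq (sum_congr rfl fun i hi => if_pos (mem_range.1 hi)))
  have hci := hc i
  split_ifs with hi
  · have p1 : (t ^ 2) ^ i * ((t ^ 2) ^ 2) ^ (d - i + 1) ≤ t ^ d * t ^ i := by
      rw [← pow_mul, ← pow_mul, ← pow_mul, ← pow_add, ← pow_add]
      exact pow_le_pow_of_le_one t0 t1 (by omega)
    nlinarith [mul_le_mul_of_nonneg_right p1 hci]
  · have p1 : (t ^ 2) ^ i ≤ t ^ d * t ^ i := by
      rw [← pow_mul, ← pow_add]
      exact pow_le_pow_of_le_one t0 t1 (by omega)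
    nlinarith [mul_le_mul_of_nonneg_right p1 hci]

lemma Q0_sharp (h0 : 0 < a) (h1 : a < 1) (r0 : 0 ≤ r) (r1 : r < 1) {t : ℝ} (t0 : 0 < t)
    (t1 : t < 1) : t * (2 ^ a / 2 * (2 * r * (1 - r * t) ^ (-a)) -
      (1 - a) * (2 * r * (1 - r * t) ^ (-(1 / 2 : ℝ)))) ≤ (Q0 a r t).re - 1 := by
  have x0 : 0 ≤ r * t := by positivity
  have x2 : r * t ≤ t := mul_le_of_le_one_left t0.le r1.le
  have p1 : 0 < 1 - r * t := by linarith
  have e : (Q0 a r t).re = (1 + r * t) ^ a * (1 - r * t) ^ (-a) := by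
    have : pp r t = ((1 + r * t) / (1 - r * t) : ℝ) := by simp [pp]
    rw [Q0, this, ← Complex.ofReal_log (by positivity), ← Complex.ofReal_mul, Complex.exp_ofReal_re,
      mul_comm, ← rpow_def_of_pos (by positivity), div_rpow (by positivity) p1.le, rpow_neg p1.le,
      div_eq_mul_inv]
  rw [e, show t * (2 ^ a / 2 * (2 * r * (1 - r * t) ^ (-a)) -
      (1 - a) * (2 * r * (1 - r * t) ^ (-(1 / 2 : ℝ)))) = r * t * 2 ^ a * (1 - r * t) ^ (-a) -
      (1 - a) * (2 * (r * t * (1 - r * t) ^ (-(1 / 2 : ℝ)))) by ring]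
  generalize r * t = x at *
  have w0 : 0 < (1 - x) ^ (-a) := rpow_pos_of_pos p1 _
  have w1 : (1 - x) + x * 2 ^ a ≤ (1 + x) ^ a := by
    have := (Real.concaveOn_rpow h0.le h1.le).2 (Set.mem_Ici.2 zero_le_one)
      (Set.mem_Ici.2 two_pos.le) p1.le x0 (by ring)
    simp only [smul_eq_mul, one_rpow, mul_one] at this
    rwa [show 1 - x + x * 2 = 1 + x by ring] at this
  have w2 : (1 - x) * (1 - x) ^ (-a) = exp (log (1 - x) * (1 - a)) := by
    rw [← rpow_one_add' p1.le (by linarith), rpow_def_of_pos p1]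
    congr 1
  have w3 := add_one_le_exp (log (1 - x) * (1 - a))
  have v0 : 0 < (1 - x) ^ (-(1 / 2 : ℝ)) := rpow_pos_of_pos p1 _
  have w4 := log_le_sub_one_of_pos v0
  rw [log_rpow p1] at w4
  have w5 : (1 - x) * (1 - x) ^ (-(1 / 2 : ℝ)) ≤ 1 := by
    rw [← rpow_one_add' p1.le (by norm_num)]
    exact rpow_le_one p1.le (by linarith) (by norm_num)
  have w6 : -(2 * (x * (1 - x) ^ (-(1 / 2 : ℝ)))) ≤ log (1 - x) := by linarith
  nlinarith [mul_le_mul_of_nonneg_right w1 w0.le,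
    mul_le_mul_of_nonneg_right w6 (show 0 ≤ 1 - a by linarith)]

lemma radial {q H G : ℂ → ℂ} (h : Dat a q H G) (r0 : 0 ≤ r) (r1 : r < 1)
    (hq : ∀ t : ℝ, 0 < t → t < 1 → (Q0 a r t).re ≤ (q t).re) :
    Lf (1 - a) (1 - r * r) - 2 * log 2 - 4 * (1 - a) ≤ (G r).re := by
  have h0 := h.a0
  have h1 := h.a1
  have e0 : 0 < 1 - a := by linarith
  have hh : (1 / 2 : ℝ) < 1 := by norm_num
  have b5 := mono_of_deriv (f := fun t : ℝ => (G (t * 1)).re -
      2 ^ a / 2 * Lf (1 - a) (1 - r * t) + (1 - a) * Lf (1 - 1 / 2) (1 - r * t))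
    (f' := fun t => ((q (t * 1)).re - 1) / t - 2 ^ a / 2 * (2 * r * (1 - r * t) ^ (-a)) +
      (1 - a) * (2 * r * (1 - r * t) ^ (-(1 / 2 : ℝ)))) r0
    (((h.ray_cont norm_one le_rfl r1).sub fun y hy => ((Lf_deriv h1 (by
      nlinarith [hy.1, hy.2])).const_mul _).continuousAt.continuousWithinAt).add
      fun y hy => ((Lf_deriv hh (by
      nlinarith [hy.1, hy.2])).const_mul _).continuousAt.continuousWithinAt)
    (fun y hy => ((h.ray norm_one hy.1 (hy.2.trans r1)).sub ((Lf_deriv h1 (by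
      nlinarith [hy.1, hy.2])).const_mul _)).add ((Lf_deriv hh (by
      nlinarith [hy.1, hy.2])).const_mul _))
    fun y hy => by
      have c1 := Q0_sharp h0 h1 r0 r1 hy.1 (hy.2.trans r1)
      have c2 := hq y hy.1 (hy.2.trans r1)
      have c5 : 2 ^ a / 2 * (2 * r * (1 - r * y) ^ (-a)) -
          (1 - a) * (2 * r * (1 - r * y) ^ (-(1 / 2 : ℝ))) ≤ ((q (y * 1)).re - 1) / y := by
        rw [le_div_iff₀ hy.1, mul_one]
        linarith
      linarith
  simp only [mul_one, Complex.ofReal_zero, h.G0, Complex.zero_re, mul_zero, sub_zero, Lf_one,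
    add_zero] at b5
  have x0 : 0 ≤ 1 - r * r := by nlinarith
  have b6 := Lf_le (e := 1 - 1 / 2) (by norm_num) x0
  have b7 := Lf_le e0 x0
  have b8 := Lf_nonneg e0 x0 (by nlinarith)
  rw [le_div_iff₀ e0] at b7
  have b9 : 1 - (1 - a) * log 2 ≤ 2 ^ a / 2 := by
    have := add_one_le_exp (log 2 * (a - 1))
    rw [← rpow_def_of_pos two_pos, rpow_sub_one two_ne_zero] at this
    linarith
  have l2 := log_pos one_lt_two
  nlinarith [mul_le_mul_of_nonneg_right b9 b8, mul_le_mul_of_nonneg_left b6 e0.le,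
    mul_le_mul_of_nonneg_right b7 l2.le]

end Pool.Agent.P.MP_bdc337_an.SO.Lw
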