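import Pool.Agent.P.MP_bdc337_an.SO.IfaceB

/-! Step MK. -/

set_option autoImplicit false

namespace Pool.Agent.P.MP_bdc337_an.SO

open Finset PowerSeries Metric Filter Topology Real
open UO LN KR

theorem mk_exp {s : ℝ} (h0 : 0 ≤ s) (h1 : s ≤ 1 / 2) : exp (-(2 * s)) ≤ 1 - s := by
  rw [Real.exp_neg, inv_le_comm₀ (Real.exp_pos _) (by linarith), inv_eq_one_div,
    div_le_iff₀ (by linarith)]
  have h := Real.add_one_le_exp (2 * s)
  nlinarith

theorem mk_core {e ν θ ρ X S c m L lg A g1 g2 : ℝ} (he : 0 < e) (he1 : e ≤ 1 / 100)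
    (hθ0 : 0 < θ) (hθ1 : 2 * ν - 8 * e ≤ θ) (hθ2 : θ ≤ 2 * ν) (hρ : 0 < ρ) (hc : 0 < c)
    (h3a : θ * S ≤ X) (h3b : X ≤ (θ + 20 * e) * S)
    (h4a : (1 - 8 * e) * (c * exp m) ≤ S) (h4b : S ≤ c * exp m)
    (h6a : L - θ * lg ≤ m) (h6b : m ≤ L - θ * lg + 8 * e)
    (hLa : A - 3 * e ≤ L) (hLb : L ≤ A + 4 * e)
    (h9a : exp (-(12 * e)) ≤ ρ * c * exp (-(θ * lg)) * g1)
    (h9b : ρ * c * exp (-(θ * lg)) * g1 ≤ exp (12 * e))
    (hg2 : 0 < g2) (hga : exp (-(16 * e)) * g1 ≤ g2) (hgb : g2 ≤ exp (16 * e) * g1) :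
    (2 * ν - 8 * e) * exp (-(60 * e)) * (exp A / g2) ≤ ρ * X ∧
      ρ * X ≤ (2 * ν + 20 * e) * exp (60 * e) * (exp A / g2) := by
  set P := ρ * c * exp (-(θ * lg)) with hP
  have hP0 : 0 < P := by positivity
  have hPa : exp (-(28 * e)) / g2 ≤ P := by
    rw [div_le_iff₀ hg2]
    calc exp (-(28 * e)) = exp (-(16 * e)) * exp (-(12 * e)) := by
          rw [← Real.exp_add]; congr 1; ring
      _ ≤ exp (-(16 * e)) * (P * g1) := mul_le_mul_of_nonneg_left h9a (Real.exp_pos _).le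
      _ = P * (exp (-(16 * e)) * g1) := by ring
      _ ≤ P * g2 := mul_le_mul_of_nonneg_left hga hP0.le
  have hPb : P ≤ exp (28 * e) / g2 := by
    rw [le_div_iff₀ hg2]
    calc P * g2 ≤ P * (exp (16 * e) * g1) := mul_le_mul_of_nonneg_left hgb hP0.le
      _ = exp (16 * e) * (P * g1) := by ring
      _ ≤ exp (16 * e) * exp (12 * e) := mul_le_mul_of_nonneg_left h9b (Real.exp_pos _).le
      _ = exp (28 * e) := by rw [← Real.exp_add]; congr 1; ring
  have hma : exp (-(θ * lg)) * exp (A - 3 * e) ≤ exp m := by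
    rw [← Real.exp_add]; exact Real.exp_le_exp.2 (by linarith)
  have hmb : exp m ≤ exp (-(θ * lg)) * exp (A + 12 * e) := by
    rw [← Real.exp_add]; exact Real.exp_le_exp.2 (by linarith)
  have h16 : exp (-(16 * e)) ≤ 1 - 8 * e := by
    have := mk_exp (s := 8 * e) (by positivity) (by linarith)
    rwa [show 2 * (8 * e) = 16 * e by ring] at this
  constructor
  · calc (2 * ν - 8 * e) * exp (-(60 * e)) * (exp A / g2)
        ≤ θ * exp (-(60 * e)) * (exp A / g2) := by gcongr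
      _ ≤ θ * exp (-(47 * e)) * (exp A / g2) := by gcongr; linarith
      _ = θ * (exp (-(16 * e)) * (exp (-(28 * e)) / g2 * exp (A - 3 * e))) := by
          have : exp (-(47 * e)) * exp A =
              exp (-(16 * e)) * (exp (-(28 * e)) * exp (A - 3 * e)) := by
            rw [← Real.exp_add, ← Real.exp_add, ← Real.exp_add]; congr 1; ring
          calc θ * exp (-(47 * e)) * (exp A / g2) = θ * (exp (-(47 * e)) * exp A) / g2 := by ring
            _ = _ := by rw [this]; ring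
      _ ≤ θ * ((1 - 8 * e) * (P * exp (A - 3 * e))) := by
          have : 0 ≤ 1 - 8 * e := by linarith
          gcongr
      _ = ρ * (θ * ((1 - 8 * e) * (c * (exp (-(θ * lg)) * exp (A - 3 * e))))) := by
          rw [hP]; ring
      _ ≤ ρ * (θ * ((1 - 8 * e) * (c * exp m))) := by
          have : 0 ≤ 1 - 8 * e := by linarith
          gcongr
      _ ≤ ρ * (θ * S) := by gcongr
      _ ≤ ρ * X := by gcongr
  · have hν : 0 < 2 * ν + 20 * e := by linarith
    calc ρ * X ≤ ρ * ((θ + 20 * e) * S) := by gcongr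
      _ ≤ ρ * ((θ + 20 * e) * (c * exp m)) := by gcongr
      _ ≤ ρ * ((2 * ν + 20 * e) * (c * (exp (-(θ * lg)) * exp (A + 12 * e)))) := by gcongr
      _ = (2 * ν + 20 * e) * (P * exp (A + 12 * e)) := by rw [hP]; ring
      _ ≤ (2 * ν + 20 * e) * (exp (28 * e) / g2 * exp (A + 12 * e)) := by gcongr
      _ = (2 * ν + 20 * e) * exp (40 * e) * (exp A / g2) := by
          have : exp (28 * e) * exp (A + 12 * e) = exp (40 * e) * exp A := by
            rw [← Real.exp_add, ← Real.exp_add]; congr 1; ring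
          calc (2 * ν + 20 * e) * (exp (28 * e) / g2 * exp (A + 12 * e))
              = (2 * ν + 20 * e) * (exp (28 * e) * exp (A + 12 * e)) / g2 := by ring
            _ = _ := by rw [this]; ring
      _ ≤ (2 * ν + 20 * e) * exp (60 * e) * (exp A / g2) := by gcongr; linarith

theorem mk_gamma (hW : S_W) {θ s e : ℝ} (hθ0 : 0 < θ) (hθ2 : θ ≤ 2) (hs0 : 0 ≤ s)
    (hs : s ≤ 8 * e) (he1 : e ≤ 1 / 100) :
    exp (-(16 * e)) * Gamma (θ + 1) ≤ Gamma (θ + 1 + s) ∧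
      Gamma (θ + 1 + s) ≤ exp (16 * e) * Gamma (θ + 1) := by
  obtain ⟨h1, h2⟩ := hW (θ + 1) s (by linarith) hs0 (by linarith)
  have hG : 0 < Gamma (θ + 1) := Real.Gamma_pos_of_pos (by linarith)
  constructor
  · refine le_trans (mul_le_mul_of_nonneg_right ?_ hG.le) h2
    have h3 : exp (-(16 * e)) ≤ 1 - s :=
      (Real.exp_le_exp.2 (by linarith)).trans (mk_exp hs0 (by linarith))
    have h4 : (θ + 1 + s) ^ (-1 : ℝ) ≤ (θ + 1 + s) ^ (s - 1) :=
      Real.rpow_le_rpow_of_exponent_le (by linarith) (by linarith)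
    rw [Real.rpow_neg_one] at h4
    have h5 : 1 - s ≤ (θ + 1) * (θ + 1 + s)⁻¹ := by
      rw [← div_eq_mul_inv, le_div_iff₀ (by linarith)]
      nlinarith [mul_nonneg hs0 hθ0.le, mul_nonneg hs0 hs0]
    have h6 : (θ + 1) * (θ + 1 + s)⁻¹ ≤ (θ + 1) * (θ + 1 + s) ^ (s - 1) :=
      mul_le_mul_of_nonneg_left h4 (by linarith)
    linarith
  · refine h1.trans (mul_le_mul_of_nonneg_right ?_ hG.le)
    rw [Real.rpow_def_of_pos (by linarith)]
    apply Real.exp_le_exp.2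
    have h3 : Real.log (θ + 1) ≤ θ + 1 - 1 := Real.log_le_sub_one_of_pos (by linarith)
    have h4 : Real.log (θ + 1) * s ≤ 2 * s := mul_le_mul_of_nonneg_right (by linarith) hs0
    linarith

theorem mk_Lf {e n ν : ℝ} (he : 0 < e) (hn : 0 < n) (hν : ν = n ^ (-e)) (hν1 : ν ≤ 1) :
    (ν - 1) * Real.log 4 + 2 * (1 - ν) / e - e ≤ Lf e ((1 - (1 - 1 / n)) / 2) - 2 * Real.log 2 ∧
      Lf e ((1 - (1 - 1 / n)) / 2) - 2 * Real.log 2 ≤ (ν - 1) * Real.log 4 + 2 * (1 - ν) / e := by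
  have hν0 : 0 < ν := by rw [hν]; exact Real.rpow_pos_of_pos hn _
  have h4 : Real.log 4 = 2 * Real.log 2 := by
    rw [show (4 : ℝ) = 2 ^ 2 by norm_num, Real.log_pow]; norm_num
  have h1 : ((1 - (1 - 1 / n)) / 2) ^ e = ν * exp (-(Real.log 2 * e)) := by
    have : (1 - (1 - 1 / n)) / 2 = n⁻¹ * 2⁻¹ := by field_simp; ring
    rw [this, Real.mul_rpow (by positivity) (by positivity), Real.inv_rpow hn.le,
      ← Real.rpow_neg hn.le, ← hν, Real.rpow_def_of_pos (by positivity), Real.log_inv]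
    congr 2
    ring
  have hl0 : 0 < Real.log 2 := Real.log_pos (by norm_num)
  have hl1 : Real.log 2 ≤ 7 / 10 := by linarith [Real.log_two_lt_d9]
  set u := Real.log 2 * e with hu
  have hu0 : 0 < u := by positivity
  have ha : 1 - u ≤ exp (-u) := by linarith [Real.add_one_le_exp (-u)]
  have hb : exp (-u) ≤ 1 - u + u ^ 2 := by
    rw [Real.exp_neg, inv_eq_one_div, div_le_iff₀ (Real.exp_pos _)]
    have h := Real.add_one_le_exp u
    have h2 : 0 < 1 - u + u ^ 2 := by nlinarith [sq_nonneg (u - 1 / 2)]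
    have h3 : (1 - u + u ^ 2) * (u + 1) ≤ (1 - u + u ^ 2) * exp u :=
      mul_le_mul_of_nonneg_left h h2.le
    nlinarith [pow_pos hu0 3]
  have h5 : Lf e ((1 - (1 - 1 / n)) / 2) = 2 * (1 - ν) / e + 2 * ν * (1 - exp (-u)) / e := by
    unfold Lf
    rw [h1]
    ring
  have h6 : 2 * ν * (1 - exp (-u)) / e ≤ 2 * ν * Real.log 2 := by
    rw [div_le_iff₀ he]
    have : 2 * ν * (1 - exp (-u)) ≤ 2 * ν * u :=
      mul_le_mul_of_nonneg_left (by linarith) (by positivity)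
    calc _ ≤ 2 * ν * u := this
      _ = _ := by rw [hu]; ring
  have h7 : 2 * ν * Real.log 2 - e ≤ 2 * ν * (1 - exp (-u)) / e := by
    rw [le_div_iff₀ he]
    have h8 : 2 * ν * (u - u ^ 2) ≤ 2 * ν * (1 - exp (-u)) :=
      mul_le_mul_of_nonneg_left (by linarith) (by positivity)
    have h9 : 2 * ν * u ^ 2 ≤ e ^ 2 := by
      have h10 : 2 * Real.log 2 ^ 2 ≤ 1 := by nlinarith
      have h11 : ν * (2 * Real.log 2 ^ 2) ≤ 1 * 1 :=
        mul_le_mul hν1 h10 (by positivity) (by norm_num)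
      calc 2 * ν * u ^ 2 = ν * (2 * Real.log 2 ^ 2) * e ^ 2 := by rw [hu]; ring
        _ ≤ 1 * 1 * e ^ 2 := mul_le_mul_of_nonneg_right h11 (by positivity)
        _ = e ^ 2 := by ring
    have h12 : (2 * ν * Real.log 2 - e) * e = 2 * ν * u - e ^ 2 := by rw [hu]; ring
    rw [h12]
    nlinarith
  rw [h5, h4]
  constructor <;> nlinarith

theorem p_MK (hU1 : S_U1) (hM3 : S_M3) (hM4 : S_M4) (hM5 : S_M5) (hM6 : S_M6) (hM7 : S_M7) (hM8 : S_M8) (hM9 : S_M9) (hW : S_W) :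
    S_MK := by
  intro a ν N he1 ha1 hN hν
  have ha0 : 1 / 2 ≤ a := by linarith
  have he : 0 < 1 - a := by linarith
  have hN' : (1 : ℝ) ≤ N := by exact_mod_cast hN
  have hn : (0 : ℝ) < (N : ℝ) + 1 := by positivity
  obtain ⟨H, G, hD⟩ := datK (a := a) (by linarith) ha1
  have hS := slow_bs ha0 ha1.le
  have hθ0 : 0 < bs a N := hS.pos N
  have hν0 : 0 < ν := by rw [hν]; exact Real.rpow_pos_of_pos hn _
  have hν1 : ν ≤ 1 := by
    rw [hν]; exact Real.rpow_le_one_of_one_le_of_nonpos (by linarith) (by linarith)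
  have hθ2 : bs a N ≤ 2 * ν := by
    have h := bs_pow (a := a) (by linarith) ha1 N
    rw [← hν] at h
    nlinarith
  have hθ1 : 2 * ν - 8 * (1 - a) ≤ bs a N := by
    have h := hM7 a N ha0 ha1 hN
    rwa [← hν] at h
  have hr0 : (0 : ℝ) ≤ 1 - 1 / ((N : ℝ) + 1) := by
    rw [sub_nonneg, div_le_one hn]; linarith
  have hr1 : 1 - 1 / ((N : ℝ) + 1) < 1 := by
    have : 0 < 1 / ((N : ℝ) + 1) := by positivity
    linarith
  obtain ⟨h3a, h3b⟩ := hM3 _ _ hS N hN
  obtain ⟨h4a, h4b⟩ := hM4 _ _ hS N hN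
  obtain ⟨h6a, h6b⟩ := hM6 _ _ hS N _ hN (hM5 a H G hD _ hr0 hr1).1
  have hLa := hM8 a H G hD _ hr0 hr1
  have hLb := hU1 a _ H G hD 1 (by simp) _ hr0 hr1
  rw [mul_one] at hLb
  obtain ⟨hf1, hf2⟩ := mk_Lf he hn hν hν1
  obtain ⟨h9a, h9b⟩ := hM9 (bs a N) N hθ0 (by linarith) hN
  have hlog : 1 - (1 - a) * Real.log ((N : ℝ) + 1) ≤ ν := by
    rw [hν, Real.rpow_def_of_pos hn]
    have := Real.add_one_le_exp (Real.log ((N : ℝ) + 1) * (-(1 - a)))
    linarith
  have hlog2 : Real.log ((N : ℝ) + 1) ≤ (N : ℝ) + 1 - 1 := Real.log_le_sub_one_of_pos hn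
  have h12 : 2 * (2 - bs a N) / ((N : ℝ) + 1) ≤ 12 * (1 - a) := by
    rw [div_le_iff₀ hn]
    have h1 : (1 - a) * Real.log ((N : ℝ) + 1) ≤ (1 - a) * N :=
      mul_le_mul_of_nonneg_left (by linarith) he.le
    have h2 : (1 - a) * 1 ≤ (1 - a) * N := mul_le_mul_of_nonneg_left hN' he.le
    nlinarith
  have hpow : ((N : ℝ) + 1) ^ (-bs a N) = exp (-(bs a N * Real.log ((N : ℝ) + 1))) := by
    rw [Real.rpow_def_of_pos hn]; congr 1; ring
  rw [hpow] at h9a h9b
  obtain ⟨hga, hgb⟩ := mk_gamma hW (θ := bs a N) (s := 2 * ν - bs a N) (e := 1 - a) hθ0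
    (by linarith) (by linarith) (by linarith) he1
  rw [show bs a N + 1 + (2 * ν - bs a N) = 2 * ν + 1 by ring] at hga hgb
  have hc : 0 < cc (bs a N) (N - 1) := Finset.prod_pos fun i _ => by positivity
  have key := mk_core (ρ := ((N : ℝ) + 1) / N)
    (A := (ν - 1) * Real.log 4 + 2 * (1 - ν) / (1 - a)) he he1 hθ0 hθ1 hθ2 (by positivity) hc
    h3a h3b h4a h4b h6a h6b (by linarith) (by linarith)
    ((Real.exp_le_exp.2 (by linarith)).trans h9a) (h9b.trans (Real.exp_le_exp.2 h12))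
    (Real.Gamma_pos_of_pos (by linarith)) hga hgb
  have e1 : ((N : ℝ) + 1) / N * (N * Kc (bs a) N) = ((N : ℝ) + 1) * Kc (bs a) N := by
    field_simp
  have e2 : Tf (1 - a) ν =
      exp ((ν - 1) * Real.log 4 + 2 * (1 - ν) / (1 - a)) / Gamma (2 * ν + 1) := by
    unfold Tf
    rw [Real.exp_add, Real.rpow_def_of_pos (by norm_num), mul_comm (Real.log 4)]
  rw [e1, ← e2] at key
  exact key

end Pool.Agent.P.MP_bdc337_an.SO
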