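import Pool.Agent.P.MP_bdc337_an.SO.Iface

/-! Step R3. -/

set_option autoImplicit false

namespace Pool.Agent.P.MP_bdc337_an.SO

open Finset PowerSeries Metric Filter Topology Real
open UO LN

lemma r3_a {e ν t : ℝ} (he : 0 < e) (ht : ν ≤ t) :
    t * exp (-(2 * t / e)) ≤ max ν (e / 2) * exp (-(2 * max ν (e / 2) / e)) := by
  set y := max ν (e / 2) with hy
  have y1 : e / 2 ≤ y := le_max_right _ _
  have y0 : 0 < y := by linarith
  have k1 : t / y ≤ exp (t / y - 1) := by linarith [add_one_le_exp (t / y - 1)]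
  have k2 : t / y - 1 ≤ 2 * t / e - 2 * y / e := by
    rcases le_total y t with h | h
    · have e1 : t / y - 1 = (t - y) / y := by field_simp
      have e2 : 2 * t / e - 2 * y / e = (t - y) / (e / 2) := by field_simp
      rw [e1, e2]
      exact div_le_div_of_nonneg_left (by linarith) (by linarith) y1
    · rcases le_total ν (e / 2) with g | g
      · rw [hy, max_eq_right g]
        apply le_of_eq
        field_simp
      · have : t = y := le_antisymm h (by rw [hy, max_eq_left g]; exact ht)
        rw [this, div_self y0.ne']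
        simp
  have k3 := k1.trans (exp_le_exp.2 k2)
  rw [div_le_iff₀ y0] at k3
  calc t * exp (-(2 * t / e)) ≤ exp (2 * t / e - 2 * y / e) * y * exp (-(2 * t / e)) :=
        mul_le_mul_of_nonneg_right k3 (exp_pos _).le
    _ = y * exp (-(2 * y / e)) := by
        rw [mul_right_comm, ← exp_add, mul_comm]
        congr 2
        ring

lemma r3_b {e ν t : ℝ} (he : 0 < e) (ht : ν ≤ t) (t0 : 0 ≤ t) :
    exp (-(2 * t / e)) ≤ 3 * exp (-(2 * max ν (e / 2) / e)) := by
  rcases le_total ν (e / 2) with g | g
  · rw [max_eq_right g, show 2 * (e / 2) / e = 1 by field_simp, exp_neg 1]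
    have h1 : exp (-(2 * t / e)) ≤ 1 := exp_le_one_iff.2 (neg_nonpos.2 (by positivity))
    have h2 := exp_one_lt_d9
    rw [← div_eq_mul_inv, le_div_iff₀ (exp_pos 1)]
    nlinarith [exp_pos (-(2 * t / e))]
  · rw [max_eq_left g]
    have : exp (-(2 * t / e)) ≤ exp (-(2 * ν / e)) := exp_le_exp.2 (neg_le_neg (by gcongr))
    linarith [exp_pos (-(2 * ν / e))]

theorem p_R3 :
    S_R3 := by
  intro e η ν t he hη t0 ht
  set y := max ν (e / 2) with hy
  have y1 : e / 2 ≤ y := le_max_right _ _
  have E0 := exp_pos (-(2 * y / e))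
  have x0 := mul_pos he hη
  have h : 0 < t + e * η / 2 := by linarith
  have a := r3_a (ν := ν) (t := t + e * η / 2) he (by linarith)
  have b := r3_b (ν := ν) (t := t + e * η / 2) he (by linarith) h.le
  have e1 : exp (-(2 * t / e)) = exp η * exp (-(2 * (t + e * η / 2) / e)) := by
    rw [← exp_add]
    congr 1
    field_simp
    ring
  rw [← hy] at a b
  rw [e1, mul_left_comm, mul_assoc]
  refine mul_le_mul_of_nonneg_left ?_ (exp_pos _).le
  have c : e * η / 2 * exp (-(2 * (t + e * η / 2) / e)) ≤ η * y * (3 * exp (-(2 * y / e))) :=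
    mul_le_mul (by nlinarith) b (exp_pos _).le (by nlinarith)
  nlinarith

end Pool.Agent.P.MP_bdc337_an.SO
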