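import Pool.Agent.P.MP_bdc337_an.SO.TR3

/-! Step R4. -/

set_option autoImplicit false

namespace Pool.Agent.P.MP_bdc337_an.SO

open Finset PowerSeries Metric Filter Topology Real
open UO LN

theorem p_R4 :
    S_R4 := by
  intro e ν t he t0 ht
  have a := r3_a he ht
  have b := r3_b he ht t0
  set y := max ν (e / 2) with hy
  have y1 : e / 2 ≤ y := le_max_right _ _
  have e1 : ∀ s : ℝ, exp (2 * (1 - s) / e) = exp (2 / e) * exp (-(2 * s / e)) := fun s => by
    rw [← exp_add]
    congr 1
    ring
  have c : e * exp (-(2 * t / e)) ≤ 2 * y * (3 * exp (-(2 * y / e))) :=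
    mul_le_mul (by linarith) b (exp_pos _).le (by linarith)
  rw [e1, e1]
  nlinarith [mul_le_mul_of_nonneg_left (add_le_add a c) (exp_pos (2 / e)).le]

end Pool.Agent.P.MP_bdc337_an.SO
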