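import Pool.Agent.P.MP_bdc337_an.LN.UpLim

/-! Continuity of the limit constant in the order. -/

set_option autoImplicit false

namespace Pool.Agent.P.MP_bdc337_an.SO

open Finset PowerSeries Metric Filter Topology Real
open UO LN

variable {a b : ℝ} {q H G : ℂ → ℂ}

lemma v_mono (h : Dat a q H G) (hab : a ≤ b) (b1 : b < 1) : Dat b q H G :=
  ⟨h.a0.trans_le hab, b1, h.qd, h.q0, h.re,
    fun z hz => (h.arg z hz).trans_le (by have := pi_pos; nlinarith), h.hH, h.G0, h.Gd⟩

lemma v_cont (h : Dat a q H G) (b : ℝ) {r : ℝ} (r1 : r < 1) :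
    ContinuousOn (fun z => phi b (q z) * exp (G z).re) (sphere 0 r) := by
  have hs : sphere (0 : ℂ) r ⊆ ball 0 1 := sphere_subset_ball r1
  have cq := h.qd.continuousOn.mono hs
  have ca : ContinuousOn (fun z => Complex.arg (q z)) (sphere 0 r) := fun z hz =>
    (Complex.continuousAt_arg (Or.inl (h.re z (hs hz)))).comp_continuousWithinAt (cq z hz)
  exact (cq.norm.mul (continuous_cos.comp_continuousOn (ca.div_const b))).mul
    (continuous_exp.comp_continuousOn
      (Complex.continuous_re.comp_continuousOn (h.Gdiff.continuousOn.mono hs)))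

lemma v_jav_mono (h : Dat a q H G) (hab : a ≤ b) {r : ℝ} (r0 : 0 < r) (r1 : r < 1) :
    jav a q G r ≤ jav b q G r := by
  refine circleAverage_mono ((v_cont h a r1).circleIntegrable r0.le)
    ((v_cont h b r1).circleIntegrable r0.le) fun z hz => ?_
  rw [abs_of_pos r0] at hz
  apply mul_le_mul_of_nonneg_right _ (exp_pos _).le
  have k := phi_gap h.a0 hab (h.arg z (sphere_subset_ball r1 hz))
  have a0 := h.a0
  have k1 : 1 / b ^ 2 ≤ 1 / a ^ 2 := one_div_le_one_div_of_le (by positivity) (by nlinarith)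
  have k2 : 0 ≤ 2 / π ^ 2 * (1 / a ^ 2 - 1 / b ^ 2) * (‖q z‖ * Complex.arg (q z) ^ 2) :=
    mul_nonneg (mul_nonneg (by positivity) (by linarith)) (by positivity)
  linarith

lemma v_log {x : ℝ} (x0 : 0 < x) (γ : ℝ) : x - x ^ γ ≤ (1 - γ) * (x * log x) := by
  have e : x ^ γ = x * exp (log x * (γ - 1)) := by
    rw [← rpow_def_of_pos x0, rpow_sub_one x0.ne']
    field_simp
  rw [e]
  nlinarith [mul_le_mul_of_nonneg_left (add_one_le_exp (log x * (γ - 1))) x0.le]

lemma v_pow {γ : ℝ} (γ0 : 0 < γ) (γ1 : γ ≤ 1) {x : ℂ} (hr : 0 < x.re) :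
    ‖Complex.exp (γ * Complex.log x)‖ = ‖x‖ ^ γ ∧
      Complex.arg (Complex.exp (γ * Complex.log x)) = γ * Complex.arg x := by
  have x0 : 0 < ‖x‖ := norm_pos_iff.2 fun e => by simp [e] at hr
  have b := abs_lt.1 (Complex.abs_arg_lt_pi_div_two_iff.2 (Or.inl hr))
  have hpi := pi_pos
  have e : (γ * Complex.log x : ℂ).im = γ * Complex.arg x := by
    rw [Complex.im_ofReal_mul, Complex.log_im]
  refine ⟨by rw [Complex.norm_exp, Complex.re_ofReal_mul, Complex.log_re, rpow_def_of_pos x0,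
    mul_comm], ?_⟩
  rw [← Complex.log_im, Complex.log_exp (by rw [e]; nlinarith) (by rw [e]; nlinarith), e]

theorem v_rc (h : Dat b q H G) (a0 : 0 < a) (hab : a ≤ b) {c : ℝ} (c1 : c < 1)
    (hc : b + (1 - c) ≤ c) {r : ℝ} (r0 : 0 < r) (r1 : r < 1) : ∃ q' H' G', Dat a q' H' G' ∧
      jav b q G r ≤ exp ((1 - a / b) * (6 / (1 - c) ^ 2)) * jav a q' G' r +
        (1 - a / b) * (exp (1 / (1 - c)) / (1 - c)) := by
  have b0 := h.a0
  have b1 := h.a1
  have hpi := pi_pos
  obtain ⟨γ, hγ⟩ : ∃ γ, γ = a / b := ⟨_, rfl⟩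
  have γ0 : 0 < γ := by rw [hγ]; positivity
  have γ1 : γ ≤ 1 := by rw [hγ]; exact (div_le_one b0).2 hab
  have γb : γ * b = a := by rw [hγ]; field_simp
  have σ0 : 0 < 1 - c := by linarith
  rw [← hγ]
  have hq : ∀ z ∈ ball (0 : ℂ) 1, |Complex.arg (Complex.exp (γ * Complex.log (q z)))| < a * π / 2 :=
    fun z hz => by
      rw [(v_pow γ0 γ1 (h.re z hz)).2, abs_mul, abs_of_pos γ0, ← γb, mul_assoc, mul_div_assoc]
      exact mul_lt_mul_of_pos_left (h.arg z hz) γ0
  obtain ⟨H', G', h'⟩ := mk_dat (q := fun z => Complex.exp (γ * Complex.log (q z))) a0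
    (hab.trans_lt b1) ((h.qd.clog fun z hz => Or.inl (h.re z hz)).const_mul _).cexp
    (by simp [h.q0]) fun z hz => ⟨(Complex.abs_arg_lt_pi_div_two_iff.1
      ((hq z hz).trans (by nlinarith))).resolve_right (Complex.exp_ne_zero _), hq z hz⟩
  refine ⟨_, H', G', h', ?_⟩
  have gr : ∀ x : ℂ, ‖x‖ = 1 → (G (r * x)).re ≤ (G' (r * x)).re + (1 - γ) * (6 / (1 - c) ^ 2) := by
    intro x hx
    have key := mono_of_deriv (f := fun t : ℝ => (1 - γ) * (3 / (1 - c)) * Lf (1 - c) (1 - 1 * t) -
        (G (t * x)).re + (G' (t * x)).re) r0.le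
      (((continuousOn_const.mul fun y hy => (Lf_deriv c1
        (by linarith [hy.2])).continuousAt.continuousWithinAt).sub (h.ray_cont hx le_rfl r1)).add
        (h'.ray_cont hx le_rfl r1))
      (fun y hy => (((Lf_deriv c1 (by linarith [hy.2])).const_mul _).sub
        (h.ray hx hy.1 (hy.2.trans r1))).add (h'.ray hx hy.1 (hy.2.trans r1))) (fun y hy => ?_)
    · simp only [one_mul, Complex.ofReal_zero, zero_mul, h.G0, h'.G0, Complex.zero_re, mul_zero,
        sub_zero, Lf_one, add_zero] at key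
      have k1 := mul_le_mul_of_nonneg_left (Lf_le σ0 (show 0 ≤ 1 - r by linarith))
        (show 0 ≤ (1 - γ) * (3 / (1 - c)) from mul_nonneg (by linarith) (by positivity))
      have k2 : (1 - γ) * (3 / (1 - c)) * (2 / (1 - c)) = (1 - γ) * (6 / (1 - c) ^ 2) := by
        field_simp
        ring
      linarith
    · have y0 := hy.1
      have y1 := hy.2.trans r1
      have hn : ‖(y * x : ℂ)‖ = y := by
        rw [norm_mul, hx, Complex.norm_real, Real.norm_of_nonneg y0.le, mul_one]
      have zb : (y * x : ℂ) ∈ ball (0 : ℂ) 1 := mem_ball_zero_iff.2 (by rwa [hn])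
      have e1 := h.norm_le (z := y * x) (by rwa [hn])
      rw [hn] at e1
      obtain ⟨p1, p2⟩ := v_pow γ0 γ1 (h.re _ zb)
      have ρ0 : 0 < ‖q (y * x)‖ := norm_pos_iff.2 fun e => by simpa [e] using h.re _ zb
      have ψ1 := Complex.abs_arg_lt_pi_div_two_iff.2 (Or.inl (h.re _ zb))
      have c2 : cos (Complex.arg (q (y * x))) ≤ cos (γ * Complex.arg (q (y * x))) := by
        rw [← cos_abs, ← cos_abs (γ * _), abs_mul, abs_of_pos γ0]
        exact cos_le_cos_of_nonneg_of_le_pi (by positivity) (by linarith)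
          (mul_le_of_le_one_left (abs_nonneg _) γ1)
      have c3 : 0 ≤ cos (Complex.arg (q (y * x))) :=
        cos_nonneg_of_mem_Icc ⟨(abs_lt.1 ψ1).1.le, (abs_lt.1 ψ1).2.le⟩
      have p0 : 0 < 1 - y := by linarith
      have X1 : 1 ≤ (1 + y) / (1 - y) := by rw [le_div_iff₀ p0]; linarith
      have W1 : 1 ≤ (1 - y) ^ (-b) :=
        one_le_rpow_of_pos_of_le_one_of_nonpos p0 (by linarith) (by linarith)
      have Q1 : ((1 + y) / (1 - y)) ^ b ≤ 3 * (1 - y) ^ (-b) := by
        nlinarith [pow_ineq b0 b1 y0.le y1]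
      have Q2 : log (((1 + y) / (1 - y)) ^ b) ≤ 2 * y * (1 - y) ^ (-(1 - c)) / (1 - c) := by
        have l0 := log_nonneg X1
        have l1 := log_le_sub_one_of_pos (rpow_pos_of_pos (show 0 < (1 + y) / (1 - y) by linarith)
          (1 - c))
        have l2 := pow_ineq σ0 (by linarith) y0.le y1
        rw [log_rpow (by linarith)] at l1 ⊢
        rw [le_div_iff₀ σ0]
        nlinarith [mul_le_mul_of_nonneg_right b1.le (mul_nonneg σ0.le l0)]
      have Q3 : (1 - y) ^ (-b) * (1 - y) ^ (-(1 - c)) ≤ (1 - y) ^ (-c) := by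
        rw [← rpow_add p0]
        exact rpow_le_rpow_of_exponent_ge p0 (by linarith) (by linarith)
      have d : (q (y * x)).re - (Complex.exp (γ * Complex.log (q (y * x)))).re ≤
          (1 - γ) * (6 * y * (1 - y) ^ (-c) / (1 - c)) := by
        rw [← Complex.norm_mul_cos_arg (q (y * x)),
          ← Complex.norm_mul_cos_arg (Complex.exp (γ * Complex.log (q (y * x)))), p1, p2]
        have R0 : 0 ≤ (1 - γ) * (6 * y * (1 - y) ^ (-c) / (1 - c)) :=
          mul_nonneg (by linarith) (by positivity)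
        have g0 : 0 < ‖q (y * x)‖ ^ γ := by positivity
        rcases le_total ‖q (y * x)‖ 1 with g | g
        · have g1 : ‖q (y * x)‖ ≤ ‖q (y * x)‖ ^ γ := by
            simpa using rpow_le_rpow_of_exponent_ge ρ0 g γ1
          nlinarith [mul_le_mul g1 c2 c3 g0.le]
        · have g1 : ‖q (y * x)‖ ^ γ ≤ ‖q (y * x)‖ := by
            simpa using rpow_le_rpow_of_exponent_le g γ1
          have g2 := v_log ρ0 γ
          have g3 : ‖q (y * x)‖ * log ‖q (y * x)‖ ≤
              3 * (1 - y) ^ (-b) * (2 * y * (1 - y) ^ (-(1 - c)) / (1 - c)) :=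
            mul_le_mul (e1.trans Q1) ((log_le_log ρ0 e1).trans Q2) (log_nonneg g) (by positivity)
          have g4 : 3 * (1 - y) ^ (-b) * (2 * y * (1 - y) ^ (-(1 - c)) / (1 - c)) ≤
              6 * y * (1 - y) ^ (-c) / (1 - c) := by
            rw [← mul_div_assoc]
            refine div_le_div_of_nonneg_right ?_ σ0.le
            nlinarith [mul_le_mul_of_nonneg_left Q3 y0.le]
          have g5 := mul_le_mul_of_nonneg_left (g3.trans g4) (show 0 ≤ 1 - γ by linarith)
          nlinarith [mul_le_mul_of_nonneg_left c2 g0.le, mul_le_mul_of_nonneg_left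
            (cos_le_one (Complex.arg (q (y * x)))) (sub_nonneg.2 g1)]
      have d2 : ((q (y * x)).re - (Complex.exp (γ * Complex.log (q (y * x)))).re) / y ≤
          (1 - γ) * (3 / (1 - c)) * (2 * 1 * (1 - 1 * y) ^ (-c)) := by
        rw [div_le_iff₀ y0, one_mul]
        refine d.trans (le_of_eq ?_)
        ring
      rw [sub_div] at d2
      simp only [sub_div]
      linarith
  have Pd : DifferentiableOn ℂ (fun z => Complex.exp (Complex.log (q z) / b)) (ball 0 1) :=
    ((h.qd.clog fun z hz => Or.inl (h.re z hz)).div_const _).cexp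
  have sp : sphere (0 : ℂ) r ⊆ ball 0 1 := sphere_subset_ball r1
  have cP : ContinuousOn (fun z => (Complex.exp (Complex.log (q z) / b)).re) (sphere 0 r) :=
    Complex.continuous_re.comp_continuousOn (Pd.continuousOn.mono sp)
  obtain ⟨A, hA⟩ : ∃ A, A = exp ((1 - γ) * (6 / (1 - c) ^ 2)) := ⟨_, rfl⟩
  obtain ⟨B, hB⟩ : ∃ B, B = (1 - γ) * (exp (1 / (1 - c)) / (1 - c)) := ⟨_, rfl⟩
  have i1 : ContinuousOn (fun z => A • (phi a (Complex.exp (γ * Complex.log (q z))) *
      exp (G' z).re)) (sphere 0 r) := (v_cont h' a r1).const_smul A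
  have i2 : ContinuousOn (fun z => B • (Complex.exp (Complex.log (q z) / b)).re) (sphere 0 r) :=
    cP.const_smul B
  have i3 : ContinuousOn (fun z => A • (phi a (Complex.exp (γ * Complex.log (q z))) *
      exp (G' z).re) + B • (Complex.exp (Complex.log (q z) / b)).re) (sphere 0 r) := i1.add i2
  have m := circleAverage_mono ((v_cont h b r1).circleIntegrable r0.le)
    (i3.circleIntegrable r0.le) fun z hz => by
      rw [abs_of_pos r0] at hz
      have zb := sp hz
      have zr := mem_sphere_zero_iff_norm.1 hz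
      have rc : (r : ℂ) ≠ 0 := by exact_mod_cast r0.ne'
      have x1 : ‖z / r‖ = 1 := by
        rw [norm_div, zr, Complex.norm_real, Real.norm_of_nonneg r0.le, div_self r0.ne']
      have g1 := gr _ x1
      have g2 := exp_le h r0 r1 x1
      rw [mul_div_cancel₀ _ rc] at g1 g2
      have g3 : exp (G z).re ≤ exp (1 / (1 - c)) := g2.trans (exp_le_exp.2 (by
        rw [div_le_div_iff₀ (by linarith) σ0]
        linarith))
      have g4 : exp (G z).re ≤ A * exp (G' z).re := by
        rw [hA, ← exp_add, exp_le_exp]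
        linarith
      obtain ⟨p1, p2⟩ := v_pow γ0 γ1 (h.re _ zb)
      have ρ0 : 0 < ‖q z‖ := norm_pos_iff.2 fun e => by simpa [e] using h.re _ zb
      obtain ⟨l1, l2⟩ := abs_lt.1 (h.arg z zb)
      have c0 : 0 ≤ cos (Complex.arg (q z) / b) := by
        apply cos_nonneg_of_mem_Icc
        constructor
        · rw [le_div_iff₀ b0]
          linarith
        · rw [div_le_iff₀ b0]
          linarith
      have e1 : (Complex.exp (Complex.log (q z) / b)).re =
          ‖q z‖ * ‖q z‖ ^ (1 / b - 1) * cos (Complex.arg (q z) / b) := by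
        rw [Complex.exp_re, Complex.div_ofReal_re, Complex.div_ofReal_im, Complex.log_re,
          Complex.log_im, rpow_sub_one ρ0.ne', mul_div_cancel₀ _ ρ0.ne', rpow_def_of_pos ρ0,
          mul_one_div]
      have e2 : phi a (Complex.exp (γ * Complex.log (q z))) =
          ‖q z‖ ^ γ * cos (Complex.arg (q z) / b) := by
        rw [phi, p1, p2, ← γb, mul_div_mul_left _ _ γ0.ne']
      have τ1 : 1 - c ≤ 1 / b - 1 := by
        rw [le_sub_iff_add_le, le_div_iff₀ b0]
        nlinarith
      have k1 : log ‖q z‖ ≤ ‖q z‖ ^ (1 / b - 1) / (1 - c) :=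
        (log_le_rpow_div ρ0.le (σ0.trans_le τ1)).trans
          (div_le_div_of_nonneg_left (by positivity) σ0 τ1)
      have k2 : ‖q z‖ ≤ ‖q z‖ ^ γ + (1 - γ) * (‖q z‖ * (‖q z‖ ^ (1 / b - 1) / (1 - c))) := by
        linarith [v_log ρ0 γ, mul_le_mul_of_nonneg_left (mul_le_mul_of_nonneg_left k1 ρ0.le)
          (show 0 ≤ 1 - γ by linarith)]
      have u0 : 0 ≤ (1 - γ) * (‖q z‖ * (‖q z‖ ^ (1 / b - 1) / (1 - c))) *
          cos (Complex.arg (q z) / b) := mul_nonneg (mul_nonneg (by linarith) (by positivity)) c0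
      show phi b (q z) * exp (G z).re ≤ _
      rw [smul_eq_mul, smul_eq_mul, e1, e2, phi, hB]
      calc ‖q z‖ * cos (Complex.arg (q z) / b) * exp (G z).re
          ≤ (‖q z‖ ^ γ + (1 - γ) * (‖q z‖ * (‖q z‖ ^ (1 / b - 1) / (1 - c)))) *
            cos (Complex.arg (q z) / b) * exp (G z).re := by gcongr
        _ = ‖q z‖ ^ γ * cos (Complex.arg (q z) / b) * exp (G z).re +
            (1 - γ) * (‖q z‖ * (‖q z‖ ^ (1 / b - 1) / (1 - c))) * cos (Complex.arg (q z) / b) *
              exp (G z).re := by ring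
        _ ≤ ‖q z‖ ^ γ * cos (Complex.arg (q z) / b) * (A * exp (G' z).re) +
            (1 - γ) * (‖q z‖ * (‖q z‖ ^ (1 / b - 1) / (1 - c))) * cos (Complex.arg (q z) / b) *
              exp (1 / (1 - c)) := by gcongr
        _ = _ := by ring
  rw [circleAverage_fun_add (i1.circleIntegrable r0.le) (i2.circleIntegrable r0.le),
    circleAverage_fun_smul, circleAverage_fun_smul, mean_re Pd r0 r1] at m
  simp only [h.q0, Complex.log_one, zero_div, Complex.exp_zero, Complex.one_re, smul_eq_mul,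
    mul_one] at m
  rw [← hA, ← hB]
  exact m

end Pool.Agent.P.MP_bdc337_an.SO
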