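import Pool.Agent.P.MP_bdc337_an.SO.V1
import Pool.Agent.P.MP_bdc337_an.SO.FinB

/-! The limit constant and the uniform estimate. -/

set_option autoImplicit false

namespace Pool.Agent.P.MP_bdc337_an.SO

open Finset PowerSeries Metric Filter Topology Real
open UO LN KR

/-- values of the functional -/
def SJ (a : ℝ) : Set ℝ :=
  {x | ∃ (q H G : ℂ → ℂ) (r : ℝ), Dat a q H G ∧ 0 < r ∧ r < 1 ∧ x = 2 * a * jav a q G r}

/-- the limit constant -/
noncomputable def Cs (a : ℝ) : ℝ := sSup (SJ a)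

variable {a b : ℝ}

lemma SJ_bdd (h0 : 0 < a) : BddAbove (SJ a) := ⟨_, by
  rintro x ⟨q, H, G, r, D, r0, r1, rfl⟩
  exact mul_le_mul_of_nonneg_left (jav_le D r0 r1) (by linarith)⟩

lemma SJ_mem (h0 : 0 < a) (h1 : a < 1) : 2 * a ∈ SJ a := by
  refine ⟨fun _ => 1, fun _ => 0, fun _ => 0, 1 / 2, ⟨h0, h1, by fun_prop, rfl, by simp,
    fun z _ => by rw [Complex.arg_one, abs_zero]; positivity, by simp, rfl,
    fun z _ => hasDerivAt_const z 0⟩, by norm_num, by norm_num, ?_⟩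
  simp [jav, phi, circleAverage_const]

lemma Cs_ge (h0 : 0 < a) (h1 : a < 1) : 2 * a ≤ Cs a := le_csSup (SJ_bdd h0) (SJ_mem h0 h1)

lemma le_Cs {q H G : ℂ → ℂ} (D : Dat a q H G) {r : ℝ} (r0 : 0 < r) (r1 : r < 1) :
    2 * a * jav a q G r ≤ Cs a := le_csSup (SJ_bdd D.a0) ⟨q, H, G, r, D, r0, r1, rfl⟩

lemma Cs_mono (h0 : 0 < a) (hab : a ≤ b) (b1 : b < 1) : Cs a ≤ Cs b := by
  refine csSup_le ⟨_, SJ_mem h0 (hab.trans_lt b1)⟩ ?_
  rintro x ⟨q, H, G, r, D, r0, r1, rfl⟩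
  have k1 := le_Cs (v_mono D hab b1) r0 r1
  have k2 := v_jav_mono D hab r0 r1
  have k3 := Cs_ge (h0.trans_le hab) b1
  rcases le_total 0 (jav b q G r) with g | g <;> nlinarith

lemma Cs_up (h0 : 0 < a) (h1 : a < 1) {e : ℝ} (e0 : 0 < e) :
    ∀ᶠ N in atTop, ∀ q H G, Dat a q H G → cN G N ≤ Cs a + e := by
  have := up_lim (C := Cs a / (2 * a)) h0 h1 (fun q H G r D r0 r1 => by
    rw [le_div_iff₀' (by linarith)]
    exact le_Cs D r0 r1) e0
  rwa [mul_div_cancel₀ _ (by linarith)] at this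

lemma Cs_lo (h0 : 0 < a) (h1 : a < 1) {e : ℝ} (e0 : 0 < e) :
    ∀ᶠ N in atTop, ∃ q H G, Dat a q H G ∧ Cs a - e ≤ cN G N := by
  obtain ⟨_, ⟨q, H, G, r, D, r0, r1, rfl⟩, k⟩ := exists_lt_of_lt_csSup ⟨_, SJ_mem h0 h1⟩
    (show Cs a - e / 2 < sSup (SJ a) by unfold Cs; linarith)
  filter_upwards [low D r0 r1 (half_pos e0)] with N ⟨q', H', G', D', hN⟩
  exact ⟨q', H', G', D', by linarith⟩

lemma cN_eq {q H G : ℂ → ℂ} (D : Dat a q H G) (N : ℕ) :
    cN G N = N * ‖coeff (N + 1) (tay fun z => z * Complex.exp (G z))‖ := by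
  rw [coeff_f D, cN]

lemma third_up (h1 : a ≤ 1 / 3) {q H G : ℂ → ℂ} (D : Dat a q H G) {N : ℕ} (hN : 1 ≤ N) :
    cN G N ≤ 2 * a := by
  obtain ⟨a1, a2, a3, a4, a5⟩ := D.star
  have k := upper D.a0 h1 a1 a2 a3 a4 a5 hN
  have n0 : (0 : ℝ) < N := by exact_mod_cast hN
  rw [cN_eq D]
  exact (le_div_iff₀' n0).1 k

lemma Cs_third (h0 : 0 < a) (h1 : a ≤ 1 / 3) : Cs a ≤ 2 * a := by
  refine le_of_forall_pos_le_add fun e e0 => ?_
  obtain ⟨N, ⟨q, H, G, D, k⟩, hN⟩ :=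
    ((Cs_lo h0 (by linarith) e0).and (eventually_ge_atTop 1)).exists
  linarith [third_up h1 D hN]

lemma Cs_loc (h0 : 0 < a) (h1 : a < 1) {δ : ℝ} (δ0 : 0 < δ) :
    ∃ u v : ℝ, 0 < u ∧ u < a ∧ a < v ∧ v < 1 ∧ Cs v ≤ (1 + δ) * Cs u := by
  obtain ⟨c, hc⟩ : ∃ c, c = (3 + a) / 4 := ⟨_, rfl⟩
  have c1 : c < 1 := by linarith
  obtain ⟨ε, ε0, k⟩ := ev_pos (φ := fun t => 1 + δ - (a + t) / (a - t) *
    (exp ((1 - (a - t) / (a + t)) * (6 / (1 - c) ^ 2)) +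
      (1 - (a - t) / (a + t)) * (exp (1 / (1 - c)) / (1 - c))))
    (by fun_prop (disch := simpa using h0.ne')) (by simpa [h0.ne'] using δ0)
  obtain ⟨t, t0, t1, t2, t3⟩ : ∃ t : ℝ, 0 < t ∧ t < ε ∧ t < a ∧ t ≤ (1 - a) / 2 :=
    ⟨min (ε / 2) (min (a / 2) ((1 - a) / 2)), lt_min (by linarith) (lt_min (by linarith)
      (by linarith)), (min_le_left _ _).trans_lt (by linarith),
      ((min_le_right _ _).trans (min_le_left _ _)).trans_lt (by linarith),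
      (min_le_right _ _).trans (min_le_right _ _)⟩
  have u0 : 0 < a - t := by linarith
  have v0 : 0 < a + t := by linarith
  refine ⟨a - t, a + t, u0, by linarith, by linarith, by linarith,
    csSup_le ⟨_, SJ_mem v0 (by linarith)⟩ ?_⟩
  rintro x ⟨q, H, G, r, D, r0, r1, rfl⟩
  obtain ⟨q', H', G', D', m⟩ := v_rc D u0 (by linarith) c1 (by linarith) r0 r1
  have k1 := k t t0 t1
  have k2 := le_Cs D' r0 r1
  have k3 := Cs_ge u0 (show a - t < 1 by linarith)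
  have B0 : 0 ≤ (1 - (a - t) / (a + t)) * (exp (1 / (1 - c)) / (1 - c)) :=
    mul_nonneg (sub_nonneg.2 ((div_le_one v0).2 (by linarith)))
      (div_nonneg (exp_pos _).le (by linarith))
  have E0 := exp_pos ((1 - (a - t) / (a + t)) * (6 / (1 - c) ^ 2))
  generalize exp ((1 - (a - t) / (a + t)) * (6 / (1 - c) ^ 2)) = E at *
  generalize (1 - (a - t) / (a + t)) * (exp (1 / (1 - c)) / (1 - c)) = B at *
  calc 2 * (a + t) * jav (a + t) q G r ≤ 2 * (a + t) * (E * jav (a - t) q' G' r + B) := by gcongr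
    _ = (a + t) / (a - t) * (E * (2 * (a - t) * jav (a - t) q' G' r) + B * (2 * (a - t))) := by
        field_simp
    _ ≤ (a + t) / (a - t) * (E * Cs (a - t) + B * Cs (a - t)) := by gcongr
    _ = (a + t) / (a - t) * (E + B) * Cs (a - t) := by ring
    _ ≤ _ := mul_le_mul_of_nonneg_right (by linarith) (by linarith)

/-- the two bounds against the limit constant -/
def Lim (c a : ℝ) (N : ℕ) : Prop := (∃ q H G, Dat a q H G ∧ Cs a ≤ c * cN G N) ∧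
  ∀ q H G, Dat a q H G → cN G N ≤ c * Cs a

lemma lim_unif {δ : ℝ} (δ0 : 0 < δ) (b1 : b < 1) :
    ∀ᶠ N in atTop, ∀ a, 0 < a → a ≤ b → Lim ((1 + δ) * (1 + δ)) a N := by
  have k1 : ∀ᶠ N in atTop, ∀ a ∈ Set.Icc (1 / 3 : ℝ) b, Lim ((1 + δ) * (1 + δ)) a N := by
    refine (isCompact_Icc (a := (1 / 3 : ℝ)) (b := b)).induction_on
      (p := fun s => ∀ᶠ N in atTop, ∀ a ∈ s, Lim ((1 + δ) * (1 + δ)) a N) (by simp)
      (fun s t hst ht => ht.mono fun N h a ha => h a (hst ha))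
      (fun s t hs ht => (hs.and ht).mono fun N h a ha => ha.elim (h.1 a) (h.2 a)) fun x hx => ?_
    obtain ⟨u, v, u0, ux, xv, v1, k⟩ := Cs_loc (a := x) (by linarith [hx.1]) (hx.2.trans_lt b1) δ0
    have u1 : u < 1 := by linarith
    have cu := Cs_ge u0 u1
    have cv := Cs_ge (a := v) (by linarith) v1
    refine ⟨Set.Ioo u v, mem_nhdsWithin_of_mem_nhds (Ioo_mem_nhds ux xv), ?_⟩
    filter_upwards [Cs_lo u0 u1 (e := δ / (1 + δ) * Cs u) (mul_pos (by positivity) (by linarith)),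
      Cs_up (a := v) (by linarith) v1 (e := δ * Cs v) (mul_pos δ0 (by linarith))]
      with N ⟨q, H, G, D, l⟩ hu a ha
    have m1 := Cs_mono u0 ha.1.le (ha.2.trans v1)
    have m2 := Cs_mono (u0.trans ha.1) ha.2.le v1
    refine ⟨⟨q, H, G, v_mono D ha.1.le (ha.2.trans v1), ?_⟩, fun q' H' G' D' => ?_⟩
    · have l2 := mul_le_mul_of_nonneg_left l (show 0 ≤ 1 + δ by linarith)
      rw [show (1 + δ) * (Cs u - δ / (1 + δ) * Cs u) = Cs u by field_simp; ring] at l2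
      nlinarith [mul_le_mul_of_nonneg_left l2 (show 0 ≤ 1 + δ by linarith)]
    · have l2 := hu q' H' G' (v_mono D' ha.2.le v1)
      nlinarith [mul_le_mul_of_nonneg_left k (show 0 ≤ 1 + δ by linarith),
        mul_le_mul_of_nonneg_left m1 (show 0 ≤ (1 + δ) * (1 + δ) by positivity)]
  filter_upwards [k1, eventually_ge_atTop 1] with N h hN a h0 hb
  rcases le_total a (1 / 3) with g | g
  · have a1 : a < 1 := by linarith
    have n0 : (0 : ℝ) < N := by exact_mod_cast hN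
    have c1 := Cs_third h0 g
    have c2 := Cs_ge h0 a1
    obtain ⟨f, f1, f2, f3, f4, f5, f6⟩ := extremal h0 a1.le hN
    obtain ⟨q, H, G, D, hf⟩ := exists_dat h0 a1 f1 f2 f3 f4 f5
    have e : f =ᶠ[𝓝 0] fun z => z * Complex.exp (G z) :=
      Filter.mem_of_superset (ball_mem_nhds 0 one_pos) hf
    refine ⟨⟨q, H, G, D, ?_⟩, fun q' H' G' D' => ?_⟩
    · rw [cN_eq D, ← tay_congr e, f6, Complex.norm_real, Real.norm_of_nonneg (by positivity),
        mul_div_cancel₀ _ n0.ne']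
      nlinarith [mul_pos δ0 h0, mul_pos (mul_pos δ0 δ0) h0]
    · have := third_up g D' hN
      nlinarith [mul_pos δ0 h0, mul_pos (mul_pos δ0 δ0) h0, mul_le_mul_of_nonneg_left c2
        (show 0 ≤ (1 + δ) * (1 + δ) by positivity)]
  · exact h a ⟨g, hb⟩

/-- the limit of `n` times the size function -/
noncomputable def Linf (a : ℝ) : ℝ := a * (2 * ((1 - a) / 2) * Tf (1 - a) ((1 - a) / 2))

/-- the correction factor -/
noncomputable def kp (a : ℝ) : ℝ := Cs a / Linf a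

lemma Linf_pos (h0 : 0 < a) (h1 : a < 1) : 0 < Linf a := by
  have e0 : 0 < 1 - a := by linarith
  have := Gamma_pos_of_pos (show 0 < 2 * ((1 - a) / 2) + 1 by linarith)
  unfold Linf Tf
  positivity

lemma Ph_lim {N : ℕ} (h : ((N + 1 : ℕ) : ℝ) ^ (-(1 - a)) ≤ (1 - a) / 2) :
    Ph a (N + 1) = Linf a / (N + 1) := by
  rw [Ph, yy, max_eq_right h, Linf, Nat.cast_succ]
  ring

lemma ev_small {e : ℝ} (e0 : 0 < e) : ∀ᶠ N : ℕ in atTop, ((N + 1 : ℕ) : ℝ) ^ (-e) ≤ e / 2 :=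
  (((tendsto_rpow_neg_atTop e0).comp tendsto_natCast_atTop_atTop).comp
    (tendsto_add_atTop_nat 1)).eventually (ge_mem_nhds (half_pos e0))

lemma ev_ratio {δ : ℝ} (δ0 : 0 < δ) : ∀ᶠ N : ℕ in atTop, 1 ≤ N ∧ (N : ℝ) + 1 ≤ (1 + δ) * N := by
  filter_upwards [eventually_ge_atTop 1,
    (tendsto_natCast_atTop_atTop (R := ℝ)).eventually_ge_atTop (1 / δ)] with N h1 h2
  rw [div_le_iff₀ δ0] at h2
  exact ⟨h1, by linarith⟩

lemma kp_two {c : ℝ} (h0 : 0 < a) (h1 : a < 1) (c0 : 0 < c) (h : ∀ n : ℕ, 2 ≤ n → Two c a n) :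
    1 / c ≤ kp a ∧ kp a ≤ c := by
  have L0 := Linf_pos h0 h1
  have e0 : 0 < 1 - a := by linarith
  have C0 : 0 < Cs a := by linarith [Cs_ge h0 h1]
  rw [kp, div_le_div_iff₀ c0 L0, div_le_iff₀ L0, one_mul]
  constructor
  · refine le_of_forall_pos_le_add fun ε ε0 => ?_
    obtain ⟨δ, δ0, δ1, δ2⟩ : ∃ δ : ℝ, 0 < δ ∧ δ ≤ 1 ∧ 3 * (Cs a * c) * δ ≤ ε :=
      ⟨min 1 (ε / (3 * (Cs a * c))), by positivity, min_le_left _ _,
        (le_div_iff₀' (by positivity)).1 (min_le_right _ _)⟩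
    obtain ⟨N, ⟨k1, k2⟩, N1, k3⟩ := (((Cs_up h0 h1 (mul_pos δ0 C0)).and (ev_small e0)).and
      (ev_ratio δ0)).exists
    obtain ⟨q, H, G, D, l⟩ := (h (N + 1) (by omega)).1
    have l2 := k1 q H G D
    rw [Ph_lim k2, div_div, div_le_iff₀ (by positivity)] at l
    rw [cN_eq D] at l2
    have p := norm_nonneg (coeff (N + 1) (tay fun z => z * Complex.exp (G z)))
    generalize ‖coeff (N + 1) (tay fun z => z * Complex.exp (G z))‖ = x at *
    have m1 : x * ((N + 1) * c) ≤ (1 + δ) * c * (N * x) := by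
      nlinarith [mul_le_mul_of_nonneg_left k3 (mul_nonneg p c0.le)]
    have m2 := mul_le_mul_of_nonneg_left l2 (show 0 ≤ (1 + δ) * c by positivity)
    nlinarith [mul_le_mul_of_nonneg_left δ1 (show 0 ≤ δ * (Cs a * c) by positivity)]
  · refine le_of_forall_pos_le_add fun ε ε0 => ?_
    obtain ⟨N, ⟨⟨q, H, G, D, l⟩, k2⟩, N1⟩ := (((Cs_lo h0 h1 ε0).and (ev_small e0)).and
      (eventually_ge_atTop 1)).exists
    obtain ⟨a1, a2, a3, a4, a5⟩ := D.star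
    have u := (h (N + 1) (by omega)).2 _ a1 a2 a3 a4 a5
    rw [Ph_lim k2, ← mul_div_assoc, le_div_iff₀ (by positivity)] at u
    rw [cN_eq D] at l
    nlinarith [norm_nonneg (coeff (N + 1) (tay fun z => z * Complex.exp (G z)))]

/-- both bounds with the correction factor -/
def Three (c a : ℝ) (n : ℕ) : Prop :=
  (∃ q H G : ℂ → ℂ, Dat a q H G ∧
    kp a * Ph a n / c ≤ ‖coeff n (tay fun z => z * Complex.exp (G z))‖) ∧
  ∀ f : ℂ → ℂ, DifferentiableOn ℂ f (ball 0 1) → Set.InjOn f (ball 0 1) → f 0 = 0 →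
    deriv f 0 = 1 →
    (∀ z ∈ ball (0 : ℂ) 1, z ≠ 0 → |Complex.arg (z * deriv f z / f z)| < a * π / 2) →
    ‖coeff n (tay f)‖ ≤ c * (kp a * Ph a n)

lemma Three.mono {c c' : ℝ} {n : ℕ} (h : Three c a n) (h0 : 0 < a) (h1 : a < 1) (c0 : 0 < c)
    (hc : c ≤ c') : Three c' a n := by
  have P0 : 0 ≤ kp a * Ph a n := mul_nonneg (div_nonneg (by linarith [Cs_ge h0 h1])
    (Linf_pos h0 h1).le) (Ph_nonneg h0 h1 n)
  obtain ⟨⟨q, H, G, hD, hl⟩, hu⟩ := h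
  refine ⟨⟨q, H, G, hD, le_trans ?_ hl⟩, fun f a1 a2 a3 a4 a5 => (hu f a1 a2 a3 a4 a5).trans ?_⟩
  · gcongr
  · gcongr

lemma three_two {c : ℝ} (h0 : 0 < a) (h1 : a < 1) (c0 : 0 < c) (h : ∀ n : ℕ, 2 ≤ n → Two c a n)
    {n : ℕ} (hn : 2 ≤ n) : Three (c * c) a n := by
  obtain ⟨k1, k2⟩ := kp_two h0 h1 c0 h
  obtain ⟨⟨q, H, G, hD, hl⟩, hu⟩ := h n hn
  have P0 := Ph_nonneg h0 h1 n
  rw [div_le_iff₀' c0] at k1
  refine ⟨⟨q, H, G, hD, le_trans ?_ hl⟩, fun f a1 a2 a3 a4 a5 => (hu f a1 a2 a3 a4 a5).trans ?_⟩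
  · rw [← div_div]
    refine div_le_div_of_nonneg_right ?_ c0.le
    rw [div_le_iff₀' c0]
    exact mul_le_mul_of_nonneg_right k2 P0
  · rw [mul_assoc, ← mul_assoc c (kp a)]
    exact mul_le_mul_of_nonneg_left (le_mul_of_one_le_left P0 k1) c0.le

lemma three_near {δ : ℝ} (δ0 : 0 < δ) : ∃ ε : ℝ, 0 < ε ∧ ∀ a : ℝ, 0 < a → a < 1 →
    (1 - a < ε → 1 / (1 + δ) ^ 4 ≤ kp a ∧ kp a ≤ (1 + δ) ^ 4) ∧
    ∀ n : ℕ, 2 ≤ n → min (1 - a) (1 / (n : ℝ)) < ε → Three ((1 + δ) ^ 4) a n := by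
  obtain ⟨ε, ε0, h⟩ := two_near δ0
  obtain ⟨M, hM⟩ := eventually_atTop.1 (((lim_unif (b := 1 - ε) δ0 (by linarith)).and
    (ev_small ε0)).and (ev_ratio δ0))
  have d1 : 1 ≤ 1 + δ := by linarith
  refine ⟨min ε (1 / (M + 1)), by positivity, fun a h0 h1 => ⟨fun he => ?_, fun n hn hs => ?_⟩⟩
  · obtain ⟨k1, k2⟩ := kp_two h0 h1 (by positivity) fun n hn =>
      h a h0 h1 n hn (he.trans_le (min_le_left _ _))
    have : (1 + δ) * (1 + δ) ≤ (1 + δ) ^ 4 := by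
      rw [← pow_two]
      exact pow_le_pow_right₀ d1 (by norm_num)
    exact ⟨(one_div_le_one_div_of_le (by positivity) this).trans k1, k2.trans this⟩
  rcases lt_or_ge (1 - a) ε with he | he
  · have := three_two h0 h1 (by positivity) (fun n hn => h a h0 h1 n hn he) hn
    rwa [show (1 + δ) * (1 + δ) * ((1 + δ) * (1 + δ)) = (1 + δ) ^ 4 by ring] at this
  obtain ⟨N, rfl⟩ : ∃ N, n = N + 1 := ⟨n - 1, by omega⟩
  have hN : M ≤ N := by
    rcases min_lt_iff.1 hs with g | g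
    · exact absurd (g.trans_le (min_le_left _ _)) (not_lt.2 he)
    · have := lt_of_one_div_lt_one_div (by positivity) (g.trans_le (min_le_right _ _))
      exact_mod_cast (by exact_mod_cast this : M + 1 < N + 1).le.trans_lt' (Nat.lt_succ_self M) |>
        Nat.lt_succ_iff.1
  obtain ⟨⟨k1, k2⟩, N1, k3⟩ := hM N hN
  obtain ⟨⟨q, H, G, D, l⟩, u⟩ := k1 a h0 (by linarith)
  have k4 : ((N + 1 : ℕ) : ℝ) ^ (-(1 - a)) ≤ (1 - a) / 2 :=
    ((rpow_le_rpow_of_exponent_le (by exact_mod_cast Nat.le_add_left 1 N)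
      (by linarith)).trans k2).trans (by linarith)
  have L0 := Linf_pos h0 h1
  have n0 : (0 : ℝ) < N := by exact_mod_cast N1
  have C0 : 0 < Cs a := by linarith [Cs_ge h0 h1]
  have e : kp a * Ph a (N + 1) = Cs a / (N + 1) := by
    rw [Ph_lim k4, kp]
    field_simp
  refine Three.mono (c := (1 + δ) ^ 3) ⟨⟨q, H, G, D, ?_⟩, fun f a1 a2 a3 a4 a5 => ?_⟩ h0 h1
    (by positivity) (pow_le_pow_right₀ d1 (by norm_num))
  · rw [e, div_div, div_le_iff₀ (by positivity)]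
    rw [cN_eq D] at l
    refine l.trans ?_
    have p := norm_nonneg (coeff (N + 1) (tay fun z => z * Complex.exp (G z)))
    generalize ‖coeff (N + 1) (tay fun z => z * Complex.exp (G z))‖ = x at *
    calc (1 + δ) * (1 + δ) * (N * x) = x * (N * (1 + δ) ^ 2) := by ring
      _ ≤ _ := by
          gcongr
          · linarith
          · norm_num
  · obtain ⟨q', H', G', D', hf⟩ := exists_dat h0 h1 a1 a2 a3 a4 a5
    have e' : f =ᶠ[𝓝 0] fun z => z * Complex.exp (G' z) :=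
      Filter.mem_of_superset (ball_mem_nhds 0 one_pos) hf
    have v := u q' H' G' D'
    rw [cN_eq D'] at v
    rw [tay_congr e', e, ← mul_div_assoc, le_div_iff₀ (by positivity)]
    have p := norm_nonneg (coeff (N + 1) (tay fun z => z * Complex.exp (G' z)))
    generalize ‖coeff (N + 1) (tay fun z => z * Complex.exp (G' z))‖ = x at *
    calc x * (N + 1) ≤ x * ((1 + δ) * N) := by gcongr
      _ = (1 + δ) * (N * x) := by ring
      _ ≤ (1 + δ) * ((1 + δ) * (1 + δ) * Cs a) := by gcongr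
      _ = _ := by ring

theorem three_all : ∃ g : ℝ → ℝ, (∀ s, 1 ≤ g s) ∧ (∃ C : ℝ, ∀ s, g s ≤ C) ∧
    Tendsto g (𝓝[>] 0) (𝓝 1) ∧ ∀ a : ℝ, 0 < a → a < 1 →
      (1 / g (1 - a) ≤ kp a ∧ kp a ≤ g (1 - a)) ∧
      ∀ n : ℕ, 2 ≤ n → Three (g (min (1 - a) (1 / (n : ℝ)))) a n := by
  obtain ⟨C, C1, hC⟩ := two_abs
  set S : ℝ → Set ℝ := fun s => {c | 1 ≤ c ∧ ∀ a : ℝ, 0 < a → a < 1 →
    (1 - a = s → 1 / c ≤ kp a ∧ kp a ≤ c) ∧
    ∀ n : ℕ, 2 ≤ n → min (1 - a) (1 / (n : ℝ)) = s → Three c a n} with hS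
  have CC : C ≤ C * C := by nlinarith
  have mem : ∀ s, C * C ∈ S s := fun s => ⟨C1.trans CC, fun a h0 h1 => ⟨fun _ => by
      obtain ⟨k1, k2⟩ := kp_two h0 h1 (by linarith) (hC a h0 h1)
      exact ⟨(one_div_le_one_div_of_le (by linarith) CC).trans k1, k2.trans CC⟩,
    fun n hn _ => three_two h0 h1 (by linarith) (hC a h0 h1) hn⟩⟩
  have bdd : ∀ s, BddBelow (S s) := fun s => ⟨1, fun c hc => hc.1⟩
  have one : ∀ s, 1 ≤ sInf (S s) := fun s => le_csInf ⟨_, mem s⟩ fun c hc => hc.1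
  have m0 : ∀ s : ℝ, 0 ≤ min |s| 1 := fun s => le_min (abs_nonneg s) zero_le_one
  have ex : ∀ s : ℝ, 0 < s → ∃ c ∈ S s, c ≤ sInf (S s) + min |s| 1 := fun s s0 => by
    obtain ⟨c, hc, k⟩ := exists_lt_of_csInf_lt ⟨_, mem s⟩
      (show sInf (S s) < sInf (S s) + min |s| 1 by
        linarith [lt_min (abs_pos.2 s0.ne') one_pos])
    exact ⟨c, hc, k.le⟩
  refine ⟨fun s => sInf (S s) + min |s| 1, fun s => by linarith [one s, m0 s],
    ⟨C * C + 1, fun s => add_le_add (csInf_le (bdd s) (mem s)) (min_le_right _ _)⟩, ?_,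
    fun a h0 h1 => ⟨?_, fun n hn => ?_⟩⟩
  · refine tendsto_order.2 ⟨fun b hb => Eventually.of_forall fun s => ?_, fun b hb => ?_⟩
    · linarith [one s, m0 s]
    · obtain ⟨ε1, p1, k1⟩ := ev_pos (φ := fun δ => b - ((1 + δ) ^ 4 + δ)) (by fun_prop)
        (by simpa using hb)
      have δ0 := half_pos p1
      have k2 := k1 _ δ0 (half_lt_self p1)
      obtain ⟨ε, ε0, h⟩ := three_near δ0
      filter_upwards [Ioo_mem_nhdsGT (lt_min ε0 δ0)] with s hs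
      have s1 := hs.2.trans_le (min_le_left _ _)
      have k : (1 + ε1 / 2) ^ 4 ∈ S s := ⟨one_le_pow₀ (by linarith), fun a h0 h1 =>
        ⟨fun e => (h a h0 h1).1 (e ▸ s1), fun n hn e => (h a h0 h1).2 n hn (e ▸ s1)⟩⟩
      have k3 := csInf_le (bdd s) k
      have k4 := min_le_left |s| 1
      rw [abs_of_pos hs.1] at k4 ⊢
      linarith [hs.2.trans_le (min_le_right _ _)]
  · obtain ⟨c, hc, k⟩ := ex (1 - a) (by linarith)
    obtain ⟨k1, k2⟩ := (hc.2 a h0 h1).1 rfl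
    exact ⟨(one_div_le_one_div_of_le (by linarith [hc.1]) k).trans k1, k2.trans k⟩
  · obtain ⟨c, hc, k⟩ := ex (min (1 - a) (1 / (n : ℝ))) (lt_min (by linarith)
      (one_div_pos.2 (by exact_mod_cast (by omega : 0 < n))))
    exact ((hc.2 a h0 h1).2 n hn rfl).mono h0 h1 (by linarith [hc.1]) k

end Pool.Agent.P.MP_bdc337_an.SO
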